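import Mathlib

set_option autoImplicit false

namespace Pool.Agent.H39.Burckel

/-- `v` is a Seymour vertex of `G`: its second out-neighbourhood (the vertices at distance exactly
two from `v`) is at least as large as its first out-neighbourhood. -/
def IsSeymour {V : Type} (G : Digraph V) (v : V) : Prop :=
  {w : V | G.Adj v w}.ncard ≤
    {w : V | w ≠ v ∧ ¬ G.Adj v w ∧ ∃ u : V, G.Adj v u ∧ G.Adj u w}.ncard

/-- `g` is reached from `x` by a directed walk of length at most `n`, that is, `d(x,g) ≤ n`. -/
def WithinDist {V : Type} (G : Digraph V) (n : ℕ) (x g : V) : Prop :=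
  ∃ m : ℕ, m ≤ n ∧ ∃ p : Fin (m + 1) → V, p 0 = x ∧ p (Fin.last m) = g ∧
    ∀ i : Fin m, G.Adj (p i.castSucc) (p i.succ)

/-- `G` is an oriented graph: no loops, no digons. -/
def Oriented {V : Type} (G : Digraph V) : Prop := ∀ u w : V, G.Adj u w → ¬ G.Adj w u

theorem withinDist_refl {V : Type} (G : Digraph V) (x : V) : WithinDist G 0 x x :=
  ⟨0, le_rfl, fun _ => x, rfl, rfl, fun i => i.elim0⟩

theorem WithinDist.mono {V : Type} {G : Digraph V} {n n' : ℕ} {x g : V}
    (h : WithinDist G n x g) (hn : n ≤ n') : WithinDist G n' x g := by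
  obtain ⟨m, hm, p, h0, hl, hp⟩ := h
  exact ⟨m, hm.trans hn, p, h0, hl, hp⟩

theorem WithinDist.step {V : Type} {G : Digraph V} {n : ℕ} {x g w : V}
    (h : WithinDist G n x g) (hgw : G.Adj g w) : WithinDist G (n + 1) x w := by
  obtain ⟨m, hm, p, h0, hl, hp⟩ := h
  refine ⟨m + 1, by omega, Fin.snoc p w, ?_, ?_, ?_⟩
  · have : (0 : Fin (m + 1 + 1)) = Fin.castSucc 0 := rfl
    rw [this, Fin.snoc_castSucc]
    exact h0
  · simp
  · intro i
    refine Fin.lastCases ?_ ?_ i
    · rw [Fin.snoc_castSucc, Fin.succ_last, Fin.snoc_last, hl]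
      exact hgw
    · intro j
      rw [Fin.snoc_castSucc]
      have : (Fin.castSucc j).succ = Fin.castSucc j.succ := rfl
      rw [this, Fin.snoc_castSucc]
      exact hp j

section Finite

open Classical

variable {V : Type} [Fintype V] (G : Digraph V)

/-- out-neighbourhood as a finset -/
noncomputable def N (v : V) : Finset V := Finset.univ.filter fun w => G.Adj v w

/-- second out-neighbourhood as a finset -/
noncomputable def N2 (v : V) : Finset V :=
  Finset.univ.filter fun w => w ≠ v ∧ ¬ G.Adj v w ∧ ∃ u : V, G.Adj v u ∧ G.Adj u w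

/-- second out-neighbourhood inside the induced subgraph on `C` -/
noncomputable def N2in (C : Finset V) (v : V) : Finset V :=
  C.filter fun w => w ≠ v ∧ ¬ G.Adj v w ∧ ∃ u ∈ C, G.Adj v u ∧ G.Adj u w

theorem mem_N {v w : V} : w ∈ N G v ↔ G.Adj v w := by simp [N]

theorem mem_N2 {v w : V} :
    w ∈ N2 G v ↔ w ≠ v ∧ ¬ G.Adj v w ∧ ∃ u : V, G.Adj v u ∧ G.Adj u w := by simp [N2]

theorem ncard_N (v : V) : {w : V | G.Adj v w}.ncard = (N G v).card := by
  rw [← Set.ncard_coe_finset]
  congr 1
  ext w
  simp [N]

theorem isSeymour_iff (v : V) : IsSeymour G v ↔ (N G v).card ≤ (N2 G v).card := by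
  unfold IsSeymour
  rw [ncard_N, ← Set.ncard_coe_finset (N2 G v)]
  have : {w : V | w ≠ v ∧ ¬ G.Adj v w ∧ ∃ u : V, G.Adj v u ∧ G.Adj u w} = ↑(N2 G v) := by
    ext w
    simp [N2]
  rw [this]

theorem N2in_subset (C : Finset V) (v : V) : N2in G C v ⊆ N2 G v ∩ C := by
  intro w hw
  simp only [N2in, Finset.mem_filter] at hw
  obtain ⟨hwC, hne, hna, u, _, h1, h2⟩ := hw
  exact Finset.mem_inter.2 ⟨(mem_N2 G).2 ⟨hne, hna, u, h1, h2⟩, hwC⟩

/-- If `f` is a Seymour vertex of the subgraph induced on `C` but not of `G`, then outside `C`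
its second out-neighbourhood is smaller than its first. -/
theorem outside_lt {C : Finset V} {f : V} (hin : (N G f ∩ C).card ≤ (N2in G C f).card)
    (hbad : ¬ IsSeymour G f) : (N2 G f \ C).card < (N G f \ C).card := by
  rw [isSeymour_iff] at hbad
  have h1 := Finset.card_inter_add_card_sdiff (N G f) C
  have h2 := Finset.card_inter_add_card_sdiff (N2 G f) C
  have h3 := Finset.card_le_card (N2in_subset G C f)
  omega

/-- After adding the out-neighbours of `f` to `C`, the out-neighbours of any out-neighbour of `f`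
that still lie outside are second out-neighbours of `f`. -/
theorem step_subset (hG : Oriented G) {C : Finset V} {f v : V} (hfv : G.Adj f v) :
    N G v \ (C ∪ N G f) ⊆ N2 G f \ C := by
  intro w hw
  simp only [Finset.mem_sdiff, Finset.mem_union, not_or, mem_N] at hw
  obtain ⟨hvw, hC, hfw⟩ := hw
  refine Finset.mem_sdiff.2 ⟨(mem_N2 G).2 ⟨?_, hfw, v, hfv, hvw⟩, hC⟩
  rintro rfl
  exact hG _ _ hfv hvw

/-- **Local principle.** If every induced subgraph containing `x` has a Seymour vertex, then `G`
has a Seymour vertex at distance at most the out-degree of `x` from `x`. -/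
theorem local_principle (hG : Oriented G) (x : V)
    (h : ∀ C : Finset V, x ∈ C → ∃ f ∈ C, (N G f ∩ C).card ≤ (N2in G C f).card) :
    ∃ g, IsSeymour G g ∧ WithinDist G (N G x).card x g := by
  -- invariant
  have key : ∀ n : ℕ, ∀ C : Finset V, (Finset.univ \ C).card = n → x ∈ C →
      (∀ v ∈ C, ∃ m, WithinDist G m x v ∧ m + (N G v \ C).card ≤ (N G x).card) →
      ∃ g, IsSeymour G g ∧ WithinDist G (N G x).card x g := by
    intro n
    induction n using Nat.strong_induction_on with
    | _ n ih =>
      intro C hn hx hinv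
      obtain ⟨f, hfC, hf⟩ := h C hx
      obtain ⟨m, hm, hmle⟩ := hinv f hfC
      by_cases hS : IsSeymour G f
      · exact ⟨f, hS, hm.mono (by omega)⟩
      have hlt := outside_lt G hf hS
      have hne : (N G f \ C).Nonempty := by
        rw [← Finset.card_pos]
        omega
      refine ih (Finset.univ \ (C ∪ N G f)).card ?_ (C ∪ N G f) rfl
        (Finset.mem_union_left _ hx) ?_
      · rw [← hn]
        apply Finset.card_lt_card
        rw [Finset.ssubset_iff_subset_ne]
        refine ⟨Finset.sdiff_subset_sdiff le_rfl Finset.subset_union_left, ?_⟩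
        intro heq
        obtain ⟨w, hw⟩ := hne
        rw [Finset.mem_sdiff] at hw
        have : w ∈ Finset.univ \ C := by simp [hw.2]
        rw [← heq] at this
        simp only [Finset.mem_sdiff, Finset.mem_union, not_or] at this
        exact this.2.2 hw.1
      · intro v hv
        by_cases hvC : v ∈ C
        · obtain ⟨m', hm', hle'⟩ := hinv v hvC
          refine ⟨m', hm', ?_⟩
          have : (N G v \ (C ∪ N G f)).card ≤ (N G v \ C).card :=
            Finset.card_le_card (Finset.sdiff_subset_sdiff le_rfl Finset.subset_union_left)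
          omega
        · have hfv : G.Adj f v := by
            rw [Finset.mem_union] at hv
            rcases hv with hv | hv
            · exact absurd hv hvC
            · exact (mem_N G).1 hv
          refine ⟨m + 1, hm.step hfv, ?_⟩
          have := Finset.card_le_card (step_subset G hG (C := C) hfv)
          omega
  refine key _ {x} rfl (Finset.mem_singleton_self x) ?_
  intro v hv
  rw [Finset.mem_singleton] at hv
  subst hv
  refine ⟨0, withinDist_refl G v, ?_⟩
  have := Finset.card_le_card (Finset.sdiff_subset (s := N G v) (t := {v}))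
  omega

/-- the subgraph induced on a finset -/
def induce (C : Finset V) : Digraph {v // v ∈ C} where
  Adj u w := G.Adj u.1 w.1

theorem induce_oriented (hG : Oriented G) (C : Finset V) : Oriented (induce G C) :=
  fun u w h h' => hG u.1 w.1 h h'

theorem ncard_induce_N (C : Finset V) (f : {v // v ∈ C}) :
    {w : {v // v ∈ C} | (induce G C).Adj f w}.ncard = (N G f.1 ∩ C).card := by
  rw [← Set.ncard_image_of_injective _ Subtype.val_injective, ← Set.ncard_coe_finset]
  congr 1
  ext w
  simp only [Set.mem_image, Set.mem_setOf_eq, Subtype.exists, exists_and_right, exists_eq_right,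
    Finset.coe_inter, Set.mem_inter_iff, Finset.mem_coe, mem_N, induce]
  constructor
  · rintro ⟨h1, h2⟩
    exact ⟨h2, h1⟩
  · rintro ⟨h1, h2⟩
    exact ⟨h2, h1⟩

theorem ncard_induce_N2 (C : Finset V) (f : {v // v ∈ C}) :
    {w : {v // v ∈ C} | w ≠ f ∧ ¬ (induce G C).Adj f w ∧
      ∃ u, (induce G C).Adj f u ∧ (induce G C).Adj u w}.ncard = (N2in G C f.1).card := by
  rw [← Set.ncard_image_of_injective _ Subtype.val_injective, ← Set.ncard_coe_finset]
  congr 1
  ext w
  simp only [Set.mem_image, Set.mem_setOf_eq, Subtype.exists, induce,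
    N2in, Finset.coe_filter, ne_eq]
  constructor
  · rintro ⟨a, ha, ⟨h1, h2, u, hu, h3, h4⟩, rfl⟩
    exact ⟨ha, fun h => h1 (Subtype.ext h), h2, u, hu, h3, h4⟩
  · rintro ⟨ha, h1, h2, u, hu, h3, h4⟩
    exact ⟨w, ha, ⟨fun h => h1 (congrArg Subtype.val h), h2, u, hu, h3, h4⟩, rfl⟩

end Finite

end Pool.Agent.H39.Burckel
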