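import Mathlib
import Pool.Agent.H39.BurckelCore

set_option autoImplicit false

namespace Pool.Agent.H39.Burckel

open Classical

variable {V : Type} [Fintype V] (G : Digraph V)

/-- arcs inside a set: at most half of the ordered pairs -/
theorem sum_inside (hG : Oriented G) (S : Finset V) :
    2 * ∑ v ∈ S, (N G v ∩ S).card ≤ S.card * S.card - S.card := by
  have h1 : ∑ v ∈ S, (N G v ∩ S).card = ∑ v ∈ S, (S.filter fun w => G.Adj w v).card := by
    have e1 : ∀ v, (N G v ∩ S).card = ∑ w ∈ S, if G.Adj v w then 1 else 0 := by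
      intro v
      rw [Finset.sum_boole, Nat.cast_id]
      congr 1
      ext w
      simp only [Finset.mem_inter, mem_N, Finset.mem_filter]
      tauto
    have e2 : ∀ v, (S.filter fun w => G.Adj w v).card = ∑ w ∈ S, if G.Adj w v then 1 else 0 := by
      intro v
      rw [Finset.sum_boole, Nat.cast_id]
    simp only [e1, e2]
    rw [Finset.sum_comm]
  have h2 : ∀ v ∈ S, (N G v ∩ S).card + (S.filter fun w => G.Adj w v).card ≤ S.card - 1 := by
    intro v hv
    have hd : Disjoint (N G v ∩ S) (S.filter fun w => G.Adj w v) := by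
      rw [Finset.disjoint_left]
      intro w hw hw'
      simp only [Finset.mem_inter, mem_N, Finset.mem_filter] at hw hw'
      exact hG _ _ hw.1 hw'.2
    rw [← Finset.card_union_of_disjoint hd, ← Finset.card_erase_of_mem hv]
    apply Finset.card_le_card
    intro w hw
    simp only [Finset.mem_union, Finset.mem_inter, mem_N, Finset.mem_filter] at hw
    rw [Finset.mem_erase]
    rcases hw with ⟨h, h'⟩ | ⟨h, h'⟩
    · exact ⟨fun e => by subst e; exact hG _ _ h h, h'⟩
    · exact ⟨fun e => by subst e; exact hG _ _ h' h', h⟩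
  calc 2 * ∑ v ∈ S, (N G v ∩ S).card
      = ∑ v ∈ S, ((N G v ∩ S).card + (S.filter fun w => G.Adj w v).card) := by
        rw [Finset.sum_add_distrib, ← h1]; ring
    _ ≤ ∑ v ∈ S, (S.card - 1) := Finset.sum_le_sum h2
    _ = S.card * S.card - S.card := by
        rw [Finset.sum_const, smul_eq_mul, Nat.mul_sub_one]

/-- arcs between two sets: each pair is used in at most one direction -/
theorem sum_between (hG : Oriented G) (S T : Finset V) :
    ∑ v ∈ S, (N G v ∩ T).card + ∑ w ∈ T, (N G w ∩ S).card ≤ S.card * T.card := by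
  have e1 : ∀ v, (N G v ∩ T).card = ∑ w ∈ T, if G.Adj v w then 1 else 0 := by
    intro v
    rw [Finset.sum_boole, Nat.cast_id]
    congr 1
    ext w
    simp only [Finset.mem_inter, mem_N, Finset.mem_filter]
    tauto
  have e2 : ∀ w, (N G w ∩ S).card = ∑ v ∈ S, if G.Adj w v then 1 else 0 := by
    intro w
    rw [Finset.sum_boole, Nat.cast_id]
    congr 1
    ext v
    simp only [Finset.mem_inter, mem_N, Finset.mem_filter]
    tauto
  simp only [e1, e2]
  rw [Finset.sum_comm (s := T) (t := S), ← Finset.sum_add_distrib]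
  calc ∑ v ∈ S, (∑ w ∈ T, (if G.Adj v w then 1 else 0) + ∑ w ∈ T, if G.Adj w v then 1 else 0)
      ≤ ∑ v ∈ S, T.card := by
        apply Finset.sum_le_sum
        intro v _
        rw [← Finset.sum_add_distrib, Finset.card_eq_sum_ones]
        apply Finset.sum_le_sum
        intro w _
        by_cases h : G.Adj v w
        · have := hG _ _ h
          simp [h, this]
        · by_cases h' : G.Adj w v <;> simp [h, h']
    _ = S.card * T.card := by rw [Finset.sum_const, smul_eq_mul]

/-- `N2in` relative to a smaller set is contained in `N2in` of the larger one. -/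
theorem N2in_mono {A C : Finset V} (h : A ⊆ C) (v : V) : N2in G A v ⊆ N2in G C v := by
  intro w hw
  simp only [N2in, Finset.mem_filter] at hw ⊢
  obtain ⟨h1, h2, h3, u, hu, h4⟩ := hw
  exact ⟨h h1, h2, h3, u, h hu, h4⟩

theorem real_main (γ a d b z s1 s2 s3 s4 s5 : ℝ) (r1 : 2 * s1 ≤ a * a - a)
    (r2 : 2 * s5 ≤ d * d) (r3 : a * a ≤ s1 + s2) (r4 : s2 ≤ s3 + a * (b - d))
    (r5 : s3 + s4 ≤ a * d) (r6 : a * d ≤ s4 + s5 + d * z) (hDZ : d * z < d * (γ * d))
    (hAB : a * b < a * (γ * a)) (ha : 1 ≤ a) :
    a * d < (γ - 1 / 2) * (a * a) + (1 / 2 + γ) * (d * d) := by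
  nlinarith

theorem real_key (γ a d : ℝ) (hγ0 : 0 < γ) (hhalf : 1 / 2 < γ) (hγ : 2 * γ ^ 3 + γ ^ 2 = 1)
    (hDlt : d < γ * a) (hDlow : γ * a ≤ (1 + γ) * d) (ha : 1 ≤ a)
    (main : a * d < (γ - 1 / 2) * (a * a) + (1 / 2 + γ) * (d * d)) : False := by
  have hd1 : 0 ≤ γ * a - d := by linarith
  have h4 : 0 ≤ 4 * γ ^ 2 - 1 := by nlinarith
  have h5 : (1 + γ) * ((1 / 2 + γ) * (d + γ * a) - a) ≥
      (1 / 2 + γ) * (γ * a + (1 + γ) * γ * a) - (1 + γ) * a := by
    have h51 := mul_le_mul_of_nonneg_left hDlow (by linarith : (0 : ℝ) ≤ 1 / 2 + γ)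
    linarith
  have h6 : (1 / 2 + γ) * (γ * a + (1 + γ) * γ * a) - (1 + γ) * a =
      a * (4 * γ ^ 2 - 1) / 2 + a * (2 * γ ^ 3 + γ ^ 2 - 1) / 2 := by
    ring
  have h7 : 0 ≤ a * (4 * γ ^ 2 - 1) / 2 := by positivity
  have h7' : a * (2 * γ ^ 3 + γ ^ 2 - 1) / 2 = 0 := by
    rw [hγ]; ring
  have h8 : 0 ≤ (1 + γ) * ((1 / 2 + γ) * (d + γ * a) - a) := by linarith
  have hd2 : 0 ≤ (1 / 2 + γ) * (d + γ * a) - a :=
    nonneg_of_mul_nonneg_right h8 (by linarith)
  have h9 := mul_nonneg hd1 hd2
  have h10 : (γ * a - d) * ((1 / 2 + γ) * (d + γ * a) - a) =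
      a * d - (γ - 1 / 2) * (a * a) - (1 / 2 + γ) * (d * d) +
        a * a * (2 * γ ^ 3 + γ ^ 2 - 1) / 2 := by ring
  have h11 : a * a * (2 * γ ^ 3 + γ ^ 2 - 1) / 2 = 0 := by rw [hγ]; ring
  rw [h10, h11, add_zero] at h9
  linarith

/-- **Chen, Shen and Yuster** in all induced subgraphs. -/
theorem csy (hG : Oriented G) (γ : ℝ) (hγ0 : 0 < γ) (hγ : 2 * γ ^ 3 + γ ^ 2 = 1) :
    ∀ C : Finset V, C.Nonempty →
      ∃ f ∈ C, γ * ((N G f ∩ C).card : ℝ) ≤ ((N2in G C f).card : ℝ) := by
  have hhalf : 1 / 2 < γ := by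
    by_contra hcon
    push Not at hcon
    nlinarith [pow_pos hγ0 2, pow_pos hγ0 3, mul_nonneg hγ0.le (sub_nonneg.2 hcon),
      mul_nonneg (pow_pos hγ0 2).le (sub_nonneg.2 hcon)]
  intro C
  induction C using Finset.strongInduction with
  | H C ih =>
    intro hC
    by_contra hno
    push Not at hno
    obtain ⟨u, huC, humin⟩ := Finset.exists_min_image C (fun v => (N G v ∩ C).card) hC
    set A := N G u ∩ C with hA
    set B := N2in G C u with hB
    have hAC : A ⊆ C := Finset.inter_subset_right
    have hBlt := hno u huC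
    rw [← hA, ← hB] at hBlt
    have hApos : A.Nonempty := by
      rw [← Finset.card_pos]
      by_contra h0
      have : A.card = 0 := by omega
      rw [this] at hBlt
      simp only [Nat.cast_zero, mul_zero] at hBlt
      exact absurd hBlt (not_lt.2 (Nat.cast_nonneg _))
    have hAss : A ⊂ C := by
      refine ⟨hAC, fun h => ?_⟩
      have := h huC
      rw [hA, Finset.mem_inter, mem_N] at this
      exact hG _ _ this.1 this.1
    obtain ⟨x, hxA, hx⟩ := ih A hAss hApos
    have hxC := hAC hxA
    have hux : G.Adj u x := by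
      rw [hA, Finset.mem_inter, mem_N] at hxA
      exact hxA.1
    set X := N G x ∩ A with hX
    set Y := N2in G A x with hY
    set D := (N G x ∩ C) \ A with hD
    set Z := N2in G C x \ A with hZ
    -- out-neighbours of members of A
    have hAB : ∀ v ∈ A, N G v ∩ C ⊆ A ∪ B := by
      intro v hv w hw
      rw [Finset.mem_union]
      by_cases hwA : w ∈ A
      · exact Or.inl hwA
      · right
        rw [Finset.mem_inter, mem_N] at hw
        rw [hA, Finset.mem_inter, mem_N] at hv
        rw [hB, N2in, Finset.mem_filter]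
        refine ⟨hw.2, ?_, fun h => hwA (by rw [hA, Finset.mem_inter, mem_N]; exact ⟨h, hw.2⟩),
          v, hv.2, hv.1, hw.1⟩
        rintro rfl
        exact hG _ _ hv.1 hw.1
    have hABd : Disjoint A B := by
      rw [Finset.disjoint_left]
      intro w hw hw'
      rw [hA, Finset.mem_inter, mem_N] at hw
      rw [hB, N2in, Finset.mem_filter] at hw'
      exact hw'.2.2.1 hw.1
    have hDB : D ⊆ B := by
      intro w hw
      rw [hD, Finset.mem_sdiff] at hw
      have := hAB x hxA hw.1
      rw [Finset.mem_union] at this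
      rcases this with h | h
      · exact absurd h hw.2
      · exact h
    -- degrees
    have hdegx : A.card ≤ X.card + D.card := by
      have h1 := humin x hxC
      have h2 : (N G x ∩ C).card = X.card + D.card := by
        rw [hX, hD, ← Finset.card_inter_add_card_sdiff (N G x ∩ C) A]
        congr 2
        ext w
        simp only [Finset.mem_inter]
        constructor
        · rintro ⟨⟨h1, _⟩, h2⟩; exact ⟨h1, h2⟩
        · rintro ⟨h1, h2⟩; exact ⟨⟨h1, hAC h2⟩, h2⟩
      omega
    have hdegx' : (N G x ∩ C).card = X.card + D.card := by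
      rw [hX, hD, ← Finset.card_inter_add_card_sdiff (N G x ∩ C) A]
      congr 2
      ext w
      simp only [Finset.mem_inter]
      constructor
      · rintro ⟨⟨h1, _⟩, h2⟩; exact ⟨h1, h2⟩
      · rintro ⟨h1, h2⟩; exact ⟨⟨h1, hAC h2⟩, h2⟩
    have hxlt := hno x hxC
    rw [hdegx'] at hxlt
    have hYZ : Y.card + Z.card ≤ (N2in G C x).card := by
      rw [hZ, ← Finset.card_union_of_disjoint]
      · apply Finset.card_le_card
        intro w hw
        rw [Finset.mem_union] at hw
        rcases hw with h | h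
        · exact N2in_mono G hAC x h
        · exact (Finset.mem_sdiff.1 h).1
      · rw [Finset.disjoint_left]
        intro w hw hw'
        rw [hY, N2in, Finset.mem_filter] at hw
        exact (Finset.mem_sdiff.1 hw').2 hw.1
    have hZlt : (Z.card : ℝ) < γ * D.card := by
      have h1 : ((Y.card + Z.card : ℕ) : ℝ) ≤ ((N2in G C x).card : ℝ) := by exact_mod_cast hYZ
      push_cast at h1 hxlt
      nlinarith [hx, hxlt]
    -- X and Y are disjoint in A minus x
    have hXY : X.card + Y.card + 1 ≤ A.card := by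
      have hd : Disjoint X Y := by
        rw [Finset.disjoint_left]
        intro w hw hw'
        rw [hX, Finset.mem_inter, mem_N] at hw
        rw [hY, N2in, Finset.mem_filter] at hw'
        exact hw'.2.2.1 hw.1
      have hsub : X ∪ Y ⊆ A.erase x := by
        intro w hw
        rw [Finset.mem_union] at hw
        rw [Finset.mem_erase]
        rcases hw with h | h
        · rw [hX, Finset.mem_inter, mem_N] at h
          exact ⟨fun e => by subst e; exact hG _ _ h.1 h.1, h.2⟩
        · rw [hY, N2in, Finset.mem_filter] at h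
          exact ⟨h.2.1, h.1⟩
      have := Finset.card_le_card hsub
      rw [Finset.card_union_of_disjoint hd, Finset.card_erase_of_mem hxA] at this
      have : 0 < A.card := Finset.card_pos.2 hApos
      omega
    -- arcs from A to B
    have hsumAB : A.card * A.card ≤ ∑ v ∈ A, (N G v ∩ A).card + ∑ v ∈ A, (N G v ∩ B).card := by
      rw [← Finset.sum_add_distrib, ← smul_eq_mul, ← Finset.sum_const]
      apply Finset.sum_le_sum
      intro v hv
      have h1 := humin v (hAC hv)
      refine h1.trans ?_
      rw [← Finset.card_union_of_disjoint]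
      · apply Finset.card_le_card
        intro w hw
        have := hAB v hv hw
        simp only [Finset.mem_union, Finset.mem_inter] at this hw ⊢
        tauto
      · exact hABd.mono Finset.inter_subset_right Finset.inter_subset_right
    have hAin := sum_inside G hG A
    -- arcs from A to D
    have hsumAD : ∑ v ∈ A, (N G v ∩ B).card ≤ ∑ v ∈ A, (N G v ∩ D).card +
        A.card * (B.card - D.card) := by
      rw [← smul_eq_mul A.card, ← Finset.sum_const, ← Finset.sum_add_distrib]
      apply Finset.sum_le_sum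
      intro v _
      have : N G v ∩ B ⊆ (N G v ∩ D) ∪ (B \ D) := by
        intro w hw
        simp only [Finset.mem_union, Finset.mem_inter, Finset.mem_sdiff] at hw ⊢
        tauto
      refine (Finset.card_le_card this).trans ((Finset.card_union_le _ _).trans ?_)
      rw [Finset.card_sdiff_of_subset hDB]
    have hbetw := sum_between G hG A D
    -- degrees of members of D
    have hsumD : A.card * D.card ≤ ∑ y ∈ D, (N G y ∩ A).card + ∑ y ∈ D, (N G y ∩ D).card +
        D.card * Z.card := by
      rw [mul_comm A.card, ← smul_eq_mul D.card, ← smul_eq_mul D.card, ← Finset.sum_const,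
        ← Finset.sum_const, ← Finset.sum_add_distrib, ← Finset.sum_add_distrib]
      apply Finset.sum_le_sum
      intro y hy
      have hyB := hDB hy
      have hyC : y ∈ C := by
        rw [hD, Finset.mem_sdiff, Finset.mem_inter] at hy
        exact hy.1.2
      have hxy : G.Adj x y := by
        rw [hD, Finset.mem_sdiff, Finset.mem_inter, mem_N] at hy
        exact hy.1.1
      have h1 := humin y hyC
      refine h1.trans ?_
      have hsub : N G y ∩ C ⊆ (N G y ∩ A) ∪ (N G y ∩ D) ∪ Z := by
        intro w hw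
        rw [Finset.mem_inter, mem_N] at hw
        simp only [Finset.mem_union, Finset.mem_inter, mem_N]
        by_cases hwA : w ∈ A
        · exact Or.inl (Or.inl ⟨hw.1, hwA⟩)
        by_cases hxw : G.Adj x w
        · left; right
          refine ⟨hw.1, ?_⟩
          rw [hD, Finset.mem_sdiff, Finset.mem_inter, mem_N]
          exact ⟨⟨hxw, hw.2⟩, hwA⟩
        · right
          rw [hZ, Finset.mem_sdiff, N2in, Finset.mem_filter]
          refine ⟨⟨hw.2, ?_, hxw, y, hyC, hxy, hw.1⟩, hwA⟩
          rintro rfl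
          exact hG _ _ hxy hw.1
      refine (Finset.card_le_card hsub).trans ((Finset.card_union_le _ _).trans ?_)
      have := Finset.card_union_le (N G y ∩ A) (N G y ∩ D)
      omega
    have hDin := sum_inside G hG D
    have hDBc := Finset.card_le_card hDB
    -- pass to the reals
    have hAc : 1 ≤ A.card := Finset.card_pos.2 hApos
    have hmulA : A.card ≤ A.card * A.card := by nlinarith
    have r1 : 2 * ((∑ v ∈ A, (N G v ∩ A).card : ℕ) : ℝ) ≤ (A.card : ℝ) * A.card - A.card := by
      have : 2 * ∑ v ∈ A, (N G v ∩ A).card + A.card ≤ A.card * A.card := by omega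
      have h : ((2 * ∑ v ∈ A, (N G v ∩ A).card + A.card : ℕ) : ℝ) ≤
          ((A.card * A.card : ℕ) : ℝ) := by exact_mod_cast this
      push_cast at h ⊢
      linarith
    have r2 : 2 * ((∑ v ∈ D, (N G v ∩ D).card : ℕ) : ℝ) ≤ (D.card : ℝ) * D.card := by
      have : 2 * ∑ v ∈ D, (N G v ∩ D).card ≤ D.card * D.card := by omega
      have h : ((2 * ∑ v ∈ D, (N G v ∩ D).card : ℕ) : ℝ) ≤
          ((D.card * D.card : ℕ) : ℝ) := by exact_mod_cast this
      push_cast at h ⊢
      linarith
    have r3 : (A.card : ℝ) * A.card ≤ ((∑ v ∈ A, (N G v ∩ A).card : ℕ) : ℝ) +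
        ((∑ v ∈ A, (N G v ∩ B).card : ℕ) : ℝ) := by exact_mod_cast hsumAB
    have r4 : ((∑ v ∈ A, (N G v ∩ B).card : ℕ) : ℝ) ≤
        ((∑ v ∈ A, (N G v ∩ D).card : ℕ) : ℝ) + (A.card : ℝ) * ((B.card : ℝ) - D.card) := by
      have h : ((∑ v ∈ A, (N G v ∩ B).card : ℕ) : ℝ) ≤
        ((∑ v ∈ A, (N G v ∩ D).card + A.card * (B.card - D.card) : ℕ) : ℝ) := by
        exact_mod_cast hsumAD
      rw [Nat.cast_add, Nat.cast_mul, Nat.cast_sub hDBc] at h
      exact h
    have r5 : ((∑ v ∈ A, (N G v ∩ D).card : ℕ) : ℝ) + ((∑ y ∈ D, (N G y ∩ A).card : ℕ) : ℝ) ≤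
        (A.card : ℝ) * D.card := by exact_mod_cast hbetw
    have r6 : (A.card : ℝ) * D.card ≤ ((∑ y ∈ D, (N G y ∩ A).card : ℕ) : ℝ) +
        ((∑ y ∈ D, (N G y ∩ D).card : ℕ) : ℝ) + (D.card : ℝ) * Z.card := by exact_mod_cast hsumD
    have hDpos : (0 : ℝ) < D.card := by
      have : (0 : ℝ) ≤ Z.card := Nat.cast_nonneg _
      by_contra hcon
      have h0 : (D.card : ℝ) = 0 := le_antisymm (not_lt.1 hcon) (Nat.cast_nonneg _)
      rw [h0, mul_zero] at hZlt
      linarith
    have hApos' : (1 : ℝ) ≤ A.card := by exact_mod_cast hAc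
    have r7 : (A.card : ℝ) ≤ X.card + D.card := by exact_mod_cast hdegx
    have r8 : (X.card : ℝ) + Y.card + 1 ≤ A.card := by exact_mod_cast hXY
    have hDlt : (D.card : ℝ) < γ * A.card :=
      lt_of_le_of_lt (by exact_mod_cast hDBc) hBlt
    -- lower bound for |D|
    have hDlow : γ * A.card ≤ (1 + γ) * D.card := by nlinarith [hx]
    have hDZ : (D.card : ℝ) * Z.card < D.card * (γ * D.card) :=
      mul_lt_mul_of_pos_left hZlt hDpos
    have hABlt : (A.card : ℝ) * B.card < A.card * (γ * A.card) :=
      mul_lt_mul_of_pos_left hBlt (by linarith)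
    -- the key inequality
    have main := real_main γ A.card D.card B.card Z.card _ _ _ _ _ r1 r2 r3 r4 r5 r6 hDZ hABlt
      hApos'
    exact real_key γ A.card D.card hγ0 hhalf hγ hDlt hDlow hApos' main

/-- **Local principle with a factor.** -/
theorem local_factor (hG : Oriented G) (γ : ℝ) (hγ0 : 0 < γ) (x : V)
    (h : ∀ C : Finset V, x ∈ C →
      ∃ f ∈ C, γ * ((N G f ∩ C).card : ℝ) ≤ ((N2in G C f).card : ℝ)) :
    ∃ g : V, ∃ m : ℕ, WithinDist G m x g ∧ γ * ((N G g).card : ℝ) ≤ ((N2 G g).card : ℝ) ∧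
      (m = 0 ∨ 1 ≤ γ ^ (m - 1) * ((N G x).card : ℝ)) := by
  have key : ∀ n : ℕ, ∀ C : Finset V, (Finset.univ \ C).card = n → x ∈ C →
      (∀ v ∈ C, ∃ m, WithinDist G m x v ∧
        ((N G v \ C).card : ℝ) ≤ γ ^ m * ((N G x).card : ℝ) ∧
        (m = 0 ∨ 1 ≤ γ ^ (m - 1) * ((N G x).card : ℝ))) →
      ∃ g : V, ∃ m : ℕ, WithinDist G m x g ∧ γ * ((N G g).card : ℝ) ≤ ((N2 G g).card : ℝ) ∧
        (m = 0 ∨ 1 ≤ γ ^ (m - 1) * ((N G x).card : ℝ)) := by
    intro n
    induction n using Nat.strong_induction_on with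
    | _ n ih =>
      intro C hn hx hinv
      obtain ⟨f, hfC, hf⟩ := h C hx
      obtain ⟨m, hm, hmle, hm1⟩ := hinv f hfC
      by_cases hS : γ * ((N G f).card : ℝ) ≤ ((N2 G f).card : ℝ)
      · exact ⟨f, m, hm, hS, hm1⟩
      have hlt : ((N2 G f \ C).card : ℝ) < γ * ((N G f \ C).card : ℝ) := by
        push Not at hS
        have h1 := Finset.card_inter_add_card_sdiff (N G f) C
        have h2 := Finset.card_inter_add_card_sdiff (N2 G f) C
        have h3 := Finset.card_le_card (N2in_subset G C f)
        have h1' : (((N G f ∩ C).card : ℝ) + ((N G f \ C).card : ℝ)) = ((N G f).card : ℝ) := by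
          exact_mod_cast h1
        have h2' : (((N2 G f ∩ C).card : ℝ) + ((N2 G f \ C).card : ℝ)) = ((N2 G f).card : ℝ) := by
          exact_mod_cast h2
        have h3' : ((N2in G C f).card : ℝ) ≤ ((N2 G f ∩ C).card : ℝ) := by exact_mod_cast h3
        rw [← h1', ← h2'] at hS
        nlinarith
      have hpos : (0 : ℝ) < ((N G f \ C).card : ℝ) := by
        have h0 : (0 : ℝ) ≤ ((N2 G f \ C).card : ℝ) := Nat.cast_nonneg _
        by_contra hcon
        have h1 : ((N G f \ C).card : ℝ) = 0 := le_antisymm (not_lt.1 hcon) (Nat.cast_nonneg _)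
        rw [h1, mul_zero] at hlt
        linarith
      have hone : (1 : ℝ) ≤ ((N G f \ C).card : ℝ) := by
        have : 0 < (N G f \ C).card := by exact_mod_cast hpos
        exact_mod_cast this
      have hne : (N G f \ C).Nonempty := by
        rw [← Finset.card_pos]
        exact_mod_cast hpos
      refine ih (Finset.univ \ (C ∪ N G f)).card ?_ (C ∪ N G f) rfl
        (Finset.mem_union_left _ hx) ?_
      · rw [← hn]
        apply Finset.card_lt_card
        rw [Finset.ssubset_iff_subset_ne]
        refine ⟨Finset.sdiff_subset_sdiff le_rfl Finset.subset_union_left, ?_⟩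
        intro heq
        obtain ⟨w, hw⟩ := hne
        rw [Finset.mem_sdiff] at hw
        have : w ∈ Finset.univ \ C := by simp [hw.2]
        rw [← heq] at this
        simp only [Finset.mem_sdiff, Finset.mem_union, not_or] at this
        exact this.2.2 hw.1
      · intro v hv
        by_cases hvC : v ∈ C
        · obtain ⟨m', hm', hle', hm1'⟩ := hinv v hvC
          refine ⟨m', hm', ?_, hm1'⟩
          refine le_trans ?_ hle'
          exact_mod_cast
            Finset.card_le_card (Finset.sdiff_subset_sdiff le_rfl Finset.subset_union_left)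
        · have hfv : G.Adj f v := by
            rw [Finset.mem_union] at hv
            rcases hv with hv | hv
            · exact absurd hv hvC
            · exact (mem_N G).1 hv
          refine ⟨m + 1, hm.step hfv, ?_, Or.inr ?_⟩
          · have h1 : ((N G v \ (C ∪ N G f)).card : ℝ) ≤ ((N2 G f \ C).card : ℝ) := by
              exact_mod_cast Finset.card_le_card (step_subset G hG (C := C) hfv)
            rw [pow_succ]
            nlinarith
          · rw [Nat.add_sub_cancel]
            linarith
  refine key _ {x} rfl (Finset.mem_singleton_self x) ?_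
  intro v hv
  rw [Finset.mem_singleton] at hv
  subst hv
  refine ⟨0, withinDist_refl G v, ?_, Or.inl rfl⟩
  rw [pow_zero, one_mul]
  exact_mod_cast Finset.card_le_card (Finset.sdiff_subset (s := N G v) (t := {v}))

end Pool.Agent.H39.Burckel
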