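import Mathlib
import Pool.Agent.H39.BurckelCSY

set_option autoImplicit false

namespace Pool.Agent.H39.Burckel

open Classical

variable {V : Type} [Fintype V] (G : Digraph V)

/-- out-neighbours of an out-neighbour of `v` are first or second out-neighbours of `v` -/
theorem N_subset (hG : Oriented G) {v y : V} (h : G.Adj v y) : N G y ⊆ N G v ∪ N2 G v := by
  intro w hw
  rw [mem_N] at hw
  rw [Finset.mem_union, mem_N, mem_N2]
  by_cases hvw : G.Adj v w
  · exact Or.inl hvw
  · refine Or.inr ⟨?_, hvw, y, h, hw⟩
    rintro rfl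
    exact hG _ _ h hw

theorem N_disj (v : V) : Disjoint (N G v) (N2 G v) := by
  rw [Finset.disjoint_left]
  intro w h1 h2
  rw [mem_N] at h1
  rw [mem_N2] at h2
  exact h2.2.1 h1

/-- degree sum over `D = N u ∩ M` -/
theorem sum_deg (hG : Oriented G) (x u : V) (δ : ℕ) (hmin : ∀ v, δ ≤ (N G v).card)
    (hux : G.Adj x u) :
    (N G u ∩ N2 G x).card * δ ≤ ∑ y ∈ N G u ∩ N2 G x, (N G y ∩ N G x).card +
      ∑ y ∈ N G u ∩ N2 G x, (N G y ∩ (N G u ∩ N2 G x)).card +
      (N G u ∩ N2 G x).card * (N2 G u \ N G x).card := by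
  rw [← smul_eq_mul (N G u ∩ N2 G x).card, ← smul_eq_mul (N G u ∩ N2 G x).card,
    ← Finset.sum_const, ← Finset.sum_const, ← Finset.sum_add_distrib, ← Finset.sum_add_distrib]
  apply Finset.sum_le_sum
  intro y hy
  rw [Finset.mem_inter, mem_N] at hy
  refine (hmin y).trans ?_
  have hsub : N G y ⊆ (N G y ∩ N G x) ∪ (N G y ∩ (N G u ∩ N2 G x)) ∪ (N2 G u \ N G x) := by
    intro w hw
    have h1 := N_subset G hG hy.1 hw
    rw [Finset.mem_union] at h1
    simp only [Finset.mem_union, Finset.mem_inter, Finset.mem_sdiff]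
    by_cases hwN : w ∈ N G x
    · exact Or.inl (Or.inl ⟨hw, hwN⟩)
    · rcases h1 with h1 | h1
      · have h2 := N_subset G hG hux h1
        rw [Finset.mem_union] at h2
        rcases h2 with h2 | h2
        · exact absurd h2 hwN
        · exact Or.inl (Or.inr ⟨hw, h1, h2⟩)
      · exact Or.inr ⟨h1, hwN⟩
  refine (Finset.card_le_card hsub).trans ((Finset.card_union_le _ _).trans ?_)
  have := Finset.card_union_le (N G y ∩ N G x) (N G y ∩ (N G u ∩ N2 G x))
  omega

/-- No oriented graph all of whose vertices are bad has minimum out-degree at most five. -/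
theorem no_bad_five (hG : Oriented G) (hbad : ∀ v, (N2 G v).card < (N G v).card) (x : V)
    (hmin : ∀ v, (N G x).card ≤ (N G v).card) (h5 : (N G x).card ≤ 5) : False := by
  set S := N G x with hS
  set M := N2 G x with hM
  have hMlt : M.card < S.card := hbad x
  have hdisj : Disjoint S M := N_disj G x
  -- degrees of members of S
  have hsplit : ∀ v ∈ S, (N G v).card = (N G v ∩ S).card + (N G v ∩ M).card := by
    intro v hv
    rw [← Finset.card_union_of_disjoint (hdisj.mono Finset.inter_subset_right
      Finset.inter_subset_right), ← Finset.inter_union_distrib_left]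
    congr 1
    rw [Finset.inter_eq_left.2]
    exact N_subset G hG ((mem_N G).1 (hS ▸ hv))
  have hDle : ∀ v, (N G v ∩ M).card ≤ M.card := fun v => Finset.card_le_card
    Finset.inter_subset_right
  have ha1 : ∀ v ∈ S, 1 ≤ (N G v ∩ S).card := by
    intro v hv
    have h1 := hsplit v hv
    have h2 := hmin v
    have h3 := hDle v
    omega
  have hin := sum_inside G hG S
  -- lower bound for the number of arcs from S to M
  have hSM : S.card * S.card ≤ ∑ v ∈ S, (N G v ∩ S).card + ∑ v ∈ S, (N G v ∩ M).card := by
    rw [← Finset.sum_add_distrib, ← smul_eq_mul, ← Finset.sum_const]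
    apply Finset.sum_le_sum
    intro v hv
    have h1 := hsplit v hv
    have h2 := hmin v
    omega
  have hbt := sum_between G hG S M
  have hMin := sum_inside G hG M
  have hge1 : S.card ≤ ∑ v ∈ S, (N G v ∩ S).card := by
    rw [Finset.card_eq_sum_ones]
    exact Finset.sum_le_sum ha1
  -- the case of a vertex with one out-neighbour inside
  have caseOne : ∀ u ∈ S, (N G u ∩ S).card = 1 → S.card = 5 ∧
      ∃ u' ∈ S, (N G u' ∩ S).card = 1 ∧ N G u ∩ S = {u'} ∧
        (∀ y ∈ M, ∀ v ∈ S, G.Adj y v → v ∈ ({u'} : Finset V) ∪ (N G u' ∩ S)) ∧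
        (∀ y ∈ M, G.Adj u y) := by
    intro u hu ha
    have hxu : G.Adj x u := (mem_N G).1 (hS ▸ hu)
    have h1 := hsplit u hu
    have h2 := hmin u
    have h3 := hDle u
    have hDM : N G u ∩ M = M := Finset.eq_of_subset_of_card_le Finset.inter_subset_right (by omega)
    have hMcard : M.card + 1 = S.card := by rw [hDM] at h1; omega
    obtain ⟨u', hu'⟩ := Finset.card_eq_one.1 ha
    have hu'S : u' ∈ S := by
      have : u' ∈ N G u ∩ S := by rw [hu']; exact Finset.mem_singleton_self _
      exact (Finset.mem_inter.1 this).2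
    have huu' : G.Adj u u' := by
      have : u' ∈ N G u ∩ S := by rw [hu']; exact Finset.mem_singleton_self _
      exact (mem_N G).1 (Finset.mem_inter.1 this).1
    have huM : ∀ y ∈ M, G.Adj u y := by
      intro y hy
      rw [← hDM] at hy
      exact (mem_N G).1 (Finset.mem_inter.1 hy).1
    -- out-neighbours of u' in S are second out-neighbours of u
    have hQ : N G u' ∩ S ⊆ N2 G u ∩ S := by
      intro w hw
      rw [Finset.mem_inter, mem_N] at hw
      rw [Finset.mem_inter, mem_N2]
      refine ⟨⟨?_, ?_, u', huu', hw.1⟩, hw.2⟩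
      · rintro rfl
        exact hG _ _ huu' hw.1
      · intro huw
        have : w ∈ N G u ∩ S := Finset.mem_inter.2 ⟨(mem_N G).2 huw, hw.2⟩
        rw [hu', Finset.mem_singleton] at this
        subst this
        exact hG _ _ hw.1 hw.1
    have hQc := Finset.card_le_card hQ
    have hq1 := ha1 u' hu'S
    have hsum := sum_deg G hG x u S.card hmin hxu
    rw [← hS, ← hM, hDM] at hsum
    have hcs := Finset.card_inter_add_card_sdiff (N2 G u) S
    have hb := hbad u
    have hdu : (N G u).card = S.card := by rw [h1, ha, hDM]; omega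
    rw [hdu] at hb
    set m := ∑ y ∈ M, (N G y ∩ S).card with hm
    set e := ∑ y ∈ M, (N G y ∩ M).card with he
    set sS := ∑ v ∈ S, (N G v ∩ S).card with hsS
    set sM := ∑ v ∈ S, (N G v ∩ M).card with hsM
    have hS5 : S.card = 1 ∨ S.card = 2 ∨ S.card = 3 ∨ S.card = 4 ∨ S.card = 5 := by omega
    have hW : (N2 G u \ S).card ≤ S.card - 1 - (N G u' ∩ S).card := by omega
    rcases hS5 with h | h | h | h | h
    · rw [h] at hin; omega
    · rw [h] at hin; omega
    · exfalso
      have hMc : M.card = 2 := by omega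
      rw [h, hMc] at hsum
      rw [h] at hin hSM hW
      rw [h, hMc] at hbt
      rw [hMc] at hMin
      omega
    · exfalso
      have hMc : M.card = 3 := by omega
      rw [h, hMc] at hsum
      rw [h] at hin hSM hW
      rw [h, hMc] at hbt
      rw [hMc] at hMin
      omega
    · have hMc : M.card = 4 := by omega
      rw [h, hMc] at hsum
      rw [h] at hin hSM hW
      rw [h, hMc] at hbt
      rw [hMc] at hMin
      have hq : (N G u' ∩ S).card = 1 := by omega
      have hqq : (N2 G u ∩ S).card = 1 := by
        have hbu := hb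
        omega
      have hQeq : N G u' ∩ S = N2 G u ∩ S :=
        Finset.eq_of_subset_of_card_le hQ (by omega)
      refine ⟨h, u', hu'S, hq, hu', ?_, huM⟩
      intro y hy v hv hyv
      have hsub := N_subset G hG (huM y hy) ((mem_N G).2 hyv)
      rw [Finset.mem_union] at hsub ⊢
      rcases hsub with h' | h'
      · left
        rw [← hu', Finset.mem_inter]
        exact ⟨h', hv⟩
      · right
        rw [hQeq, Finset.mem_inter]
        exact ⟨h', hv⟩
  by_cases hone : ∃ u ∈ S, (N G u ∩ S).card = 1
  · obtain ⟨u, hu, hau⟩ := hone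
    obtain ⟨h5', u', hu', hau', hNu, hto, huM⟩ := caseOne u hu hau
    obtain ⟨_, u2, hu2, hau2, hNu', _, hu'M⟩ := caseOne u' hu' hau'
    obtain ⟨_, _, _, _, _, _, hu2M⟩ := caseOne u2 hu2 hau2
    -- no arcs from M to S
    have hm0 : ∑ y ∈ M, (N G y ∩ S).card = 0 := by
      apply Finset.sum_eq_zero
      intro y hy
      rw [Finset.card_eq_zero, Finset.eq_empty_iff_forall_notMem]
      intro v hv
      rw [Finset.mem_inter, mem_N] at hv
      have := hto y hy v hv.2 hv.1
      rw [Finset.mem_union, Finset.mem_singleton, hNu', Finset.mem_singleton] at this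
      rcases this with rfl | rfl
      · exact hG _ _ (hu'M y hy) hv.1
      · exact hG _ _ (hu2M y hy) hv.1
    have hxu : G.Adj x u := (mem_N G).1 (hS ▸ hu)
    have hDM : N G u ∩ M = M := by
      rw [Finset.inter_eq_right]
      intro y hy
      exact (mem_N G).2 (huM y hy)
    have h1 := hsplit u hu
    have h2 := hmin u
    rw [hDM] at h1
    have hMc : M.card = 4 := by omega
    have hsum := sum_deg G hG x u S.card hmin hxu
    rw [← hS, ← hM, hDM, hm0, h5', hMc] at hsum
    have hcs := Finset.card_inter_add_card_sdiff (N2 G u) S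
    have hb := hbad u
    rw [hMc] at hMin
    have hQ : 1 ≤ (N2 G u ∩ S).card := by
      rw [Nat.one_le_iff_ne_zero, ← Nat.pos_iff_ne_zero, Finset.card_pos]
      obtain ⟨w, hw⟩ := Finset.card_pos.1 (by rw [hau']; norm_num : 0 < (N G u' ∩ S).card)
      refine ⟨w, ?_⟩
      rw [Finset.mem_inter, mem_N] at hw
      have huu' : G.Adj u u' := by
        have : u' ∈ N G u ∩ S := by rw [hNu]; exact Finset.mem_singleton_self _
        exact (mem_N G).1 (Finset.mem_inter.1 this).1
      rw [Finset.mem_inter, mem_N2]
      refine ⟨⟨?_, ?_, u', huu', hw.1⟩, hw.2⟩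
      · rintro rfl
        exact hG _ _ huu' hw.1
      · intro huw
        have : w ∈ N G u ∩ S := Finset.mem_inter.2 ⟨(mem_N G).2 huw, hw.2⟩
        rw [hNu, Finset.mem_singleton] at this
        subst this
        exact hG _ _ hw.1 hw.1
    omega
  · push Not at hone
    have ha2 : ∀ v ∈ S, 2 ≤ (N G v ∩ S).card := by
      intro v hv
      have := ha1 v hv
      have := hone v hv
      omega
    have hge2 : S.card * 2 ≤ ∑ v ∈ S, (N G v ∩ S).card := by
      rw [← smul_eq_mul, ← Finset.sum_const]
      exact Finset.sum_le_sum ha2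
    have hS5 : S.card = 1 ∨ S.card = 2 ∨ S.card = 3 ∨ S.card = 4 ∨ S.card = 5 := by omega
    have hSc : S.card = 5 := by
      rcases hS5 with h | h | h | h | h
      · rw [h] at hin hge2; omega
      · rw [h] at hin hge2; omega
      · rw [h] at hin hge2; omega
      · rw [h] at hin hge2; omega
      · exact h
    rw [hSc] at hin hge2 hSM
    have hsumS : ∑ v ∈ S, (N G v ∩ S).card = 10 := by omega
    have hall2 : ∀ v ∈ S, (N G v ∩ S).card = 2 := by
      intro v hv
      by_contra hne
      have h3 : 3 ≤ (N G v ∩ S).card := by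
        have := ha2 v hv
        omega
      have : ∑ w ∈ S.erase v, 2 ≤ ∑ w ∈ S.erase v, (N G w ∩ S).card :=
        Finset.sum_le_sum fun w hw => ha2 w (Finset.mem_of_mem_erase hw)
      rw [Finset.sum_const, Finset.card_erase_of_mem hv, hSc, smul_eq_mul] at this
      have h4 := Finset.add_sum_erase S (fun w => (N G w ∩ S).card) hv
      beta_reduce at h4
      omega
    -- a second out-neighbourhood inside S of size at least two
    have hQ2 : ∀ u ∈ S, 2 ≤ (N2 G u ∩ S).card := by
      intro u hu
      obtain ⟨u1, u2, hne, hNu⟩ := Finset.card_eq_two.1 (hall2 u hu)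
      have key : ∀ p r : V, p ≠ r → N G u ∩ S = {p, r} → ¬ G.Adj p r →
          2 ≤ (N2 G u ∩ S).card := by
        intro p r hpr hN hnp
        have hpm : p ∈ N G u ∩ S := by rw [hN]; simp
        rw [Finset.mem_inter, mem_N] at hpm
        rw [← hall2 p hpm.2]
        apply Finset.card_le_card
        intro w hw
        rw [Finset.mem_inter, mem_N] at hw
        rw [Finset.mem_inter, mem_N2]
        refine ⟨⟨?_, ?_, p, hpm.1, hw.1⟩, hw.2⟩
        · rintro rfl
          exact hG _ _ hpm.1 hw.1
        · intro huw
          have : w ∈ N G u ∩ S := Finset.mem_inter.2 ⟨(mem_N G).2 huw, hw.2⟩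
          rw [hN, Finset.mem_insert, Finset.mem_singleton] at this
          rcases this with rfl | rfl
          · exact hG _ _ hw.1 hw.1
          · exact hnp hw.1
      by_cases h12 : G.Adj u1 u2
      · exact key u2 u1 hne.symm (by rw [hNu]; exact Finset.pair_comm _ _) (hG _ _ h12)
      · exact key u1 u2 hne hNu h12
    have hMc4 : M.card ≤ 4 := by omega
    have hD4 : ∀ u ∈ S, (N G u ∩ M).card = 4 := by
      intro u hu
      have hxu : G.Adj x u := (mem_N G).1 (hS ▸ hu)
      have h1 := hsplit u hu
      have h2 := hmin u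
      have h3 := hDle u
      rw [hall2 u hu] at h1
      have hD34 : (N G u ∩ M).card = 3 ∨ (N G u ∩ M).card = 4 := by omega
      rcases hD34 with h | h
      · exfalso
        have hsum := sum_deg G hG x u S.card hmin hxu
        rw [← hS, ← hM, h, hSc] at hsum
        have hDin := sum_inside G hG (N G u ∩ M)
        rw [h] at hDin
        have hcs := Finset.card_inter_add_card_sdiff (N2 G u) S
        have hb := hbad u
        have hq := hQ2 u hu
        have hle : ∑ y ∈ N G u ∩ M, (N G y ∩ S).card ≤ ∑ y ∈ M, (N G y ∩ S).card :=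
          Finset.sum_le_sum_of_subset Finset.inter_subset_right
        have hbt' : S.card * M.card ≤ 20 := by rw [hSc]; omega
        omega
      · exact h
    obtain ⟨u, hu⟩ : S.Nonempty := by rw [← Finset.card_pos]; omega
    have hxu : G.Adj x u := (mem_N G).1 (hS ▸ hu)
    have hMc : M.card = 4 := by
      have := hD4 u hu
      have := hDle u
      omega
    have hsM : ∑ v ∈ S, (N G v ∩ M).card = 20 := by
      rw [Finset.sum_congr rfl hD4, Finset.sum_const, hSc]
      rfl
    rw [hSc, hMc] at hbt
    rw [hMc] at hMin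
    have hDM : N G u ∩ M = M :=
      Finset.eq_of_subset_of_card_le Finset.inter_subset_right (by rw [hD4 u hu]; omega)
    have hsum := sum_deg G hG x u S.card hmin hxu
    rw [← hS, ← hM, hDM, hMc, hSc] at hsum
    have h1 := hsplit u hu
    rw [hall2 u hu, hD4 u hu] at h1
    have hcs := Finset.card_inter_add_card_sdiff (N2 G u) S
    have hb := hbad u
    have hq := hQ2 u hu
    omega

end Pool.Agent.H39.Burckel
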