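import Mathlib
import Pool.Agent.H39.BurckelKL

set_option autoImplicit false

namespace Pool.Agent.H39.Burckel

open Classical

variable {V : Type} [Fintype V] (G : Digraph V)

/-- number of in-neighbours of `v` inside `X` -/
noncomputable def inc (X : Finset V) (v : V) : ℕ := (X.filter fun y => G.Adj y v).card

/-- double counting of the arcs from `X` to `Y` -/
theorem dc (X Y : Finset V) : ∑ y ∈ X, (N G y ∩ Y).card = ∑ v ∈ Y, inc G X v := by
  have e1 : ∀ y, (N G y ∩ Y).card = ∑ v ∈ Y, if G.Adj y v then 1 else 0 := by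
    intro y
    rw [Finset.sum_boole, Nat.cast_id]
    congr 1
    ext w
    simp only [Finset.mem_inter, mem_N, Finset.mem_filter]
    tauto
  have e2 : ∀ v, inc G X v = ∑ y ∈ X, if G.Adj y v then 1 else 0 := by
    intro v
    rw [Finset.sum_boole, Nat.cast_id, inc]
  simp only [e1, e2]
  rw [Finset.sum_comm]

theorem inc_mono {X X' : Finset V} (h : X ⊆ X') (v : V) : inc G X v ≤ inc G X' v :=
  Finset.card_le_card (Finset.filter_subset_filter _ h)

/-- membership in the second out-neighbourhood -/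
theorem mem_N2_of (hG : Oriented G) {v w r : V} (h1 : G.Adj v w) (h2 : G.Adj w r)
    (h3 : ¬ G.Adj v r) : r ∈ N2 G v := by
  rw [mem_N2]
  refine ⟨?_, h3, w, h1, h2⟩
  rintro rfl
  exact hG _ _ h1 h2

/-- In a set where everybody has at least two out-neighbours inside, a vertex with exactly two has
one of them whose out-neighbours inside are all second out-neighbours. -/
theorem last_nb (hG : Oriented G) (X : Finset V) {u : V}
    (hu2 : (N G u ∩ X).card = 2) :
    ∃ u1 u2 : V, u1 ≠ u2 ∧ N G u ∩ X = {u1, u2} ∧ ¬ G.Adj u2 u1 ∧ G.Adj u u2 ∧ G.Adj u u1 ∧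
      u1 ∈ X ∧ u2 ∈ X ∧ N G u2 ∩ X ⊆ N2 G u ∩ X := by
  obtain ⟨p, r, hne, hN⟩ := Finset.card_eq_two.1 hu2
  have key : ∀ p r : V, p ≠ r → N G u ∩ X = {p, r} → ¬ G.Adj r p →
      ∃ u1 u2 : V, u1 ≠ u2 ∧ N G u ∩ X = {u1, u2} ∧ ¬ G.Adj u2 u1 ∧ G.Adj u u2 ∧ G.Adj u u1 ∧
      u1 ∈ X ∧ u2 ∈ X ∧ N G u2 ∩ X ⊆ N2 G u ∩ X := by
    intro p r hpr hN hnp
    have hp : p ∈ N G u ∩ X := by rw [hN]; simp
    have hr : r ∈ N G u ∩ X := by rw [hN]; simp
    rw [Finset.mem_inter, mem_N] at hp hr
    refine ⟨p, r, hpr, hN, hnp, hr.1, hp.1, hp.2, hr.2, ?_⟩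
    intro w hw
    rw [Finset.mem_inter, mem_N] at hw
    rw [Finset.mem_inter]
    refine ⟨mem_N2_of G hG hr.1 hw.1 ?_, hw.2⟩
    intro huw
    have : w ∈ N G u ∩ X := Finset.mem_inter.2 ⟨(mem_N G).2 huw, hw.2⟩
    rw [hN, Finset.mem_insert, Finset.mem_singleton] at this
    rcases this with rfl | rfl
    · exact hnp hw.1
    · exact hG _ _ hw.1 hw.1
  by_cases h : G.Adj r p
  · exact key r p hne.symm (by rw [hN]; exact Finset.pair_comm _ _) (hG _ _ h)
  · exact key p r hne hN h

/-- The local configuration around a vertex of out-degree six in an oriented graph of minimum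
out-degree six without Seymour vertices. -/
structure Cfg (S M : Finset V) : Prop where
  hG : Oriented G
  hbad : ∀ v, (N2 G v).card < (N G v).card
  hdeg : ∀ v, 6 ≤ (N G v).card
  hSM : ∀ v ∈ S, N G v ⊆ S ∪ M
  hdisj : Disjoint S M
  hS : S.card = 6
  hM : M.card ≤ 5

variable {G} {S M : Finset V}

theorem Cfg.split (c : Cfg G S M) {v : V} (hv : v ∈ S) :
    (N G v).card = (N G v ∩ S).card + (N G v ∩ M).card := by
  rw [← Finset.card_union_of_disjoint (c.hdisj.mono Finset.inter_subset_right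
    Finset.inter_subset_right), ← Finset.inter_union_distrib_left]
  congr 1
  rw [Finset.inter_eq_left.2]
  exact c.hSM v hv

theorem Cfg.Dle (c : Cfg G S M) (v : V) : (N G v ∩ M).card ≤ M.card :=
  Finset.card_le_card Finset.inter_subset_right

theorem Cfg.degS (c : Cfg G S M) {v : V} (hv : v ∈ S) :
    6 ≤ (N G v ∩ S).card + (N G v ∩ M).card := by
  rw [← c.split hv]
  exact c.hdeg v

theorem Cfg.bad' (c : Cfg G S M) {v : V} (hv : v ∈ S) :
    (N2 G v ∩ S).card + (N2 G v \ S).card + 1 ≤ (N G v ∩ S).card + (N G v ∩ M).card := by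
  have h1 := c.split hv
  have h2 := c.hbad v
  have h3 := Finset.card_inter_add_card_sdiff (N2 G v) S
  omega

theorem Cfg.tD (c : Cfg G S M) (v : V) : inc G M v + (N G v ∩ M).card ≤ M.card := by
  unfold inc
  rw [← Finset.card_union_of_disjoint]
  · apply Finset.card_le_card
    intro w hw
    rw [Finset.mem_union, Finset.mem_filter, Finset.mem_inter] at hw
    tauto
  · rw [Finset.disjoint_left]
    intro w hw hw'
    rw [Finset.mem_filter] at hw
    rw [Finset.mem_inter, mem_N] at hw'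
    exact c.hG _ _ hw.2 hw'.1

theorem Cfg.sumA (c : Cfg G S M) : ∑ v ∈ S, (N G v ∩ S).card ≤ 15 := by
  have := sum_inside G c.hG S
  rw [c.hS] at this
  omega

/-- the arcs from `M` to `S` -/
theorem Cfg.sumM (c : Cfg G S M) : ∑ v ∈ S, inc G M v ≤ 9 ∧
    ∑ v ∈ S, inc G M v + ∑ v ∈ S, (N G v ∩ M).card ≤ 6 * M.card ∧
    36 ≤ ∑ v ∈ S, (N G v ∩ S).card + ∑ v ∈ S, (N G v ∩ M).card := by
  have h1 : ∑ v ∈ S, inc G M v + ∑ v ∈ S, (N G v ∩ M).card ≤ 6 * M.card := by
    rw [← Finset.sum_add_distrib, ← c.hS, ← smul_eq_mul, ← Finset.sum_const]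
    exact Finset.sum_le_sum fun v _ => c.tD v
  have h2 : 36 ≤ ∑ v ∈ S, (N G v ∩ S).card + ∑ v ∈ S, (N G v ∩ M).card := by
    rw [← Finset.sum_add_distrib]
    have : ∑ v ∈ S, 6 ≤ ∑ v ∈ S, ((N G v ∩ S).card + (N G v ∩ M).card) :=
      Finset.sum_le_sum fun v hv => c.degS hv
    rw [Finset.sum_const, c.hS, smul_eq_mul] at this
    exact this
  have h3 := c.sumA
  have h4 := c.hM
  exact ⟨by omega, h1, h2⟩

/-- degree sum over the out-neighbours of `u` in `M` -/
theorem Cfg.sumD (c : Cfg G S M) {u : V} (hu : u ∈ S) :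
    (N G u ∩ M).card * 6 ≤ ∑ y ∈ N G u ∩ M, (N G y ∩ S).card +
      ∑ y ∈ N G u ∩ M, (N G y ∩ (N G u ∩ M)).card +
      (N G u ∩ M).card * (N2 G u \ S).card := by
  rw [← smul_eq_mul (N G u ∩ M).card, ← smul_eq_mul (N G u ∩ M).card,
    ← Finset.sum_const, ← Finset.sum_const, ← Finset.sum_add_distrib, ← Finset.sum_add_distrib]
  apply Finset.sum_le_sum
  intro y hy
  rw [Finset.mem_inter, mem_N] at hy
  refine (c.hdeg y).trans ?_
  have hsub : N G y ⊆ (N G y ∩ S) ∪ (N G y ∩ (N G u ∩ M)) ∪ (N2 G u \ S) := by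
    intro w hw
    have h1 := N_subset G c.hG hy.1 hw
    rw [Finset.mem_union] at h1
    simp only [Finset.mem_union, Finset.mem_inter, Finset.mem_sdiff]
    by_cases hwN : w ∈ S
    · exact Or.inl (Or.inl ⟨hw, hwN⟩)
    · rcases h1 with h1 | h1
      · have h2 := c.hSM u hu h1
        rw [Finset.mem_union] at h2
        rcases h2 with h2 | h2
        · exact absurd h2 hwN
        · exact Or.inl (Or.inr ⟨hw, h1, h2⟩)
      · exact Or.inr ⟨h1, hwN⟩
  refine (Finset.card_le_card hsub).trans ((Finset.card_union_le _ _).trans ?_)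
  have := Finset.card_union_le (N G y ∩ S) (N G y ∩ (N G u ∩ M))
  omega

/-- full vertices: all of `M` are out-neighbours -/
theorem full_iff {u : V} (hfull : N G u ∩ M = M) {y : V} (hy : y ∈ M) : G.Adj u y := by
  rw [← hfull] at hy
  exact (mem_N G).1 (Finset.mem_inter.1 hy).1

theorem Cfg.full_of_card (c : Cfg G S M) {u : V} (h : M.card ≤ (N G u ∩ M).card) :
    N G u ∩ M = M := Finset.eq_of_subset_of_card_le Finset.inter_subset_right h

/-- the degree sum for a full vertex -/
theorem Cfg.sumFull (c : Cfg G S M) (hM5 : M.card = 5) {u : V} (hu : u ∈ S)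
    (hfull : N G u ∩ M = M) :
    30 ≤ ∑ v ∈ S, inc G M v + 10 + 5 * (N2 G u \ S).card := by
  have h1 := c.sumD hu
  rw [hfull, hM5, dc G M S] at h1
  have h2 := sum_inside G c.hG M
  rw [hM5] at h2
  omega

theorem inc_eq_zero_of_full (c : Cfg G S M) {u : V} (hfull : N G u ∩ M = M) :
    inc G M u = 0 := by
  have := c.tD u
  rw [hfull] at this
  omega

/-- If there is no arc from `M` to `S`, contradiction. -/
theorem Cfg.no_back (c : Cfg G S M) (hM5 : M.card = 5) {u : V} (hu : u ∈ S)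
    (hfull : N G u ∩ M = M) (hW : (N2 G u \ S).card ≤ 4)
    (h0 : ∑ v ∈ S, inc G M v = 0) : False := by
  have hno : ∀ y ∈ M, ∀ v ∈ S, ¬ G.Adj y v := by
    intro y hy v hv hyv
    have h1 := (Finset.sum_eq_zero_iff.1 h0) v hv
    rw [inc, Finset.card_eq_zero, Finset.eq_empty_iff_forall_notMem] at h1
    exact h1 y (Finset.mem_filter.2 ⟨hy, hyv⟩)
  have hsub : ∀ y ∈ M, N G y ⊆ (N G y ∩ M) ∪ (N G y ∩ (N2 G u \ S)) := by
    intro y hy w hw
    have h1 := N_subset G c.hG (full_iff hfull hy) hw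
    have hwS : w ∉ S := fun h => hno y hy w h ((mem_N G).1 hw)
    rw [Finset.mem_union] at h1
    rw [Finset.mem_union, Finset.mem_inter, Finset.mem_inter, Finset.mem_sdiff]
    rcases h1 with h1 | h1
    · have h2 := c.hSM u hu h1
      rw [Finset.mem_union] at h2
      rcases h2 with h2 | h2
      · exact absurd h2 hwS
      · exact Or.inl ⟨hw, h2⟩
    · exact Or.inr ⟨hw, h1, hwS⟩
  have hcard : ∀ y ∈ M, (N G y).card ≤ (N G y ∩ M).card + (N G y ∩ (N2 G u \ S)).card :=
    fun y hy => (Finset.card_le_card (hsub y hy)).trans (Finset.card_union_le _ _)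
  have hWle : ∀ y, (N G y ∩ (N2 G u \ S)).card ≤ (N2 G u \ S).card :=
    fun y => Finset.card_le_card Finset.inter_subset_right
  have h2 : ∀ y ∈ M, 2 ≤ (N G y ∩ M).card := by
    intro y hy
    have h1 := hcard y hy
    have h2 := c.hdeg y
    have h3 := hWle y
    omega
  have hin := sum_inside G c.hG M
  rw [hM5] at hin
  have hall : ∀ y ∈ M, (N G y ∩ M).card = 2 := by
    intro y hy
    by_contra hne
    have h3 : 3 ≤ (N G y ∩ M).card := by
      have := h2 y hy
      omega
    have : ∑ w ∈ M.erase y, 2 ≤ ∑ w ∈ M.erase y, (N G w ∩ M).card :=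
      Finset.sum_le_sum fun w hw => h2 w (Finset.mem_of_mem_erase hw)
    rw [Finset.sum_const, Finset.card_erase_of_mem hy, hM5, smul_eq_mul] at this
    have h4 := Finset.add_sum_erase M (fun w => (N G w ∩ M).card) hy
    beta_reduce at h4
    omega
  obtain ⟨y, hy⟩ : M.Nonempty := by rw [← Finset.card_pos]; omega
  have hW4 : (N2 G u \ S).card = 4 := by
    have h1 := hcard y hy
    have h2 := c.hdeg y
    have h3 := hWle y
    have h4 := hall y hy
    omega
  have hWin : ∀ y ∈ M, ∀ w ∈ N2 G u \ S, G.Adj y w := by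
    intro y hy w hw
    have h1 := hcard y hy
    have h2 := c.hdeg y
    have h4 := hall y hy
    have h5 : N G y ∩ (N2 G u \ S) = N2 G u \ S :=
      Finset.eq_of_subset_of_card_le Finset.inter_subset_right (by omega)
    rw [← h5] at hw
    exact (mem_N G).1 (Finset.mem_inter.1 hw).1
  -- a member of W with at most one out-neighbour in W
  obtain ⟨w, hwW, hw1⟩ : ∃ w ∈ N2 G u \ S, (N G w ∩ (N2 G u \ S)).card ≤ 1 := by
    by_contra hcon
    push Not at hcon
    have h1 := sum_inside G c.hG (N2 G u \ S)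
    have h2 : ∑ w ∈ N2 G u \ S, 2 ≤ ∑ w ∈ N2 G u \ S, (N G w ∩ (N2 G u \ S)).card :=
      Finset.sum_le_sum fun w hw => hcon w hw
    rw [Finset.sum_const, smul_eq_mul] at h2
    rw [hW4] at h1 h2
    omega
  have hMW : ∀ w ∈ N2 G u \ S, w ∉ M := by
    intro w hw hwM
    rw [Finset.mem_sdiff, mem_N2] at hw
    exact hw.1.2.1 (full_iff hfull hwM)
  have hwy := hWin y hy w hwW
  -- the second out-neighbourhood of y
  have hT : N G w \ (N2 G u \ S) ⊆ N2 G y \ M := by
    intro r hr
    rw [Finset.mem_sdiff, mem_N] at hr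
    have hrM : r ∉ M := fun h => c.hG _ _ (hWin r h w hwW) hr.1
    rw [Finset.mem_sdiff]
    refine ⟨mem_N2_of G c.hG hwy hr.1 ?_, hrM⟩
    intro hyr
    have := hsub y hy ((mem_N G).2 hyr)
    rw [Finset.mem_union, Finset.mem_inter, Finset.mem_inter] at this
    rcases this with h | h
    · exact hrM h.2
    · exact hr.2 h.2
  obtain ⟨y1, y2, _, _, _, _, _, _, hy2, hl⟩ := last_nb G c.hG M (hall y hy)
  have hl' := Finset.card_le_card hl
  rw [hall y2 hy2] at hl'
  have e1 := Finset.card_inter_add_card_sdiff (N2 G y) M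
  have e2 := Finset.card_le_card hT
  have e3 := Finset.card_inter_add_card_sdiff (N G w) (N2 G u \ S)
  have e4 := c.hdeg w
  have e5 := c.hbad y
  have e6 := hcard y hy
  have e7 := hall y hy
  have e8 := hWle y
  omega

/-- The estimate at a vertex `v` with a full out-neighbour, when few vertices outside are hit. -/
theorem Cfg.est (c : Cfg G S M) (hM5 : M.card = 5) {u : V} (hu : u ∈ S)
    (hfull : N G u ∩ M = M) (hW : (N2 G u \ S).card ≤ 3) (hm : ∑ v ∈ S, inc G M v ≤ 6)
    {v u' : V} (hv : v ∈ S) (hD : 2 ≤ (N G v ∩ M).card) (hvu' : G.Adj v u')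
    (hfull' : N G u' ∩ M = M) :
    (N2 G v ∩ S).card + 9 ≤ (N G v ∩ S).card + 2 * (N G v ∩ M).card := by
  have hMW : ∀ w ∈ N2 G u \ S, w ∉ M := by
    intro w hw hwM
    rw [Finset.mem_sdiff, mem_N2] at hw
    exact hw.1.2.1 (full_iff hfull hwM)
  -- degrees of the members of M
  have hdegM : 30 ≤ ∑ y ∈ M, (N G y ∩ S).card + ∑ y ∈ M, (N G y ∩ M).card +
      ∑ y ∈ M, (N G y ∩ (N2 G u \ S)).card := by
    rw [← Finset.sum_add_distrib, ← Finset.sum_add_distrib]
    have h1 : ∑ y ∈ M, 6 ≤ ∑ y ∈ M, ((N G y ∩ S).card + (N G y ∩ M).card +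
        (N G y ∩ (N2 G u \ S)).card) := by
      apply Finset.sum_le_sum
      intro y hy
      refine (c.hdeg y).trans ?_
      have hsub : N G y ⊆ (N G y ∩ S) ∪ (N G y ∩ M) ∪ (N G y ∩ (N2 G u \ S)) := by
        intro w hw
        have h1 := N_subset G c.hG (full_iff hfull hy) hw
        rw [Finset.mem_union] at h1
        simp only [Finset.mem_union, Finset.mem_inter, Finset.mem_sdiff]
        by_cases hwN : w ∈ S
        · exact Or.inl (Or.inl ⟨hw, hwN⟩)
        · rcases h1 with h1 | h1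
          · have h2 := c.hSM u hu h1
            rw [Finset.mem_union] at h2
            rcases h2 with h2 | h2
            · exact absurd h2 hwN
            · exact Or.inl (Or.inr ⟨hw, h2⟩)
          · exact Or.inr ⟨hw, h1, hwN⟩
      refine (Finset.card_le_card hsub).trans ((Finset.card_union_le _ _).trans ?_)
      have := Finset.card_union_le (N G y ∩ S) (N G y ∩ M)
      omega
    rw [Finset.sum_const, hM5, smul_eq_mul] at h1
    exact h1
  rw [dc G M S, dc G M (N2 G u \ S)] at hdegM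
  have hin := sum_inside G c.hG M
  rw [hM5] at hin
  have hincle : ∀ w, inc G M w ≤ 5 := by
    intro w
    unfold inc
    rw [← hM5]
    exact Finset.card_le_card (Finset.filter_subset _ _)
  have hle5 : ∑ w ∈ N2 G u \ S, inc G M w ≤ (N2 G u \ S).card * 5 := by
    rw [← smul_eq_mul, ← Finset.sum_const]
    exact Finset.sum_le_sum fun w _ => hincle w
  have hW3 : (N2 G u \ S).card = 3 := by omega
  have h4 : ∀ w ∈ N2 G u \ S, 4 ≤ inc G M w := by
    intro w hw
    have h1 := Finset.add_sum_erase (N2 G u \ S) (fun w => inc G M w) hw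
    beta_reduce at h1
    have h2 : ∑ w ∈ (N2 G u \ S).erase w, inc G M w ≤ ((N2 G u \ S).erase w).card * 5 := by
      rw [← smul_eq_mul, ← Finset.sum_const]
      exact Finset.sum_le_sum fun w _ => hincle w
    rw [Finset.card_erase_of_mem hw, hW3] at h2
    omega
  have hWsub : N2 G u \ S ⊆ N2 G v := by
    intro w hw
    have h5 := h4 w hw
    have hne : ((M.filter fun y => G.Adj y w) ∩ (N G v ∩ M)).Nonempty := by
      rw [← Finset.card_pos]
      have h6 := Finset.card_union_add_card_inter (M.filter fun y => G.Adj y w) (N G v ∩ M)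
      have h7 : ((M.filter fun y => G.Adj y w) ∪ (N G v ∩ M)).card ≤ M.card :=
        Finset.card_le_card (Finset.union_subset (Finset.filter_subset _ _)
          Finset.inter_subset_right)
      unfold inc at h5
      omega
    obtain ⟨y, hy⟩ := hne
    rw [Finset.mem_inter, Finset.mem_filter, Finset.mem_inter, mem_N] at hy
    refine mem_N2_of G c.hG hy.2.1 hy.1.2 ?_
    intro hvw
    have := c.hSM v hv ((mem_N G).2 hvw)
    rw [Finset.mem_union] at this
    rcases this with h | h
    · exact (Finset.mem_sdiff.1 hw).2 h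
    · exact hMW w hw h
  have hMsub : M \ N G v ⊆ N2 G v := by
    intro y hy
    rw [Finset.mem_sdiff, mem_N] at hy
    exact mem_N2_of G c.hG hvu' (full_iff hfull' hy.1) hy.2
  have hsub : (N2 G v ∩ S) ∪ ((N2 G u \ S) ∪ (M \ N G v)) ⊆ N2 G v :=
    Finset.union_subset Finset.inter_subset_left (Finset.union_subset hWsub hMsub)
  have hd1 : Disjoint (N2 G u \ S) (M \ N G v) := by
    rw [Finset.disjoint_left]
    intro w hw hw'
    exact hMW w hw (Finset.mem_sdiff.1 hw').1
  have hd2 : Disjoint (N2 G v ∩ S) ((N2 G u \ S) ∪ (M \ N G v)) := by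
    rw [Finset.disjoint_left]
    intro w hw hw'
    rw [Finset.mem_inter] at hw
    rw [Finset.mem_union, Finset.mem_sdiff, Finset.mem_sdiff] at hw'
    rcases hw' with h | h
    · exact h.2 hw.2
    · exact (Finset.disjoint_left.1 c.hdisj) hw.2 h.1
  have hcard := Finset.card_le_card hsub
  rw [Finset.card_union_of_disjoint hd2, Finset.card_union_of_disjoint hd1, hW3] at hcard
  have e1 := Finset.card_inter_add_card_sdiff M (N G v)
  rw [Finset.inter_comm] at e1
  have e2 := c.hbad v
  have e3 := c.split hv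
  omega

end Pool.Agent.H39.Burckel
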