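import Mathlib
import Pool.Agent.H39.BurckelSix

set_option autoImplicit false

namespace Pool.Agent.H39.Burckel

open Classical

variable {V : Type} [Fintype V] {G : Digraph V} {S M : Finset V}

theorem Cfg.M5 (c : Cfg G S M) : M.card = 5 := by
  by_contra hne
  have hM4 : M.card ≤ 4 := by have := c.hM; omega
  have ha2 : ∀ v ∈ S, 2 ≤ (N G v ∩ S).card := by
    intro v hv
    have h1 := c.degS hv
    have h2 := c.Dle v
    omega
  obtain ⟨u, hu, hau⟩ : ∃ u ∈ S, (N G u ∩ S).card ≤ 2 := by
    by_contra hcon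
    push Not at hcon
    have h1 : ∑ v ∈ S, 3 ≤ ∑ v ∈ S, (N G v ∩ S).card := Finset.sum_le_sum fun v hv => hcon v hv
    rw [Finset.sum_const, c.hS, smul_eq_mul] at h1
    have := c.sumA
    omega
  have hau2 : (N G u ∩ S).card = 2 := by have := ha2 u hu; omega
  have hdu := c.degS hu
  have hDle := c.Dle u
  have hM4' : M.card = 4 := by omega
  have hfull := c.full_of_card (u := u) (by omega)
  obtain ⟨u1, u2, _, _, _, _, _, _, hu2, hl⟩ := last_nb G c.hG S hau2
  have hl' := Finset.card_le_card hl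
  have h2 := ha2 u2 hu2
  have hb := c.bad' hu
  have hs := c.sumD hu
  rw [hfull, dc G M S, hM4'] at hs
  rw [hfull] at hb
  have hin := sum_inside G c.hG M
  rw [hM4'] at hin
  obtain ⟨_, hm1, hm2⟩ := c.sumM
  have := c.sumA
  omega

theorem Cfg.inc_lt (c : Cfg G S M) {v : V} (hv : v ∈ S) :
    inc G M v + 1 ≤ (N G v ∩ S).card := by
  have h1 := c.tD v
  have h2 := c.degS hv
  have h3 := c.hM
  omega

theorem Cfg.a_le (c : Cfg G S M) {v : V} (hv : v ∈ S) : N G v ∩ S ⊆ S.erase v := by
  intro w hw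
  rw [Finset.mem_inter, mem_N] at hw
  rw [Finset.mem_erase]
  exact ⟨fun e => by subst e; exact c.hG _ _ hw.1 hw.1, hw.2⟩

theorem Cfg.a_le5 (c : Cfg G S M) {v : V} (hv : v ∈ S) : (N G v ∩ S).card ≤ 5 := by
  have := Finset.card_le_card (c.a_le hv)
  rw [Finset.card_erase_of_mem hv, c.hS] at this
  exact this

/-- a vertex of `S` hit from `M` is within distance two of each full vertex -/
theorem Cfg.hit (c : Cfg G S M) {u v : V} (hfull : N G u ∩ M = M) (hv : v ∈ S)
    (h : 1 ≤ inc G M v) : v ∈ N G u ∩ S ∨ v ∈ N2 G u ∩ S := by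
  unfold inc at h
  obtain ⟨y, hy⟩ := Finset.card_pos.1 h
  rw [Finset.mem_filter] at hy
  rw [Finset.mem_inter, Finset.mem_inter, mem_N]
  by_cases huv : G.Adj u v
  · exact Or.inl ⟨huv, hv⟩
  · exact Or.inr ⟨mem_N2_of G c.hG (full_iff hfull hy.1) hy.2 huv, hv⟩

/-- data at a vertex with exactly one out-neighbour inside -/
theorem Cfg.one (c : Cfg G S M) {u : V} (hu : u ∈ S) (ha : (N G u ∩ S).card = 1) :
    N G u ∩ M = M ∧ (N2 G u ∩ S).card + (N2 G u \ S).card ≤ 5 ∧
      5 * (N2 G u ∩ S).card ≤ ∑ v ∈ S, inc G M v + 5 ∧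
      ∃ u' ∈ S, N G u ∩ S = {u'} ∧ G.Adj u u' ∧ N G u' ∩ S ⊆ N2 G u ∩ S := by
  have hM5 := c.M5
  have h1 := c.degS hu
  have hfull := c.full_of_card (u := u) (by omega)
  have hb := c.bad' hu
  rw [hfull, ha, hM5] at hb
  have hs := c.sumFull hM5 hu hfull
  obtain ⟨u', hu'⟩ := Finset.card_eq_one.1 ha
  have hm : u' ∈ N G u ∩ S := by rw [hu']; exact Finset.mem_singleton_self _
  rw [Finset.mem_inter, mem_N] at hm
  refine ⟨hfull, by omega, by omega, u', hm.2, hu', hm.1, ?_⟩
  intro w hw
  rw [Finset.mem_inter, mem_N] at hw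
  rw [Finset.mem_inter]
  refine ⟨mem_N2_of G c.hG hm.1 hw.1 ?_, hw.2⟩
  intro huw
  have : w ∈ N G u ∩ S := Finset.mem_inter.2 ⟨(mem_N G).2 huw, hw.2⟩
  rw [hu', Finset.mem_singleton] at this
  subst this
  exact c.hG _ _ hw.1 hw.1

theorem sum_inc_le {T : Finset V} (hT : T ⊆ S) (h : ∀ v ∈ S, 1 ≤ inc G M v → v ∈ T) :
    ∑ v ∈ S, inc G M v = ∑ v ∈ T, inc G M v := by
  symm
  apply Finset.sum_subset hT
  intro v hv hvT
  by_contra h0
  exact hvT (h v hv (Nat.one_le_iff_ne_zero.2 h0))

theorem Cfg.one_one (c : Cfg G S M) {u : V} (hu : u ∈ S) (ha : (N G u ∩ S).card = 1)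
    (hQ : (N2 G u ∩ S).card ≤ 1) : False := by
  obtain ⟨hfull, hb, hs, u', hu', hN, huu', hsub⟩ := c.one hu ha
  have hle := Finset.card_le_card hsub
  have h1 := c.inc_lt hu'
  have ha' : (N G u' ∩ S).card = 1 := by omega
  obtain ⟨hfull', hb', hs', u'', hu'', hN', hu'u'', hsub'⟩ := c.one hu' ha'
  have hQeq : N2 G u ∩ S = {u''} := by
    rw [← hN']
    exact (Finset.eq_of_subset_of_card_le hsub (by omega)).symm
  have hsum : ∑ v ∈ S, inc G M v = ∑ v ∈ {u''}, inc G M v := by
    apply sum_inc_le (Finset.singleton_subset_iff.2 hu'')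
    intro v hv h
    rcases c.hit hfull hv h with h' | h'
    · rw [hN, Finset.mem_singleton] at h'
      subst h'
      rw [inc_eq_zero_of_full c hfull'] at h
      omega
    · rwa [hQeq] at h'
  rw [Finset.sum_singleton] at hsum
  by_cases h0 : inc G M u'' = 0
  · refine c.no_back c.M5 hu hfull ?_ (by rw [hsum, h0])
    rw [hQeq, Finset.card_singleton] at hb
    omega
  · have h2 := c.inc_lt hu''
    have h3 := Finset.card_le_card hsub'
    have h4 := c.sumM.1
    omega

theorem Cfg.two_le (c : Cfg G S M) : ∀ v ∈ S, 2 ≤ (N G v ∩ S).card := by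
  intro u hu
  by_contra hcon
  have h1 := c.inc_lt hu
  have ha : (N G u ∩ S).card = 1 := by omega
  obtain ⟨hfull, hb, hs, u', hu', hN, huu', hsub⟩ := c.one hu ha
  have hQ2 : 2 ≤ (N2 G u ∩ S).card := by
    by_contra h
    exact c.one_one hu ha (by omega)
  have hm9 := c.sumM.1
  have hQ : (N2 G u ∩ S).card = 2 := by omega
  have hle := Finset.card_le_card hsub
  have h1' := c.inc_lt hu'
  have hu'2 : (N G u' ∩ S).card = 1 ∨ (N G u' ∩ S).card = 2 := by omega
  rcases hu'2 with ha' | ha'
  · obtain ⟨hfull', hb', hs', u'', hu'', hN', hu'u'', hsub'⟩ := c.one hu' ha'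
    have hQ2' : 2 ≤ (N2 G u' ∩ S).card := by
      by_contra h
      exact c.one_one hu' ha' (by omega)
    have hQ' : (N2 G u' ∩ S).card = 2 := by omega
    have hu''Q : u'' ∈ N2 G u ∩ S := hsub (by rw [hN']; exact Finset.mem_singleton_self _)
    obtain ⟨p, hp⟩ : ∃ p, (N2 G u ∩ S).erase u'' = {p} := by
      rw [← Finset.card_eq_one, Finset.card_erase_of_mem hu''Q, hQ]
    have hpm : p ∈ (N2 G u ∩ S).erase u'' := by rw [hp]; exact Finset.mem_singleton_self _
    rw [Finset.mem_erase, Finset.mem_inter] at hpm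
    have hQeq : N2 G u ∩ S = {u'', p} := by
      rw [← Finset.insert_erase hu''Q, hp]
    have hsum : ∑ v ∈ S, inc G M v = ∑ v ∈ {u'', p}, inc G M v := by
      apply sum_inc_le
      · intro v hv
        rw [Finset.mem_insert, Finset.mem_singleton] at hv
        rcases hv with rfl | rfl
        · exact hu''
        · exact hpm.2.2
      · intro v hv h
        rcases c.hit hfull hv h with h' | h'
        · rw [hN, Finset.mem_singleton] at h'
          subst h'
          rw [inc_eq_zero_of_full c hfull'] at h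
          omega
        · rwa [hQeq] at h'
    rw [Finset.sum_pair hpm.1.symm] at hsum
    have h3 := Finset.card_le_card hsub'
    have h4 := c.inc_lt hu''
    have h5 := c.inc_lt hpm.2.2
    have h6 := c.a_le5 hpm.2.2
    have h7 : (N G p ∩ S).card = 5 := by omega
    have h8 : (N G u'' ∩ S).card = 2 := by omega
    have h9 : N G p ∩ S = S.erase p := by
      apply Finset.eq_of_subset_of_card_le (c.a_le hpm.2.2)
      rw [Finset.card_erase_of_mem hpm.2.2, c.hS, h7]
    have h10 : G.Adj p u'' := by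
      have : u'' ∈ N G p ∩ S := by
        rw [h9, Finset.mem_erase]
        exact ⟨hpm.1.symm, hu''⟩
      exact (mem_N G).1 (Finset.mem_inter.1 this).1
    have h11 : N G u'' ∩ S = N2 G u' ∩ S := Finset.eq_of_subset_of_card_le hsub' (by omega)
    rcases c.hit hfull' hpm.2.2 (by omega) with h' | h'
    · rw [hN', Finset.mem_singleton] at h'
      exact hpm.1 h'
    · rw [← h11, Finset.mem_inter, mem_N] at h'
      exact c.hG _ _ h'.1 h10
  · -- N u' ∩ S = N2 u ∩ S has two elements
    have hEq : N G u' ∩ S = N2 G u ∩ S := Finset.eq_of_subset_of_card_le hsub (by omega)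
    obtain ⟨p, r, hpr, hpN⟩ := Finset.card_eq_two.1 ha'
    have hpm : p ∈ N G u' ∩ S := by rw [hpN]; simp
    have hrm : r ∈ N G u' ∩ S := by rw [hpN]; simp
    have hpQ : p ∈ N2 G u ∩ S := hEq ▸ hpm
    have hrQ : r ∈ N2 G u ∩ S := hEq ▸ hrm
    have hQset : N2 G u ∩ S = {p, r} := by rw [← hEq, hpN]
    rw [Finset.mem_inter, mem_N] at hpm hrm
    have hu'p : u' ≠ p := fun e => by subst e; exact c.hG _ _ hpm.1 hpm.1
    have hu'r : u' ≠ r := fun e => by subst e; exact c.hG _ _ hrm.1 hrm.1
    have hsum : ∑ v ∈ S, inc G M v = ∑ v ∈ {u', p, r}, inc G M v := by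
      apply sum_inc_le
      · intro v hv
        simp only [Finset.mem_insert, Finset.mem_singleton] at hv
        rcases hv with rfl | rfl | rfl
        · exact hu'
        · exact hpm.2
        · exact hrm.2
      · intro v hv h
        rcases c.hit hfull hv h with h' | h'
        · rw [hN, Finset.mem_singleton] at h'
          subst h'
          simp
        · rw [hQset] at h'
          exact Finset.mem_insert_of_mem h'
    rw [Finset.sum_insert (by simp [hu'p, hu'r]), Finset.sum_pair hpr] at hsum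
    have hp1 := c.inc_lt hpm.2
    have hr1 := c.inc_lt hrm.2
    -- the rest of S
    set R := S \ {u', p, r} with hR
    have hRc : R.card = 3 := by
      rw [hR, Finset.card_sdiff_of_subset, c.hS, Finset.card_insert_of_notMem (by simp [hu'p, hu'r]),
        Finset.card_pair hpr]
      intro v hv
      simp only [Finset.mem_insert, Finset.mem_singleton] at hv
      rcases hv with rfl | rfl | rfl
      · exact hu'
      · exact hpm.2
      · exact hrm.2
    have hpart : ∀ v, G.Adj u' v → (N G v ∩ S).card ≤ (N G v ∩ {p, r}).card + (N G v ∩ R).card := by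
      intro v hv
      refine le_trans (Finset.card_le_card ?_) (Finset.card_union_le _ _)
      intro w hw
      rw [Finset.mem_inter, mem_N] at hw
      simp only [Finset.mem_union, Finset.mem_inter, mem_N, hR, Finset.mem_sdiff,
        Finset.mem_insert, Finset.mem_singleton, not_or]
      have : w ≠ u' := by
        rintro rfl
        exact c.hG _ _ hv hw.1
      tauto
    have hpp := hpart p hpm.1
    have hrr := hpart r hrm.1
    have hpair := sum_inside G c.hG {p, r}
    rw [Finset.sum_pair hpr, Finset.card_pair hpr] at hpair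
    have hRle : ∀ v, (N G v ∩ R).card ≤ 3 := fun v => by
      rw [← hRc]; exact Finset.card_le_card Finset.inter_subset_right
    have hRp := hRle p
    have hRr := hRle r
    have hRQ : ∀ v, G.Adj u' v → (N G v ∩ R).card = 3 → R ⊆ N2 G u' ∩ S := by
      intro v hv h3 w hw
      have h4 : N G v ∩ R = R := Finset.eq_of_subset_of_card_le Finset.inter_subset_right (by omega)
      have h5 : w ∈ N G v ∩ R := by rw [h4]; exact hw
      rw [Finset.mem_inter, mem_N] at h5
      rw [hR, Finset.mem_sdiff] at hw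
      rw [Finset.mem_inter]
      refine ⟨mem_N2_of G c.hG hv h5.1 ?_, hw.1⟩
      intro h6
      have : w ∈ N G u' ∩ S := Finset.mem_inter.2 ⟨(mem_N G).2 h6, hw.1⟩
      rw [hpN] at this
      exact hw.2 (Finset.mem_insert_of_mem this)
    have hQ3 : 3 ≤ (N2 G u' ∩ S).card := by
      rw [← hRc]
      by_cases h : (N G p ∩ R).card = 3
      · exact Finset.card_le_card (hRQ p hpm.1 h)
      · exact Finset.card_le_card (hRQ r hrm.1 (by omega))
    have hb' := c.bad' hu'
    have hdeg' := c.degS hu'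
    have hDle' := c.Dle u'
    have hM5 := c.M5
    have hD45 : (N G u' ∩ M).card = 4 ∨ (N G u' ∩ M).card = 5 := by omega
    rcases hD45 with hD | hD
    · have hsd := c.sumD hu'
      have hle9 : ∑ y ∈ N G u' ∩ M, (N G y ∩ S).card ≤ ∑ y ∈ M, (N G y ∩ S).card :=
        Finset.sum_le_sum_of_subset Finset.inter_subset_right
      rw [dc G M S] at hle9
      have hDin := sum_inside G c.hG (N G u' ∩ M)
      rw [hD] at hDin hsd
      omega
    · have hfull' := c.full_of_card (u := u') (by omega)
      have h0 := inc_eq_zero_of_full c hfull'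
      -- u is in R and both p and r point to it
      have huR : u ∈ R := by
        rw [hR, Finset.mem_sdiff]
        refine ⟨hu, ?_⟩
        simp only [Finset.mem_insert, Finset.mem_singleton, not_or]
        refine ⟨fun e => ?_, fun e => ?_, fun e => ?_⟩
        · subst e; exact c.hG _ _ huu' huu'
        · subst e
          exact ((mem_N2 G).1 (Finset.mem_inter.1 hpQ).1).1 rfl
        · subst e
          exact ((mem_N2 G).1 (Finset.mem_inter.1 hrQ).1).1 rfl
      have hto : ∀ v, (N G v ∩ R).card = 3 → G.Adj v u := by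
        intro v h3
        have h4 : N G v ∩ R = R :=
          Finset.eq_of_subset_of_card_le Finset.inter_subset_right (by omega)
        have h5 : u ∈ N G v ∩ R := by rw [h4]; exact huR
        exact (mem_N G).1 (Finset.mem_inter.1 h5).1
      have hest : ∀ v ∈ S, G.Adj u' v → G.Adj v u → (N G v ∩ S).card ≤ 4 →
          2 * inc G M v ≤ (N G v ∩ S).card := by
        intro v hv huv hvu ha4
        have hdv := c.degS hv
        have h3 := c.est hM5 hu' hfull' (by omega) (by omega) hv (by omega) hvu hfull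
        have h4 := c.tD v
        have h5 : u' ∈ N2 G v ∩ S := by
          rw [Finset.mem_inter]
          exact ⟨mem_N2_of G c.hG hvu huu' (c.hG _ _ huv), hu'⟩
        have h6 : 1 ≤ (N2 G v ∩ S).card := Finset.card_pos.2 ⟨u', h5⟩
        omega
      have hp3 : (N G p ∩ R).card = 3 := by omega
      have hr3 : (N G r ∩ R).card = 3 := by omega
      have e1 := hest p hpm.2 hpm.1 (hto p hp3) (by omega)
      have e2 := hest r hrm.2 hrm.1 (hto r hr3) (by omega)
      omega

/-- A vertex with two out-neighbours inside and four in `M` has second neighbourhood inside of size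
two. -/
theorem Cfg.nonfull_Q (c : Cfg G S M) {u : V} (hu : u ∈ S) (ha : (N G u ∩ S).card = 2)
    (hD : (N G u ∩ M).card = 4) :
    (N2 G u ∩ S).card ≤ 2 ∧ (2 ≤ (N2 G u ∩ S).card →
      6 ≤ ∑ y ∈ N G u ∩ M, (N G y ∩ S).card) := by
  have hb := c.bad' hu
  have hsd := c.sumD hu
  have hle9 : ∑ y ∈ N G u ∩ M, (N G y ∩ S).card ≤ ∑ y ∈ M, (N G y ∩ S).card :=
    Finset.sum_le_sum_of_subset Finset.inter_subset_right
  rw [dc G M S] at hle9
  have hDin := sum_inside G c.hG (N G u ∩ M)
  have hm9 := c.sumM.1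
  rw [hD] at hDin hsd
  constructor
  · omega
  · intro h
    omega

theorem Cfg.nonfull (c : Cfg G S M) {u : V} (hu : u ∈ S) (ha : (N G u ∩ S).card = 2)
    (hD : (N G u ∩ M).card = 4) : False := by
  have ha2 := c.two_le
  obtain ⟨u1, u2, hne, hN, hn21, huu2, huu1, hu1S, hu2S, hl⟩ := last_nb G c.hG S ha
  obtain ⟨hQle, hQarcs⟩ := c.nonfull_Q hu ha hD
  have hlc := Finset.card_le_card hl
  have h2u2 := ha2 u2 hu2S
  have harcs := hQarcs (by omega)
  have hau2 : (N G u2 ∩ S).card = 2 := by omega
  have hQeq : N G u2 ∩ S = N2 G u ∩ S := Finset.eq_of_subset_of_card_le hl (by omega)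
  obtain ⟨p, r, hpr, hpN⟩ := Finset.card_eq_two.1 hau2
  have hpm : p ∈ N G u2 ∩ S := by rw [hpN]; simp
  have hrm : r ∈ N G u2 ∩ S := by rw [hpN]; simp
  have hpQ : p ∈ N2 G u ∩ S := hQeq ▸ hpm
  have hrQ : r ∈ N2 G u ∩ S := hQeq ▸ hrm
  have hQset : N2 G u ∩ S = {p, r} := by rw [← hQeq, hpN]
  rw [Finset.mem_inter, mem_N] at hpm hrm
  rw [Finset.mem_inter, mem_N2] at hpQ hrQ
  have hu1p : u1 ≠ p := by rintro rfl; exact hpQ.1.2.1 huu1
  have hu1r : u1 ≠ r := by rintro rfl; exact hrQ.1.2.1 huu1
  have hu2p : u2 ≠ p := by rintro rfl; exact c.hG _ _ hpm.1 hpm.1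
  have hu2r : u2 ≠ r := by rintro rfl; exact c.hG _ _ hrm.1 hrm.1
  have huu1' : u ≠ u1 := by rintro rfl; exact c.hG _ _ huu1 huu1
  have huu2' : u ≠ u2 := by rintro rfl; exact c.hG _ _ huu2 huu2
  -- the two remaining vertices
  set R := S \ {u1, u2, p, r} with hR
  have hRc : R.card = 2 := by
    rw [hR, Finset.card_sdiff_of_subset, c.hS,
      Finset.card_insert_of_notMem (by simp [hne, hu1p, hu1r]),
      Finset.card_insert_of_notMem (by simp [hu2p, hu2r]), Finset.card_pair hpr]
    intro v hv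
    simp only [Finset.mem_insert, Finset.mem_singleton] at hv
    rcases hv with rfl | rfl | rfl | rfl
    · exact hu1S
    · exact hu2S
    · exact hpm.2
    · exact hrm.2
  -- arcs from D u go to the four vertices
  have hH : ∀ y ∈ N G u ∩ M, N G y ∩ S ⊆ N G y ∩ {u1, u2, p, r} := by
    intro y hy w hw
    rw [Finset.mem_inter, mem_N] at hy hw
    rw [Finset.mem_inter, mem_N]
    refine ⟨hw.1, ?_⟩
    by_cases huw : G.Adj u w
    · have : w ∈ N G u ∩ S := Finset.mem_inter.2 ⟨(mem_N G).2 huw, hw.2⟩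
      rw [hN, Finset.mem_insert, Finset.mem_singleton] at this
      simp only [Finset.mem_insert, Finset.mem_singleton]
      tauto
    · have : w ∈ N2 G u ∩ S := Finset.mem_inter.2 ⟨mem_N2_of G c.hG hy.1 hw.1 huw, hw.2⟩
      rw [hQset, Finset.mem_insert, Finset.mem_singleton] at this
      simp only [Finset.mem_insert, Finset.mem_singleton]
      tauto
  have harcs2 : ∑ y ∈ N G u ∩ M, (N G y ∩ S).card ≤
      inc G M u1 + (inc G M u2 + (inc G M p + inc G M r)) := by
    calc ∑ y ∈ N G u ∩ M, (N G y ∩ S).card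
        ≤ ∑ y ∈ N G u ∩ M, (N G y ∩ {u1, u2, p, r}).card :=
          Finset.sum_le_sum fun y hy => Finset.card_le_card (hH y hy)
      _ ≤ ∑ y ∈ M, (N G y ∩ {u1, u2, p, r}).card :=
          Finset.sum_le_sum_of_subset Finset.inter_subset_right
      _ = ∑ v ∈ {u1, u2, p, r}, inc G M v := dc G M _
      _ = inc G M u1 + (inc G M u2 + (inc G M p + inc G M r)) := by
          rw [Finset.sum_insert (by simp [hne, hu1p, hu1r]),
            Finset.sum_insert (by simp [hu2p, hu2r]), Finset.sum_pair hpr]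
  have i1 := c.inc_lt hu1S
  have i2 := c.inc_lt hu2S
  have ip := c.inc_lt hpm.2
  have ir := c.inc_lt hrm.2
  -- bounds for inside degrees
  have hT := sum_inside G c.hG {u1, p, r}
  have hTc : ({u1, p, r} : Finset V).card = 3 := by
    rw [Finset.card_insert_of_notMem (by simp [hu1p, hu1r]), Finset.card_pair hpr]
  rw [hTc, Finset.sum_insert (by simp [hu1p, hu1r]), Finset.sum_pair hpr] at hT
  have b1 : (N G u1 ∩ S).card ≤ (N G u1 ∩ {u1, p, r}).card + 1 := by
    have : N G u1 ∩ S ⊆ (N G u1 ∩ {u1, p, r}) ∪ {u2} := by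
      intro w hw
      rw [Finset.mem_inter, mem_N] at hw
      simp only [Finset.mem_union, Finset.mem_inter, mem_N, Finset.mem_insert,
        Finset.mem_singleton]
      by_cases huw : G.Adj u w
      · have : w ∈ N G u ∩ S := Finset.mem_inter.2 ⟨(mem_N G).2 huw, hw.2⟩
        rw [hN, Finset.mem_insert, Finset.mem_singleton] at this
        rcases this with rfl | rfl
        · exact absurd hw.1 (fun h => c.hG _ _ h h)
        · exact Or.inr rfl
      · have : w ∈ N2 G u ∩ S := Finset.mem_inter.2 ⟨mem_N2_of G c.hG huu1 hw.1 huw, hw.2⟩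
        rw [hQset, Finset.mem_insert, Finset.mem_singleton] at this
        exact Or.inl ⟨hw.1, Or.inr this⟩
    refine (Finset.card_le_card this).trans ((Finset.card_union_le _ _).trans ?_)
    rw [Finset.card_singleton]
  have b2 : ∀ v, G.Adj u2 v → (N G v ∩ S).card ≤ (N G v ∩ {u1, p, r}).card + (N G v ∩ R).card := by
    intro v hv
    refine le_trans (Finset.card_le_card ?_) (Finset.card_union_le _ _)
    intro w hw
    rw [Finset.mem_inter, mem_N] at hw
    simp only [Finset.mem_union, Finset.mem_inter, mem_N, hR, Finset.mem_sdiff,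
      Finset.mem_insert, Finset.mem_singleton, not_or]
    have : w ≠ u2 := by
      rintro rfl
      exact c.hG _ _ hv hw.1
    tauto
  have bp := b2 p hpm.1
  have br := b2 r hrm.1
  have hRle : ∀ v, (N G v ∩ R).card ≤ 2 := fun v => by
    rw [← hRc]; exact Finset.card_le_card Finset.inter_subset_right
  have hRp := hRle p
  have hRr := hRle r
  -- everything is an equality
  have hinc2 : inc G M u2 = 1 := by omega
  have hinc1 : inc G M u1 + 1 = (N G u1 ∩ S).card := by omega
  have hp2 : (N G p ∩ R).card = 2 := by omega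
  have hT3 : (N G u1 ∩ {u1, p, r}).card + ((N G p ∩ {u1, p, r}).card +
      (N G r ∩ {u1, p, r}).card) = 3 := by omega
  have htD2 := c.tD u2
  have hM5 := c.M5
  have hdeg2 := c.degS hu2S
  have hD2 : (N G u2 ∩ M).card = 4 := by omega
  obtain ⟨hQ2le, _⟩ := c.nonfull_Q hu2S hau2 hD2
  -- R is the second neighbourhood of u2 inside
  have hRQ : R ⊆ N2 G u2 ∩ S := by
    intro w hw
    have h4 : N G p ∩ R = R := Finset.eq_of_subset_of_card_le Finset.inter_subset_right (by omega)
    have h5 : w ∈ N G p ∩ R := by rw [h4]; exact hw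
    rw [Finset.mem_inter, mem_N] at h5
    rw [hR, Finset.mem_sdiff] at hw
    rw [Finset.mem_inter]
    refine ⟨mem_N2_of G c.hG hpm.1 h5.1 ?_, hw.1⟩
    intro h6
    have : w ∈ N G u2 ∩ S := Finset.mem_inter.2 ⟨(mem_N G).2 h6, hw.1⟩
    rw [hpN] at this
    apply hw.2
    rw [Finset.mem_insert, Finset.mem_singleton] at this
    simp only [Finset.mem_insert, Finset.mem_singleton]
    tauto
  have hRQe : R = N2 G u2 ∩ S := Finset.eq_of_subset_of_card_le hRQ (by omega)
  have hu1R : u1 ∉ R := by rw [hR]; simp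
  have hnot : ∀ v, G.Adj u2 v → ¬ G.Adj v u1 := by
    intro v hv hvu1
    apply hu1R
    rw [hRQe, Finset.mem_inter]
    exact ⟨mem_N2_of G c.hG hv hvu1 hn21, hu1S⟩
  -- p and r do not point to u1
  have hpT : (N G p ∩ {u1, p, r}).card + (N G r ∩ {u1, p, r}).card ≤ 1 := by
    have h1 : N G p ∩ {u1, p, r} ⊆ N G p ∩ {p, r} := by
      intro w hw
      simp only [Finset.mem_inter, mem_N, Finset.mem_insert, Finset.mem_singleton] at hw ⊢
      refine ⟨hw.1, ?_⟩
      rcases hw.2 with rfl | h | h
      · exact absurd hw.1 (hnot p hpm.1)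
      · exact Or.inl h
      · exact Or.inr h
    have h2 : N G r ∩ {u1, p, r} ⊆ N G r ∩ {p, r} := by
      intro w hw
      simp only [Finset.mem_inter, mem_N, Finset.mem_insert, Finset.mem_singleton] at hw ⊢
      refine ⟨hw.1, ?_⟩
      rcases hw.2 with rfl | h | h
      · exact absurd hw.1 (hnot r hrm.1)
      · exact Or.inl h
      · exact Or.inr h
    have h3 := Finset.card_le_card h1
    have h4 := Finset.card_le_card h2
    have hpair := sum_inside G c.hG {p, r}
    rw [Finset.sum_pair hpr, Finset.card_pair hpr] at hpair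
    omega
  -- so u1 has three out-neighbours inside and is hit twice, but D u2 does not hit it
  have hhit : inc G M u1 ≤ 1 := by
    have h1 : (M.filter fun y => G.Adj y u1) ∪ (N G u2 ∩ M) ⊆ M := by
      intro w hw
      rw [Finset.mem_union, Finset.mem_filter, Finset.mem_inter] at hw
      tauto
    have h2 : Disjoint (M.filter fun y => G.Adj y u1) (N G u2 ∩ M) := by
      rw [Finset.disjoint_left]
      intro w hw hw'
      rw [Finset.mem_filter] at hw
      rw [Finset.mem_inter, mem_N] at hw'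
      exact hnot w hw'.1 hw.2
    have h3 := Finset.card_le_card h1
    rw [Finset.card_union_of_disjoint h2, hD2, hM5] at h3
    unfold inc
    omega
  omega

/-- vertices with two out-neighbours inside are full -/
theorem Cfg.full2 (c : Cfg G S M) {u : V} (hu : u ∈ S) (ha : (N G u ∩ S).card = 2) :
    N G u ∩ M = M := by
  have h1 := c.degS hu
  have h2 := c.Dle u
  have h3 := c.M5
  apply c.full_of_card
  by_contra h
  exact c.nonfull hu ha (by omega)

theorem Cfg.exists2 (c : Cfg G S M) : ∃ u ∈ S, (N G u ∩ S).card = 2 := by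
  by_contra hcon
  push Not at hcon
  have h1 : ∑ v ∈ S, 3 ≤ ∑ v ∈ S, (N G v ∩ S).card := Finset.sum_le_sum fun v hv => by
    have h2 := c.two_le v hv
    have h3 := hcon v hv
    omega
  rw [Finset.sum_const, c.hS, smul_eq_mul] at h1
  have := c.sumA
  omega

theorem Cfg.Q3 (c : Cfg G S M) {u : V} (hu : u ∈ S) (ha : (N G u ∩ S).card = 2)
    (hQ : 3 ≤ (N2 G u ∩ S).card) : False := by
  have hM5 := c.M5
  have ha2 := c.two_le
  have hfull := c.full2 hu ha
  have hb := c.bad' hu
  rw [hfull] at hb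
  have hs := c.sumFull hM5 hu hfull
  have hW : (N2 G u \ S).card ≤ 3 := by omega
  have hm5 : 5 ≤ ∑ v ∈ S, inc G M v := by omega
  -- excess
  have hex : ∑ v ∈ S, ((N G v ∩ S).card - 2) ≤ 3 := by
    have h1 : ∑ v ∈ S, ((N G v ∩ S).card - 2) + ∑ v ∈ S, 2 = ∑ v ∈ S, (N G v ∩ S).card := by
      rw [← Finset.sum_add_distrib]
      apply Finset.sum_congr rfl
      intro v hv
      have := ha2 v hv
      omega
    rw [Finset.sum_const, c.hS, smul_eq_mul] at h1
    have := c.sumA
    omega
  have hinc0 : ∀ v ∈ S, (N G v ∩ S).card = 2 → inc G M v = 0 := fun v hv h =>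
    inc_eq_zero_of_full c (c.full2 hv h)
  have hm6 : ∑ v ∈ S, inc G M v ≤ 6 := by
    have h1 : ∑ v ∈ S, inc G M v ≤ ∑ v ∈ S, 2 * ((N G v ∩ S).card - 2) := by
      apply Finset.sum_le_sum
      intro v hv
      have h2 := ha2 v hv
      have h3 := c.inc_lt hv
      by_cases h : (N G v ∩ S).card = 2
      · rw [hinc0 v hv h]; omega
      · omega
    rw [← Finset.mul_sum] at h1
    omega
  -- nobody has excess three
  have hsmall : ∀ v ∈ S, (N G v ∩ S).card ≤ 4 := by
    intro v hv
    by_contra hcon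
    have h5 := c.a_le5 hv
    have h1 := Finset.add_sum_erase S (fun w => (N G w ∩ S).card - 2) hv
    have h2 := Finset.add_sum_erase S (fun w => inc G M w) hv
    beta_reduce at h1 h2
    have h3 : ∑ w ∈ S.erase v, ((N G w ∩ S).card - 2) = 0 := by omega
    have h4 : ∑ w ∈ S.erase v, inc G M w = 0 := by
      apply Finset.sum_eq_zero
      intro w hw
      have hwS := Finset.mem_of_mem_erase hw
      have h6 := (Finset.sum_eq_zero_iff.1 h3) w hw
      have h7 := ha2 w hwS
      exact hinc0 w hwS (by omega)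
    have h8 := c.inc_lt hv
    omega
  have hmain : ∀ v ∈ S, 2 * inc G M v ≤ 3 * ((N G v ∩ S).card - 2) := by
    intro v hv
    by_cases h2 : (N G v ∩ S).card = 2
    · rw [hinc0 v hv h2]; omega
    have h3 := ha2 v hv
    have h4 := hsmall v hv
    -- an out-neighbour which is full
    obtain ⟨z, hzS, hvz, hz2⟩ : ∃ z ∈ S, G.Adj v z ∧ (N G z ∩ S).card = 2 := by
      by_contra hcon
      push Not at hcon
      have hsub : insert v (N G v ∩ S) ⊆ S := by
        intro w hw
        rw [Finset.mem_insert] at hw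
        rcases hw with rfl | hw
        · exact hv
        · exact (Finset.mem_inter.1 hw).2
      have hvn : v ∉ N G v ∩ S := by
        intro h
        rw [Finset.mem_inter, mem_N] at h
        exact c.hG _ _ h.1 h.1
      have h5 : ∑ w ∈ insert v (N G v ∩ S), 1 ≤
          ∑ w ∈ insert v (N G v ∩ S), ((N G w ∩ S).card - 2) := by
        apply Finset.sum_le_sum
        intro w hw
        rw [Finset.mem_insert] at hw
        rcases hw with rfl | hw
        · omega
        · rw [Finset.mem_inter, mem_N] at hw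
          have h6 := hcon w hw.2 hw.1
          have h7 := ha2 w hw.2
          omega
      have h8 := Finset.sum_le_sum_of_subset (f := fun w => (N G w ∩ S).card - 2) hsub
      rw [Finset.sum_const, smul_eq_mul, Finset.card_insert_of_notMem hvn] at h5
      omega
    have hfz := c.full2 hzS hz2
    have hdv := c.degS hv
    have hest := c.est hM5 hu hfull hW hm6 hv (by omega) hvz hfz
    have htD := c.tD v
    -- second neighbourhood inside nonempty
    have hQ1 : 1 ≤ (N2 G v ∩ S).card := by
      by_contra hcon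
      have h0 : N2 G v ∩ S = ∅ := by
        rw [← Finset.card_eq_zero]; omega
      have hcl : ∀ w ∈ N G v ∩ S, 2 ≤ (N G w ∩ (N G v ∩ S)).card := by
        intro w hw
        rw [Finset.mem_inter, mem_N] at hw
        refine (ha2 w hw.2).trans (Finset.card_le_card ?_)
        intro r hr
        rw [Finset.mem_inter, mem_N] at hr
        rw [Finset.mem_inter, Finset.mem_inter, mem_N, mem_N]
        refine ⟨hr.1, ?_, hr.2⟩
        by_contra hvr
        have : r ∈ N2 G v ∩ S := Finset.mem_inter.2 ⟨mem_N2_of G c.hG hw.1 hr.1 hvr, hr.2⟩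
        rw [h0] at this
        exact absurd this (Finset.notMem_empty _)
      have h5 : ∑ w ∈ N G v ∩ S, 2 ≤ ∑ w ∈ N G v ∩ S, (N G w ∩ (N G v ∩ S)).card :=
        Finset.sum_le_sum hcl
      rw [Finset.sum_const, smul_eq_mul] at h5
      have h6 := sum_inside G c.hG (N G v ∩ S)
      have h7 : (N G v ∩ S).card = 3 ∨ (N G v ∩ S).card = 4 := by omega
      rcases h7 with h | h
      · rw [h] at h5 h6; omega
      · rw [h] at h5 h6; omega
    omega
  have h1 : ∑ v ∈ S, 2 * inc G M v ≤ ∑ v ∈ S, 3 * ((N G v ∩ S).card - 2) :=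
    Finset.sum_le_sum hmain
  rw [← Finset.mul_sum, ← Finset.mul_sum] at h1
  omega

theorem Cfg.final (c : Cfg G S M) : False := by
  have hM5 := c.M5
  have ha2 := c.two_le
  -- the last out-neighbour
  have hlast : ∀ z ∈ S, (N G z ∩ S).card = 2 → ∃ z1 z2 : V, N G z ∩ S = {z1, z2} ∧
      ¬ G.Adj z2 z1 ∧ z1 ∈ S ∧ z2 ∈ S ∧ (N G z2 ∩ S).card = 2 ∧ N G z2 ∩ S = N2 G z ∩ S ∧
      G.Adj z z1 ∧ G.Adj z z2 := by
    intro z hz hz2
    obtain ⟨z1, z2, hne, hN, hn, h1, h2, hS1, hS2, hl⟩ := last_nb G c.hG S hz2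
    have hQ : (N2 G z ∩ S).card ≤ 2 := by
      by_contra hcon
      exact c.Q3 hz hz2 (by omega)
    have h3 := ha2 z2 hS2
    have h4 := Finset.card_le_card hl
    exact ⟨z1, z2, hN, hn, hS1, hS2, by omega,
      Finset.eq_of_subset_of_card_le hl (by omega), h2, h1⟩
  obtain ⟨u, hu, hau⟩ := c.exists2
  have hfull := c.full2 hu hau
  by_cases h0 : ∑ v ∈ S, inc G M v = 0
  · refine c.no_back hM5 hu hfull ?_ h0
    obtain ⟨z1, z2, _, _, _, _, hc2, hE, _, _⟩ := hlast u hu hau
    have hb := c.bad' hu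
    rw [hfull, ← hE] at hb
    omega
  obtain ⟨v, hv, hinc⟩ : ∃ v ∈ S, inc G M v ≠ 0 := by
    by_contra hcon
    push Not at hcon
    exact h0 (Finset.sum_eq_zero hcon)
  have hav : 3 ≤ (N G v ∩ S).card := by
    have h2 := ha2 v hv
    by_contra hcon
    exact hinc (inc_eq_zero_of_full c (c.full2 hv (by omega)))
  -- a vertex z with two out-neighbours inside pointing to v
  obtain ⟨z, hz, hz2, hzv⟩ : ∃ z ∈ S, (N G z ∩ S).card = 2 ∧ G.Adj z v := by
    obtain ⟨z1, z2, _, _, _, hS2, hc2, hE, _, _⟩ := hlast u hu hau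
    rcases c.hit hfull hv (Nat.one_le_iff_ne_zero.2 hinc) with h | h
    · exact ⟨u, hu, hau, (mem_N G).1 (Finset.mem_inter.1 h).1⟩
    · rw [← hE] at h
      exact ⟨z2, hS2, hc2, (mem_N G).1 (Finset.mem_inter.1 h).1⟩
  obtain ⟨z1, z2, hN, hn21, hS1, hS2, hc2, hE, hz1, hz2'⟩ := hlast z hz hz2
  have hvz1 : v = z1 := by
    have : v ∈ N G z ∩ S := Finset.mem_inter.2 ⟨(mem_N G).2 hzv, hv⟩
    rw [hN, Finset.mem_insert, Finset.mem_singleton] at this
    rcases this with h | h
    · exact h
    · rw [h] at hav; omega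
  subst hvz1
  obtain ⟨q1, q2, hN2, hnq, hq1, hq2, hcq, hEq, _, hz2q2⟩ := hlast z2 hS2 hc2
  -- q2 points to v
  have hq2v : G.Adj q2 v := by
    rcases c.hit (c.full2 hS2 hc2) hv (Nat.one_le_iff_ne_zero.2 hinc) with h | h
    · exact absurd ((mem_N G).1 (Finset.mem_inter.1 h).1) hn21
    · rw [← hEq] at h
      exact (mem_N G).1 (Finset.mem_inter.1 h).1
  -- v points to q2
  have hsub : N G v ∩ S ⊆ {z2, q1, q2} := by
    intro r hr
    rw [Finset.mem_inter, mem_N] at hr
    by_cases hzr : G.Adj z r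
    · have : r ∈ N G z ∩ S := Finset.mem_inter.2 ⟨(mem_N G).2 hzr, hr.2⟩
      rw [hN, Finset.mem_insert, Finset.mem_singleton] at this
      rcases this with h | h
      · subst h; exact absurd hr.1 (fun h => c.hG _ _ h h)
      · simp [h]
    · have : r ∈ N2 G z ∩ S := Finset.mem_inter.2 ⟨mem_N2_of G c.hG hzv hr.1 hzr, hr.2⟩
      rw [← hE, hN2] at this
      exact Finset.mem_insert_of_mem this
  have hvq2 : G.Adj v q2 := by
    have h1 : ({z2, q1, q2} : Finset V).card ≤ 3 := Finset.card_le_three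
    have h2 : N G v ∩ S = {z2, q1, q2} := Finset.eq_of_subset_of_card_le hsub (by omega)
    have h3 : q2 ∈ N G v ∩ S := by rw [h2]; simp
    exact (mem_N G).1 (Finset.mem_inter.1 h3).1
  exact c.hG _ _ hq2v hvq2

/-- **Kaneko and Locke.** Every finite oriented graph with a vertex of out-degree at most six has a
Seymour vertex. -/
theorem kaneko_locke (G : Digraph V) (hG : Oriented G) (x : V) (hx : (N G x).card ≤ 6) :
    ∃ v, IsSeymour G v := by
  by_contra hcon
  push Not at hcon
  have hbad : ∀ v, (N2 G v).card < (N G v).card := by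
    intro v
    have := hcon v
    rw [isSeymour_iff] at this
    omega
  haveI : Nonempty V := ⟨x⟩
  obtain ⟨u, -, hu⟩ := Finset.exists_min_image (Finset.univ : Finset V)
    (fun v => (N G v).card) Finset.univ_nonempty
  have hmin : ∀ v, (N G u).card ≤ (N G v).card := fun v => hu v (Finset.mem_univ v)
  have h6 : (N G u).card ≤ 6 := (hmin x).trans hx
  by_cases h5 : (N G u).card ≤ 5
  · exact no_bad_five G hG hbad u hmin h5
  · have h66 : (N G u).card = 6 := by omega
    refine Cfg.final (G := G) (S := N G u) (M := N2 G u) ⟨hG, hbad, ?_, ?_, N_disj G u, h66, ?_⟩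
    · intro v
      rw [← h66]
      exact hmin v
    · intro v hv
      exact N_subset G hG ((mem_N G).1 hv)
    · have := hbad u
      omega

end Pool.Agent.H39.Burckel
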