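import Pool.Agent.H39.BauRing

namespace Pool.Agent.H39

open Polynomial RR

/-- Baumslag's metabelian group: the ring with `X` and `X+1` inverted, extended by these units -/
@[ext] structure Bau where
  /-- translation part -/
  r : RR
  /-- exponent of `X` -/
  i : ℤ
  /-- exponent of `X+1` -/
  j : ℤ

namespace Bau

noncomputable section

instance : Mul Bau := ⟨fun x y => ⟨x.r + (un x.i x.j : RRˣ) * y.r, x.i + y.i, x.j + y.j⟩⟩
instance : One Bau := ⟨⟨0, 0, 0⟩⟩
instance : Inv Bau := ⟨fun x => ⟨-((un (-x.i) (-x.j) : RRˣ) * x.r), -x.i, -x.j⟩⟩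

lemma mul_def (x y : Bau) :
    x * y = ⟨x.r + (un x.i x.j : RRˣ) * y.r, x.i + y.i, x.j + y.j⟩ := rfl
lemma one_def : (1 : Bau) = ⟨0, 0, 0⟩ := rfl
lemma inv_def (x : Bau) : x⁻¹ = ⟨-((un (-x.i) (-x.j) : RRˣ) * x.r), -x.i, -x.j⟩ := rfl

@[simp] lemma mul_r (x y : Bau) : (x * y).r = x.r + (un x.i x.j : RRˣ) * y.r := rfl
@[simp] lemma mul_i (x y : Bau) : (x * y).i = x.i + y.i := rfl
@[simp] lemma mul_j (x y : Bau) : (x * y).j = x.j + y.j := rfl
@[simp] lemma one_r : (1 : Bau).r = 0 := rfl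
@[simp] lemma one_i : (1 : Bau).i = 0 := rfl
@[simp] lemma one_j : (1 : Bau).j = 0 := rfl
@[simp] lemma inv_r (x : Bau) : (x⁻¹).r = -((un (-x.i) (-x.j) : RRˣ) * x.r) := rfl
@[simp] lemma inv_i (x : Bau) : (x⁻¹).i = -x.i := rfl
@[simp] lemma inv_j (x : Bau) : (x⁻¹).j = -x.j := rfl

instance : Group Bau := Group.ofLeftAxioms
  (by
    intro x y z
    ext
    · simp only [mul_r, mul_i, mul_j, un_add, Units.val_mul]; ring
    · simp [add_assoc]
    · simp [add_assoc])
  (by
    intro x
    ext <;> simp [un_zero])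
  (by
    intro x
    ext <;> simp)

/-- exponent homomorphism -/
def hi : Bau →* Multiplicative ℤ where
  toFun x := Multiplicative.ofAdd x.i
  map_one' := rfl
  map_mul' _ _ := rfl

/-- exponent homomorphism -/
def hj : Bau →* Multiplicative ℤ where
  toFun x := Multiplicative.ofAdd x.j
  map_one' := rfl
  map_mul' _ _ := rfl

lemma zpow_i (x : Bau) (n : ℤ) : (x ^ n).i = n * x.i := by
  have := map_zpow hi x n
  have h := congrArg Multiplicative.toAdd this
  simpa [hi] using h

lemma zpow_j (x : Bau) (n : ℤ) : (x ^ n).j = n * x.j := by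
  have := map_zpow hj x n
  have h := congrArg Multiplicative.toAdd this
  simpa [hj] using h

lemma pow_i (x : Bau) (n : ℕ) : (x ^ n).i = n * x.i := by
  have := zpow_i x n
  simpa using this

lemma pow_j (x : Bau) (n : ℕ) : (x ^ n).j = n * x.j := by
  have := zpow_j x n
  simpa using this

/-- the involution -/
def aa : Bau := ⟨1, 0, 0⟩
/-- first generator of the torus -/
def tt : Bau := ⟨0, 1, 0⟩
/-- second generator of the torus -/
def ss : Bau := ⟨0, 0, 1⟩

lemma two_zero' : (1 : RR) + 1 = 0 := by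
  have h := CharP.cast_eq_zero RR 2
  rw [Nat.cast_two] at h
  rw [one_add_one_eq_two]; exact h

lemma add_self' (r : RR) : r + r = 0 := by
  have : r + r = (1 + 1) * r := by ring
  rw [this, two_zero', zero_mul]

lemma aa_mul : aa * aa = 1 := by
  ext
  · simp [aa, un_zero, two_zero']
  · simp [aa]
  · simp [aa]

lemma aa_ne : aa ≠ 1 := by
  intro h
  have := congrArg Bau.r h
  simp [aa] at this

lemma conj_el (x : Bau) (r : RR) :
    x * ⟨r, 0, 0⟩ * x⁻¹ = ⟨(un x.i x.j : RRˣ) * r, 0, 0⟩ := by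
  ext
  · simp only [mul_r, mul_i, mul_j, inv_r, add_zero]
    have : ((un x.i x.j : RRˣ) : RR) * ((un (-x.i) (-x.j) : RRˣ) : RR) = 1 := by
      rw [← Units.val_mul, ← un_add]; simp [un_zero]
    linear_combination (-x.r) * this
  · simp
  · simp

lemma el_mul (r r' : RR) : (⟨r, 0, 0⟩ : Bau) * ⟨r', 0, 0⟩ = ⟨r + r', 0, 0⟩ := by
  ext <;> simp [un_zero]

lemma comm_el (r r' : RR) : Commute (⟨r, 0, 0⟩ : Bau) ⟨r', 0, 0⟩ := by
  rw [Commute, SemiconjBy, el_mul, el_mul, add_comm]

lemma conj_aa (x : Bau) : x * aa * x⁻¹ = ⟨(un x.i x.j : RRˣ), 0, 0⟩ := by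
  rw [aa, conj_el, mul_one]

lemma comm_conj (v : Bau) : Commute (v * aa * v⁻¹) aa := by
  rw [conj_aa]; exact comm_el _ _

lemma el_pow (r : RR) (n : ℕ) : (⟨r, 0, 0⟩ : Bau) ^ n = ⟨n * r, 0, 0⟩ := by
  induction n with
  | zero => simp [one_def]
  | succ n ih => rw [pow_succ, ih, el_mul]; push_cast; congr 1; ring

lemma odd_torsion (n : ℕ) (hn : Odd n) (x : Bau) (h : x ^ n = 1) : x = 1 := by
  have hn0 : (n : ℤ) ≠ 0 := by
    rintro h0
    have : n = 0 := by exact_mod_cast h0
    rw [this] at hn; simp at hn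
  have h1 : x.i = 0 := by
    have := congrArg Bau.i h
    rw [pow_i, one_i] at this
    exact (mul_eq_zero.mp this).resolve_left hn0
  have h2 : x.j = 0 := by
    have := congrArg Bau.j h
    rw [pow_j, one_j] at this
    exact (mul_eq_zero.mp this).resolve_left hn0
  have h3 : x = ⟨x.r, 0, 0⟩ := by
    ext
    · rfl
    · exact h1
    · exact h2
  rw [h3, el_pow] at h
  have h4 := congrArg Bau.r h
  simp only [one_r] at h4
  obtain ⟨k, rfl⟩ := hn
  have h5 : x.r = 0 := by
    push_cast at h4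
    have h6 : (2 : RR) = 0 := by rw [← one_add_one_eq_two]; exact two_zero'
    rw [h6] at h4
    simpa using h4
  rw [h3, h5]; rfl

/-- sign character -/
def chi : Bau →* ℤˣ where
  toFun x := (-1 : ℤˣ) ^ x.i
  map_one' := by simp
  map_mul' x y := by simp [zpow_add]

lemma chi_apply (x : Bau) : chi x = (-1 : ℤˣ) ^ x.i := rfl

/-- a subgroup containing all `un m n` translations contains all translations -/
lemma el_mem (S : Subgroup Bau) (h : ∀ m n : ℤ, (⟨(un m n : RRˣ), 0, 0⟩ : Bau) ∈ S) (r : RR) :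
    (⟨r, 0, 0⟩ : Bau) ∈ S := by
  obtain ⟨n, p, hp⟩ := exists_form r
  have key : ∀ p : P2, ∀ m : ℤ, (⟨((un m m : RRˣ) : RR) * io p, 0, 0⟩ : Bau) ∈ S := by
    intro p
    induction p using Polynomial.induction_on' with
    | add p q hp hq =>
      intro m
      rw [map_add, mul_add, ← el_mul]
      exact S.mul_mem (hp m) (hq m)
    | monomial k b =>
      intro m
      have hb : b = 0 ∨ b = 1 := by revert b; decide
      rcases hb with rfl | rfl
      · simp only [map_zero, mul_zero]
        exact S.one_mem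
      · have : io (monomial k 1) = ((un k 0 : RRˣ) : RR) := by
          have h1 := un_nat k 0
          rw [pow_zero, mul_one] at h1
          rw [Nat.cast_zero] at h1
          rw [h1, Polynomial.X_pow_eq_monomial]
        rw [this, ← Units.val_mul, ← un_add]
        exact h _ _
  have h1 : r = ((un (-n) (-n) : RRˣ) : RR) * io p := by
    rw [← hp, mul_comm r, ← mul_assoc, ← Units.val_mul, ← un_add]
    simp [un_zero]
  rw [h1]
  exact key p _

/-- the key rigidity property -/
theorem rigid (ψ : Bau →* Bau) (ha : ψ aa = aa) (hχ : ∀ α, chi (ψ α) = chi α) :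
    Function.Surjective ψ := by
  have hrel : ss * aa * ss⁻¹ = aa * (tt * aa * tt⁻¹) := by
    rw [conj_aa, conj_aa, aa, el_mul]
    simp only [ss, tt, un_one_zero, un_zero_one, sig_eq]
    rw [add_comm]
  have h1 := congrArg ψ hrel
  rw [map_mul, map_mul, map_inv, map_mul, map_mul, map_mul, map_inv, ha, conj_aa, conj_aa, aa,
    el_mul] at h1
  have h2 := congrArg Bau.r h1
  simp only at h2
  have hodd : Odd (ψ tt).i := by
    have h3 := hχ tt
    rw [chi_apply, chi_apply] at h3
    have h4 : (-1 : ℤˣ) ^ (tt).i = -1 := by simp [tt]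
    rw [h4] at h3
    rcases Int.even_or_odd (ψ tt).i with h5 | h5
    · rw [Even.neg_one_zpow h5] at h3
      exact absurd h3 (by decide)
    · exact h5
  have hdet := sunit (i := (ψ tt).i) (j := (ψ tt).j) (k := (ψ ss).i) (l := (ψ ss).j)
    (by rw [h2]; ring) hodd
  set S := ψ.range with hS
  have hex : ∀ m n : ℤ, ∃ x ∈ S, x.i = m ∧ x.j = n := by
    intro m n
    have hpq : ∃ p q : ℤ, p * (ψ tt).i + q * (ψ ss).i = m ∧ p * (ψ tt).j + q * (ψ ss).j = n := by
      rcases hdet with h | h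
      · refine ⟨m * (ψ ss).j - n * (ψ ss).i, n * (ψ tt).i - m * (ψ tt).j, ?_, ?_⟩
        · linear_combination m * h
        · linear_combination n * h
      · refine ⟨-(m * (ψ ss).j - n * (ψ ss).i), -(n * (ψ tt).i - m * (ψ tt).j), ?_, ?_⟩
        · linear_combination -m * h
        · linear_combination -n * h
    obtain ⟨p, q, hp, hq⟩ := hpq
    refine ⟨ψ (tt ^ p * ss ^ q), ⟨_, rfl⟩, ?_, ?_⟩
    · rw [map_mul, map_zpow, map_zpow, mul_i, zpow_i, zpow_i, hp]
    · rw [map_mul, map_zpow, map_zpow, mul_j, zpow_j, zpow_j, hq]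
  have haS : aa ∈ S := ⟨aa, ha⟩
  have hun : ∀ m n : ℤ, (⟨(un m n : RRˣ), 0, 0⟩ : Bau) ∈ S := by
    intro m n
    obtain ⟨x, hx, rfl, rfl⟩ := hex m n
    rw [← conj_aa]
    exact S.mul_mem (S.mul_mem hx haS) (S.inv_mem hx)
  intro z
  obtain ⟨x, hx, hxi, hxj⟩ := hex z.i z.j
  have hz : z = ⟨z.r - x.r, 0, 0⟩ * x := by
    ext
    · simp [un_zero]
    · simp [hxi]
    · simp [hxj]
  have : z ∈ S := by
    rw [hz]
    exact S.mul_mem (el_mem S hun _) hx
  exact this

/-- the Frobenius endomorphism -/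
def frob : Bau →* Bau where
  toFun x := ⟨x.r ^ 2, 2 * x.i, 2 * x.j⟩
  map_one' := by ext <;> simp
  map_mul' x y := by
    ext
    · simp only [mul_r]
      have h1 : un (2 * x.i) (2 * x.j) = un x.i x.j * un x.i x.j := by
        rw [← un_add, two_mul, two_mul]
      have h2 : (2 : RR) = 0 := by rw [← one_add_one_eq_two]; exact two_zero'
      rw [h1, Units.val_mul]
      linear_combination x.r * ((un x.i x.j : RRˣ) : RR) * y.r * h2
    · simp [mul_add]
    · simp [mul_add]

lemma frob_aa : frob aa = aa := by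
  ext <;> simp [frob, aa]

lemma frob_inj : Function.Injective frob := by
  rw [injective_iff_map_eq_one]
  intro x hx
  have h1 : x.r ^ 2 = 0 := congrArg Bau.r hx
  have h2 : 2 * x.i = 0 := congrArg Bau.i hx
  have h3 : 2 * x.j = 0 := congrArg Bau.j hx
  ext
  · simpa using h1
  · simpa using h2
  · simpa using h3

lemma chi_frob (x : Bau) : chi (frob x) = 1 := by
  rw [chi_apply]
  have : (frob x).i = 2 * x.i := rfl
  rw [this]
  exact Even.neg_one_zpow (even_two_mul _)

lemma chi_ss : chi ss = 1 := by simp [chi_apply, ss]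

lemma chi_tt : chi tt = -1 := by simp [chi_apply, tt]

lemma ss_not_frob (x : Bau) : frob x ≠ ss := by
  intro h
  have : 2 * x.j = 1 := congrArg Bau.j h
  omega

end

end Bau

end Pool.Agent.H39
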