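import Pool.Agent.H39.Bau

namespace Pool.Agent.H39

open Polynomial RR

namespace Bau

section
variable {Q : Type} [Group Q] {a s t : Q}

/-- translates of the involution -/
def cc (a t : Q) (n : ℕ) : Q := t ^ n * a * (t ^ n)⁻¹

lemma conj_t_cc (k n : ℕ) : t ^ k * cc a t n * (t ^ k)⁻¹ = cc a t (k + n) := by
  simp only [cc, pow_add]; group

lemma conj_s_cc (hst : Commute s t) (has : s * a * s⁻¹ = a * (t * a * t⁻¹)) (n : ℕ) :
    s * cc a t n * s⁻¹ = cc a t n * cc a t (n + 1) := by
  have h1 : s * t ^ n = t ^ n * s := (hst.pow_right n).eq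
  calc s * cc a t n * s⁻¹ = (s * t ^ n) * a * (s * t ^ n)⁻¹ := by simp only [cc]; group
    _ = t ^ n * (s * a * s⁻¹) * (t ^ n)⁻¹ := by rw [h1]; group
    _ = t ^ n * (a * (t * a * t⁻¹)) * (t ^ n)⁻¹ := by rw [has]
    _ = _ := by simp only [cc, pow_succ]; group

lemma comm_zero (hst : Commute s t) (hat : Commute a (t * a * t⁻¹))
    (has : s * a * s⁻¹ = a * (t * a * t⁻¹)) : ∀ n : ℕ, ∀ k ≤ n, Commute (cc a t 0) (cc a t k) := by
  intro n
  induction n with
  | zero =>
    intro k hk
    have : k = 0 := by omega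
    rw [this]
  | succ n ih =>
    intro k hk
    rcases Nat.lt_or_ge k (n + 1) with h | h
    · exact ih k (by omega)
    · have hkn : k = n + 1 := by omega
      subst hkn
      rcases n with _ | n
      · simpa [cc] using hat
      · -- main step
        have hshift : ∀ k ≤ n + 1, Commute (cc a t 1) (cc a t (1 + k)) := by
          intro k hk
          have h1 := ih k hk
          have h2 := congrArg (fun z => t ^ 1 * z * (t ^ 1)⁻¹) h1.eq
          have h3 : ∀ x y : Q, t ^ 1 * (x * y) * (t ^ 1)⁻¹
            = (t ^ 1 * x * (t ^ 1)⁻¹) * (t ^ 1 * y * (t ^ 1)⁻¹) := fun x y => by group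
          rw [h3, h3, conj_t_cc, conj_t_cc] at h2
          exact h2
        have h0 := ih (n + 1) le_rfl
        have h1 : Commute (cc a t 0 * cc a t 1) (cc a t (n + 1) * cc a t (n + 1 + 1)) := by
          have h2 := congrArg (fun z => s * z * s⁻¹) h0.eq
          have h3 : ∀ x y : Q, s * (x * y) * s⁻¹
            = (s * x * s⁻¹) * (s * y * s⁻¹) := fun x y => by group
          rw [h3, h3, conj_s_cc hst has, conj_s_cc hst has] at h2
          exact h2
        have h2 : Commute (cc a t 1) (cc a t (n + 1) * cc a t (n + 1 + 1)) := by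
          have e1 := hshift n (by omega)
          have e2 := hshift (n + 1) le_rfl
          have f1 : 1 + n = n + 1 := by ring
          have f2 : 1 + (n + 1) = n + 1 + 1 := by ring
          rw [f1] at e1
          rw [f2] at e2
          exact e1.mul_right e2
        have h3 : Commute (cc a t 0) (cc a t (n + 1) * cc a t (n + 1 + 1)) := by
          have := h1.mul_left h2.inv_left
          simpa using this
        have h4 := h0.inv_right.mul_right h3
        simpa using h4

lemma comm_cc (hst : Commute s t) (hat : Commute a (t * a * t⁻¹))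
    (has : s * a * s⁻¹ = a * (t * a * t⁻¹)) (m n : ℕ) : Commute (cc a t m) (cc a t n) := by
  have key : ∀ m k : ℕ, Commute (cc a t m) (cc a t (m + k)) := by
    intro m k
    have h1 := comm_zero hst hat has k k le_rfl
    have h2 := congrArg (fun z => t ^ m * z * (t ^ m)⁻¹) h1.eq
    have h3 : ∀ x y : Q, t ^ m * (x * y) * (t ^ m)⁻¹
      = (t ^ m * x * (t ^ m)⁻¹) * (t ^ m * y * (t ^ m)⁻¹) := fun x y => by group
    rw [h3, h3, conj_t_cc, conj_t_cc] at h2
    exact h2
  rcases le_total m n with h | h
  · obtain ⟨k, rfl⟩ := Nat.exists_eq_add_of_le h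
    exact key m k
  · obtain ⟨k, rfl⟩ := Nat.exists_eq_add_of_le h
    exact (key n k).symm

lemma exists_iota (h2 : a * a = 1) (hst : Commute s t) (hat : Commute a (t * a * t⁻¹))
    (has : s * a * s⁻¹ = a * (t * a * t⁻¹)) :
    ∃ io0 : P2 → Q, io0 0 = 1 ∧ (∀ p q, io0 (p + q) = io0 p * io0 q) ∧
      (∀ n, io0 (X ^ n) = cc a t n) := by
  set N0 := Subgroup.closure (Set.range (cc a t)) with hN0
  let : CommGroup N0 := Subgroup.closureCommGroupOfComm (by
    rintro _ ⟨m, rfl⟩ _ ⟨n, rfl⟩
    exact (comm_cc hst hat has m n).eq)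
  have hsq : ∀ x : N0, x * x = 1 := by
    rintro ⟨x, hx⟩
    induction hx using Subgroup.closure_induction with
    | mem x hx =>
      obtain ⟨n, rfl⟩ := hx
      apply Subtype.ext
      change cc a t n * cc a t n = 1
      have : cc a t n * cc a t n = t ^ n * (a * a) * (t ^ n)⁻¹ := by simp only [cc]; group
      rw [this, h2]; simp
    | one => apply Subtype.ext; change (1 : Q) * 1 = 1; simp
    | mul x y hx hy ihx ihy =>
      have : (⟨x * y, N0.mul_mem hx hy⟩ : N0) = ⟨x, hx⟩ * ⟨y, hy⟩ := rfl
      rw [this, mul_mul_mul_comm, ihx, ihy, one_mul]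
    | inv x hx ihx =>
      have : (⟨x⁻¹, N0.inv_mem hx⟩ : N0) = (⟨x, hx⟩ : N0)⁻¹ := rfl
      rw [this, ← mul_inv, ihx, inv_one]
  let : Module (ZMod 2) (Additive N0) := AddCommGroup.zmodModule (by
    intro x
    rw [two_nsmul]
    exact hsq (Additive.toMul x))
  set L : P2 →ₗ[ZMod 2] Additive N0 := (Polynomial.basisMonomials (ZMod 2)).constr (ZMod 2)
    (fun n => Additive.ofMul ⟨cc a t n, Subgroup.subset_closure ⟨n, rfl⟩⟩) with hL
  refine ⟨fun p => ((Additive.toMul (L p) : N0) : Q), ?_, ?_, ?_⟩
  · simp only [map_zero]; rfl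
  · intro p q
    simp only [map_add]; rfl
  · intro n
    have : L (X ^ n) = Additive.ofMul ⟨cc a t n, Subgroup.subset_closure ⟨n, rfl⟩⟩ := by
      have h := Module.Basis.constr_basis (Polynomial.basisMonomials (ZMod 2)) (ZMod 2)
        (fun n => (Additive.ofMul ⟨cc a t n, Subgroup.subset_closure ⟨n, rfl⟩⟩ : Additive N0)) n
      rw [Polynomial.coe_basisMonomials] at h
      rw [Polynomial.X_pow_eq_monomial]
      exact h
    simp only [this]; rfl

theorem inj_of_rel (h2 : a * a = 1) (hst : Commute s t) (hat : Commute a (t * a * t⁻¹))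
    (has : s * a * s⁻¹ = a * (t * a * t⁻¹)) (hgen : Subgroup.closure {a, s, t} = ⊤)
    (f : Q →* Bau) (fa : f a = aa) (fs : f s = ss) (ft : f t = tt) : Function.Injective f := by
  obtain ⟨io0, hz, hadd, hX⟩ := exists_iota h2 hst hat has
  -- conjugation rules
  have hct : ∀ p, t * io0 p * t⁻¹ = io0 (X * p) := by
    intro p
    induction p using Polynomial.induction_on' with
    | add p q hp hq =>
      rw [hadd, mul_add, hadd, ← hp, ← hq]; group
    | monomial k b =>
      have hb : b = 0 ∨ b = 1 := by revert b; decide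
      rcases hb with rfl | rfl
      · simp [hz]
      · rw [← Polynomial.X_pow_eq_monomial, ← pow_succ', hX, hX]
        have := conj_t_cc (a := a) (t := t) 1 k
        rw [pow_one] at this
        rw [this, add_comm]
  have hcs : ∀ p, s * io0 p * s⁻¹ = io0 ((X + 1) * p) := by
    intro p
    induction p using Polynomial.induction_on' with
    | add p q hp hq =>
      rw [hadd, mul_add, hadd, ← hp, ← hq]; group
    | monomial k b =>
      have hb : b = 0 ∨ b = 1 := by revert b; decide
      rcases hb with rfl | rfl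
      · simp [hz]
      · rw [← Polynomial.X_pow_eq_monomial, add_mul, one_mul, ← pow_succ', hadd, hX, hX,
          conj_s_cc hst has]
        exact (comm_cc hst hat has _ _).eq
  have hf : ∀ p, f (io0 p) = ⟨io p, 0, 0⟩ := by
    intro p
    induction p using Polynomial.induction_on' with
    | add p q hp hq =>
      rw [hadd, map_mul, hp, hq, el_mul, map_add]
    | monomial k b =>
      have hb : b = 0 ∨ b = 1 := by revert b; decide
      rcases hb with rfl | rfl
      · simp [hz]; rfl
      · rw [← Polynomial.X_pow_eq_monomial, hX, cc, map_mul, map_mul, map_inv, map_pow, fa, ft,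
          conj_aa]
        have h1 : (tt ^ k).i = k := by rw [pow_i]; simp [tt]
        have h2 : (tt ^ k).j = 0 := by rw [pow_j]; simp [tt]
        have h3 := un_nat k 0
        rw [h1, h2]
        rw [pow_zero, mul_one, Nat.cast_zero] at h3
        rw [h3]
  have hcomm : Commute t (t * s) := (Commute.refl t).mul_right hst.symm
  have hcomms : Commute s (t * s) := hst.mul_right (Commute.refl s)
  -- normal form
  have hnf : ∀ q : Q, ∃ (k : ℕ) (p : P2) (i j : ℤ),
      q = ((t * s) ^ k)⁻¹ * io0 p * (t * s) ^ k * (t ^ i * s ^ j) := by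
    intro q
    have hq : q ∈ Subgroup.closure {a, s, t} := by rw [hgen]; trivial
    induction hq using Subgroup.closure_induction_left with
    | one => exact ⟨0, 0, 0, 0, by simp [hz]⟩
    | mul_left x hx y hy ih =>
      obtain ⟨k, p, i, j, rfl⟩ := ih
      rcases hx with rfl | rfl | rfl
      · -- multiplication by a
        have h1 : ∀ k : ℕ, (t * s) ^ k * x * ((t * s) ^ k)⁻¹ = io0 ((X * (X + 1)) ^ k) := by
          intro k
          induction k with
          | zero =>
            have := hX 0
            simp only [cc, pow_zero] at this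
            simp [this]
          | succ k ih =>
            have h2 : (t * s) ^ (k + 1) * x * ((t * s) ^ (k + 1))⁻¹
              = t * (s * ((t * s) ^ k * x * ((t * s) ^ k)⁻¹) * s⁻¹) * t⁻¹ := by
              rw [pow_succ']; simp only [mul_inv_rev, mul_assoc]
            rw [h2, ih, hcs, hct, pow_succ']
            congr 1; ring
        refine ⟨k, (X * (X + 1)) ^ k + p, i, j, ?_⟩
        rw [hadd, ← h1 k]; group
      · -- multiplication by s
        refine ⟨k, (X + 1) * p, i, j + 1, ?_⟩
        rw [← hcs]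
        have h1 : x * ((t * x) ^ k)⁻¹ = ((t * x) ^ k)⁻¹ * x := ((hcomms.pow_right k).inv_right).eq
        have h2 : x⁻¹ * (t * x) ^ k = (t * x) ^ k * x⁻¹ := ((hcomms.inv_left).pow_right k).eq
        have h3 : x * (t ^ i * x ^ j) = t ^ i * x ^ (j + 1) := by
          rw [← mul_assoc, (hst.zpow_right i).eq, mul_assoc, zpow_add_one, ← zpow_one_add,
            add_comm 1 j, zpow_add_one]
        calc x * (((t * x) ^ k)⁻¹ * io0 p * (t * x) ^ k * (t ^ i * x ^ j))
            = (x * ((t * x) ^ k)⁻¹) * io0 p * (x⁻¹ * x) * (t * x) ^ k * (t ^ i * x ^ j) := by group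
          _ = ((t * x) ^ k)⁻¹ * (x * io0 p * x⁻¹) * (x * (t * x) ^ k) * (t ^ i * x ^ j) := by
              rw [h1]; group
          _ = ((t * x) ^ k)⁻¹ * (x * io0 p * x⁻¹) * (t * x) ^ k * (x * (t ^ i * x ^ j)) := by
              rw [(hcomms.pow_right k).eq]; group
          _ = _ := by rw [h3]
      · -- multiplication by t
        refine ⟨k, X * p, i + 1, j, ?_⟩
        rw [← hct]
        have h1 : x * ((x * s) ^ k)⁻¹ = ((x * s) ^ k)⁻¹ * x := ((hcomm.pow_right k).inv_right).eq
        have h3 : x * (x ^ i * s ^ j) = x ^ (i + 1) * s ^ j := by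
          rw [← mul_assoc, ← zpow_one_add, add_comm]
        calc x * (((x * s) ^ k)⁻¹ * io0 p * (x * s) ^ k * (x ^ i * s ^ j))
            = (x * ((x * s) ^ k)⁻¹) * io0 p * (x⁻¹ * x) * (x * s) ^ k * (x ^ i * s ^ j) := by group
          _ = ((x * s) ^ k)⁻¹ * (x * io0 p * x⁻¹) * (x * (x * s) ^ k) * (x ^ i * s ^ j) := by
              rw [h1]; group
          _ = ((x * s) ^ k)⁻¹ * (x * io0 p * x⁻¹) * (x * s) ^ k * (x * (x ^ i * s ^ j)) := by
              rw [(hcomm.pow_right k).eq]; group
          _ = _ := by rw [h3]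
    | inv_mul_cancel x hx y hy ih =>
      obtain ⟨k, p, i, j, rfl⟩ := ih
      rcases hx with rfl | rfl | rfl
      · -- inverse of a is a
        have hinv : x⁻¹ = x := inv_eq_of_mul_eq_one_left h2
        rw [hinv]
        have h1 : ∀ k : ℕ, (t * s) ^ k * x * ((t * s) ^ k)⁻¹ = io0 ((X * (X + 1)) ^ k) := by
          intro k
          induction k with
          | zero =>
            have := hX 0
            simp only [cc, pow_zero] at this
            simp [this]
          | succ k ih =>
            have h2 : (t * s) ^ (k + 1) * x * ((t * s) ^ (k + 1))⁻¹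
              = t * (s * ((t * s) ^ k * x * ((t * s) ^ k)⁻¹) * s⁻¹) * t⁻¹ := by
              rw [pow_succ']; simp only [mul_inv_rev, mul_assoc]
            rw [h2, ih, hcs, hct, pow_succ']
            congr 1; ring
        refine ⟨k, (X * (X + 1)) ^ k + p, i, j, ?_⟩
        rw [hadd, ← h1 k]; group
      · -- s⁻¹
        refine ⟨k + 1, X * p, i, j - 1, ?_⟩
        rw [← hct]
        have hts : x * t = t * x := hst.eq
        have h3 : x⁻¹ * (t ^ i * x ^ j) = t ^ i * x ^ (j - 1) := by
          rw [← mul_assoc, (hst.inv_left.zpow_right i).eq, mul_assoc, ← zpow_neg_one,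
            ← zpow_add, neg_add_eq_sub]
        have h4 : x⁻¹ * ((t * x) ^ k)⁻¹ = ((t * x) ^ (k + 1))⁻¹ * t := by
          have e1 : ((t * x) ^ (k + 1))⁻¹ = (t * x)⁻¹ * ((t * x) ^ k)⁻¹ := by
            rw [pow_succ, mul_inv_rev]
          have e2 : ((t * x) ^ k)⁻¹ * t = t * ((t * x) ^ k)⁻¹ :=
            ((hcomm.pow_right k).inv_right).eq.symm
          rw [e1, mul_assoc, e2, ← mul_assoc]
          congr 1
          group
        have h5 : t⁻¹ * (t * x) ^ (k + 1) = (t * x) ^ k * x := by
          have e1 : (t * x) ^ (k + 1) = (t * x) * (t * x) ^ k := pow_succ' _ _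
          rw [e1, ← (hcomms.pow_right k).eq, mul_assoc t x, inv_mul_cancel_left]
        calc x⁻¹ * (((t * x) ^ k)⁻¹ * io0 p * (t * x) ^ k * (t ^ i * x ^ j))
            = (x⁻¹ * ((t * x) ^ k)⁻¹) * io0 p * ((t * x) ^ k * x) * (x⁻¹ * (t ^ i * x ^ j)) := by
              group
          _ = (((t * x) ^ (k + 1))⁻¹ * t) * io0 p * (t⁻¹ * (t * x) ^ (k + 1))
                * (t ^ i * x ^ (j - 1)) := by rw [h4, h5, h3]
          _ = _ := by group
      · -- t⁻¹
        refine ⟨k + 1, (X + 1) * p, i - 1, j, ?_⟩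
        rw [← hcs]
        have hts : s * x = x * s := hst.eq
        have h3 : x⁻¹ * (x ^ i * s ^ j) = x ^ (i - 1) * s ^ j := by
          rw [← mul_assoc, ← zpow_neg_one, ← zpow_add, neg_add_eq_sub]
        have h4 : x⁻¹ * ((x * s) ^ k)⁻¹ = ((x * s) ^ (k + 1))⁻¹ * s := by
          have e1 : ((x * s) ^ (k + 1))⁻¹ = (x * s)⁻¹ * ((x * s) ^ k)⁻¹ := by
            rw [pow_succ, mul_inv_rev]
          have e2 : ((x * s) ^ k)⁻¹ * s = s * ((x * s) ^ k)⁻¹ :=
            ((hcomms.pow_right k).inv_right).eq.symm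
          rw [e1, mul_assoc, e2, ← mul_assoc]
          congr 1
          rw [← hts]; group
        have h5 : s⁻¹ * (x * s) ^ (k + 1) = (x * s) ^ k * x := by
          have e1 : (x * s) ^ (k + 1) = s * (x * (x * s) ^ k) := by
            rw [pow_succ', ← mul_assoc s x, hts]
          rw [e1, ← (hcomm.pow_right k).eq, inv_mul_cancel_left]
        calc x⁻¹ * (((x * s) ^ k)⁻¹ * io0 p * (x * s) ^ k * (x ^ i * s ^ j))
            = (x⁻¹ * ((x * s) ^ k)⁻¹) * io0 p * ((x * s) ^ k * x) * (x⁻¹ * (x ^ i * s ^ j)) := by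
              group
          _ = (((x * s) ^ (k + 1))⁻¹ * s) * io0 p * (s⁻¹ * (x * s) ^ (k + 1))
                * (x ^ (i - 1) * s ^ j) := by rw [h4, h5, h3]
          _ = _ := by group
  rw [injective_iff_map_eq_one]
  intro q hq
  obtain ⟨k, p, i, j, rfl⟩ := hnf q
  have hi0 : i = 0 := by
    have := congrArg Bau.i hq
    simp only [map_mul, map_inv, map_pow, map_zpow, hf, fs, ft, mul_i, inv_i, pow_i, zpow_i,
      one_i] at this
    simp [tt, ss] at this
    exact this
  have hj0 : j = 0 := by
    have := congrArg Bau.j hq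
    simp only [map_mul, map_inv, map_pow, map_zpow, hf, fs, ft, mul_j, inv_j, pow_j, zpow_j,
      one_j] at this
    simp [tt, ss] at this
    exact this
  subst hi0 hj0
  have h1 : f (io0 p) = 1 := by
    have e1 : io0 p = (t * s) ^ k * (((t * s) ^ k)⁻¹ * io0 p * (t * s) ^ k *
        (t ^ (0 : ℤ) * s ^ (0 : ℤ))) * ((t * s) ^ k)⁻¹ := by
      rw [zpow_zero, zpow_zero]; group
    rw [e1, map_mul, map_mul, hq, mul_one, map_inv, mul_inv_cancel]
  rw [hf] at h1
  have h2 : io p = 0 := congrArg Bau.r h1
  have h3 : p = 0 := io_inj (h2.trans (map_zero io).symm)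
  rw [h3, hz]; simp

end

end Bau

end Pool.Agent.H39
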