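import Mathlib

namespace Pool.Agent.H39

open Polynomial

/-- polynomials over the field with two elements -/
abbrev P2 : Type := (ZMod 2)[X]

/-- the polynomial ring over the field with two elements with `X` and `X+1` inverted -/
abbrev RR : Type := Localization.Away ((X * (X + 1) : P2))

namespace RR

lemma x_ne : (X * (X + 1) : P2) ≠ 0 := by
  apply mul_ne_zero X_ne_zero
  intro h
  have := congrArg (Polynomial.eval 0) h
  simp at this

lemma pow_le : Submonoid.powers ((X * (X + 1) : P2)) ≤ nonZeroDivisors P2 :=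
  powers_le_nonZeroDivisors_of_noZeroDivisors x_ne

instance : IsDomain RR := IsLocalization.isDomain_localization pow_le

/-- the structure map -/
noncomputable def io : P2 →+* RR := algebraMap P2 RR

lemma io_inj : Function.Injective io := IsLocalization.injective RR pow_le

lemma isUnit_io : IsUnit (io (X * (X + 1))) :=
  IsLocalization.Away.algebraMap_isUnit (S := RR) ((X * (X + 1) : P2))

lemma isUnit_x : IsUnit (io X) := by
  have := isUnit_io
  rw [map_mul] at this
  exact isUnit_of_mul_isUnit_left this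

lemma isUnit_y : IsUnit (io (X + 1)) := by
  have := isUnit_io
  rw [map_mul] at this
  exact isUnit_of_mul_isUnit_right this

/-- the unit `X` -/
noncomputable def tau : RRˣ := isUnit_x.unit

/-- the unit `X+1` -/
noncomputable def sig : RRˣ := isUnit_y.unit

lemma tau_val : (tau : RR) = io X := rfl

lemma sig_val : (sig : RR) = io (X + 1) := rfl

lemma sig_eq : (sig : RR) = (tau : RR) + 1 := by
  rw [tau_val, sig_val, map_add, map_one]

/-- the unit with exponents `i`, `j` -/
noncomputable def un (i j : ℤ) : RRˣ := tau ^ i * sig ^ j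

lemma un_zero : un 0 0 = 1 := by simp [un]

lemma un_add (i j k l : ℤ) : un (i + k) (j + l) = un i j * un k l := by
  simp only [un, zpow_add]
  exact mul_mul_mul_comm _ _ _ _

lemma un_one_zero : un 1 0 = tau := by simp [un]

lemma un_zero_one : un 0 1 = sig := by simp [un]

instance : CharP RR 2 := charP_of_injective_ringHom io_inj 2

lemma exists_form (r : RR) : ∃ (n : ℕ) (p : P2), r * ((un n n : RRˣ) : RR) = io p := by
  obtain ⟨n, p, h⟩ := IsLocalization.Away.surj ((X * (X + 1) : P2)) r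
  refine ⟨n, p, ?_⟩
  rw [io, ← h]
  congr 1
  rw [un, zpow_natCast, zpow_natCast, ← mul_pow, Units.val_pow_eq_pow_val, Units.val_mul,
    tau_val, sig_val, ← map_mul]
  rfl

lemma un_nat (a b : ℕ) : ((un a b : RRˣ) : RR) = io (X ^ a * (X + 1) ^ b) := by
  rw [un, zpow_natCast, zpow_natCast, Units.val_mul, Units.val_pow_eq_pow_val,
    Units.val_pow_eq_pow_val, tau_val, sig_val, map_mul, map_pow, map_pow]

/-- comparison of exponents -/
lemma exp_le {a b c d : ℕ} (h : (X ^ a * (X + 1) ^ b : P2) = X ^ c * (X + 1) ^ d) : ¬ a < c := by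
  intro hac
  obtain ⟨e, rfl⟩ := Nat.exists_eq_add_of_lt hac
  have h1 : (X ^ a * (X + 1) ^ b : P2) = X ^ a * (X ^ (e + 1) * (X + 1) ^ d) := by
    rw [h]; ring
  have h2 := mul_left_cancel₀ (pow_ne_zero a X_ne_zero) h1
  have := congrArg (Polynomial.eval 0) h2
  simp at this

lemma y_ne : (X + 1 : P2) ≠ 0 := right_ne_zero_of_mul x_ne

lemma exp_le' {a b c d : ℕ} (h : (X ^ a * (X + 1) ^ b : P2) = X ^ c * (X + 1) ^ d) : ¬ b < d := by
  intro hac
  obtain ⟨e, rfl⟩ := Nat.exists_eq_add_of_lt hac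
  have h1 : ((X + 1) ^ b * X ^ a : P2) = (X + 1) ^ b * ((X + 1) ^ (e + 1) * X ^ c) := by
    rw [mul_comm, h]; ring
  have h2 := mul_left_cancel₀ (pow_ne_zero b y_ne) h1
  have := congrArg (Polynomial.eval 1) h2
  have h2 : (1 + 1 : ZMod 2) = 0 := by decide
  simp [h2] at this

lemma exp_eq {a b c d : ℕ} (h : (X ^ a * (X + 1) ^ b : P2) = X ^ c * (X + 1) ^ d) :
    a = c ∧ b = d :=
  ⟨le_antisymm (not_lt.mp (exp_le h.symm)) (not_lt.mp (exp_le h)),
    le_antisymm (not_lt.mp (exp_le' h.symm)) (not_lt.mp (exp_le' h))⟩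

lemma un_inj {i j k l : ℤ} (h : un i j = un k l) : i = k ∧ j = l := by
  obtain ⟨m, hi, hj, hk, hl⟩ : ∃ m : ℕ, 0 ≤ i + m ∧ 0 ≤ j + m ∧ 0 ≤ k + m ∧ 0 ≤ l + m :=
    ⟨i.natAbs + j.natAbs + k.natAbs + l.natAbs, by omega, by omega, by omega, by omega⟩
  obtain ⟨a, ha⟩ := Int.eq_ofNat_of_zero_le hi
  obtain ⟨b, hb⟩ := Int.eq_ofNat_of_zero_le hj
  obtain ⟨c, hc⟩ := Int.eq_ofNat_of_zero_le hk
  obtain ⟨d, hd⟩ := Int.eq_ofNat_of_zero_le hl
  have h1 : un (i + m) (j + m) = un (k + m) (l + m) := by rw [un_add, un_add, h]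
  rw [ha, hb, hc, hd] at h1
  have h2 : ((un a b : RRˣ) : RR) = ((un c d : RRˣ) : RR) := congrArg (fun u : RRˣ => (u : RR)) h1
  rw [un_nat, un_nat] at h2
  have h3 := exp_eq (io_inj h2)
  omega

/-- logarithmic derivative -/
lemma logder (a b : ℕ) : (X * (X + 1)) * derivative (X ^ a * (X + 1) ^ b : P2)
    = ((a : P2) * (X + 1) + (b : P2) * X) * (X ^ a * (X + 1) ^ b) := by
  have hX : (X : P2) * derivative (X ^ a : P2) = (a : P2) * X ^ a := by
    rcases a with _ | a
    · simp
    · rw [derivative_X_pow, Nat.add_sub_cancel, pow_succ, map_natCast]; ring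
  have hY : (X + 1 : P2) * derivative ((X + 1) ^ b : P2) = (b : P2) * (X + 1) ^ b := by
    rcases b with _ | b
    · simp
    · rw [derivative_pow, Nat.add_sub_cancel, pow_succ, map_natCast, derivative_add, derivative_X,
        derivative_one]; ring
  rw [derivative_mul]
  linear_combination (X + 1) * (X + 1) ^ b * hX + X * X ^ a * hY

lemma two_zero : (2 : P2) = 0 := by
  have h := CharP.cast_eq_zero P2 2
  rwa [Nat.cast_two] at h

lemma add_self (p : P2) : p + p = 0 := by
  rw [← two_mul, two_zero, zero_mul]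

lemma natCast_even (a : ℕ) (h : Even a) : (a : P2) = 0 := by
  obtain ⟨k, rfl⟩ := h
  rw [Nat.cast_add, add_self]

lemma natCast_odd (a : ℕ) (h : Odd a) : (a : P2) = 1 := by
  obtain ⟨k, rfl⟩ := h
  rw [Nat.cast_add, Nat.cast_mul, Nat.cast_two, two_zero, zero_mul, zero_add, Nat.cast_one]

lemma x_ne_zero' : (X : P2) ≠ 0 := X_ne_zero

/-- The three-term unit equation: if `X^a1 (X+1)^b1 + X^a2 (X+1)^b2 = X^a3 (X+1)^b3` over the
field with two elements and `a1 + a2` is odd then the difference vectors are unimodular. -/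
lemma sunit_nat {a1 b1 a2 b2 a3 b3 : ℕ}
    (h : (X ^ a1 * (X + 1) ^ b1 + X ^ a2 * (X + 1) ^ b2 : P2) = X ^ a3 * (X + 1) ^ b3)
    (hodd : Odd (a1 + a2)) :
    ((a1 : ℤ) - a2) * ((b3 : ℤ) - b2) - ((b1 : ℤ) - b2) * ((a3 : ℤ) - a2) = 1 ∨
    ((a1 : ℤ) - a2) * ((b3 : ℤ) - b2) - ((b1 : ℤ) - b2) * ((a3 : ℤ) - a2) = -1 := by
  set P : P2 := X ^ a1 * (X + 1) ^ b1 with hP
  set Q : P2 := X ^ a2 * (X + 1) ^ b2 with hQ
  set W : P2 := X ^ a3 * (X + 1) ^ b3 with hW
  have hP0 : P ≠ 0 := mul_ne_zero (pow_ne_zero _ x_ne_zero') (pow_ne_zero _ y_ne)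
  have hQ0 : Q ≠ 0 := mul_ne_zero (pow_ne_zero _ x_ne_zero') (pow_ne_zero _ y_ne)
  have hW0 : W ≠ 0 := mul_ne_zero (pow_ne_zero _ x_ne_zero') (pow_ne_zero _ y_ne)
  have hd : ((a1 : P2) * (X + 1) + (b1 : P2) * X) * P + ((a2 : P2) * (X + 1) + (b2 : P2) * X) * Q
      = ((a3 : P2) * (X + 1) + (b3 : P2) * X) * W := by
    rw [hP, hQ, hW, ← logder, ← logder, ← logder, ← mul_add, ← derivative_add]
    rw [← hP, ← hQ, ← hW, h]
  have hx1 : (X + 1 + X : P2) = 1 := by
    have := add_self (X : P2)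
    linear_combination this
  have hc : (((a1 + a3 : ℕ) : P2) * (X + 1) + ((b1 + b3 : ℕ) : P2) * X) * P
      = (((a2 + a3 : ℕ) : P2) * (X + 1) + ((b2 + b3 : ℕ) : P2) * X) * Q := by
    push_cast
    linear_combination hd - ((a3 : P2) * (X + 1) + (b3 : P2) * X) * h
      + (((a3 : P2) * (X + 1) + (b3 : P2) * X) * P
        - ((a2 : P2) * (X + 1) + (b2 : P2) * X) * Q) * two_zero
  have hac : Odd (a1 + a3) ∧ Even (a2 + a3) ∨ Even (a1 + a3) ∧ Odd (a2 + a3) := by
    rcases Nat.even_or_odd (a1 + a3) with e1 | e1 <;> rcases Nat.even_or_odd (a2 + a3) with e2 | e2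
    · exfalso
      have h1 := e1.add e2
      have h2 : a1 + a3 + (a2 + a3) = a1 + a2 + 2 * a3 := by ring
      rw [h2] at h1
      have h3 : Odd (a1 + a2 + 2 * a3) := hodd.add_even (even_two_mul _)
      exact (Nat.not_odd_iff_even.mpr h1) h3
    · exact Or.inr ⟨e1, e2⟩
    · exact Or.inl ⟨e1, e2⟩
    · exfalso
      have h1 := e1.add_odd e2
      have h2 : a1 + a3 + (a2 + a3) = a1 + a2 + 2 * a3 := by ring
      rw [h2] at h1
      have h3 : Odd (a1 + a2 + 2 * a3) := hodd.add_even (even_two_mul _)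
      exact (Nat.not_odd_iff_even.mpr h1) h3
  rcases hac with ⟨e1, e2⟩ | ⟨e1, e2⟩
  · rw [natCast_odd _ e1, natCast_even _ e2] at hc
    rcases Nat.even_or_odd (b1 + b3) with f1 | f1 <;>
      rcases Nat.even_or_odd (b2 + b3) with f2 | f2
    · exfalso
      rw [natCast_even _ f1, natCast_even _ f2] at hc
      have : (X + 1 : P2) * P = 0 := by linear_combination hc
      exact mul_ne_zero y_ne hP0 this
    · rw [natCast_even _ f1, natCast_odd _ f2] at hc
      have h1 : (X ^ a1 * (X + 1) ^ (b1 + 1) : P2) = X ^ (a2 + 1) * (X + 1) ^ b2 := by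
        linear_combination hc
      have h2 : (X ^ a3 * (X + 1) ^ (b3 + 1) : P2) = X ^ a2 * (X + 1) ^ b2 := by
        linear_combination hc - (X + 1) * h + Q * hx1
      have g1 := exp_eq h1
      have g2 := exp_eq h2
      right
      have t1 : (a1 : ℤ) - a2 = 1 := by omega
      have t2 : (b1 : ℤ) - b2 = -1 := by omega
      have t3 : (a3 : ℤ) - a2 = 0 := by omega
      have t4 : (b3 : ℤ) - b2 = -1 := by omega
      rw [t1, t2, t3, t4]; norm_num
    · exfalso
      rw [natCast_odd _ f1, natCast_even _ f2] at hc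
      have : P = 0 := by linear_combination hc - P * add_self (X : P2)
      exact hP0 this
    · rw [natCast_odd _ f1, natCast_odd _ f2] at hc
      have h1 : (X ^ a1 * (X + 1) ^ b1 : P2) = X ^ (a2 + 1) * (X + 1) ^ b2 := by
        linear_combination hc - P * add_self (X : P2)
      have h2 : (X ^ a3 * (X + 1) ^ b3 : P2) = X ^ a2 * (X + 1) ^ (b2 + 1) := by
        linear_combination hc - P * add_self (X : P2) - h
      have g1 := exp_eq h1
      have g2 := exp_eq h2
      left
      have t1 : (a1 : ℤ) - a2 = 1 := by omega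
      have t2 : (b1 : ℤ) - b2 = 0 := by omega
      have t3 : (a3 : ℤ) - a2 = 0 := by omega
      have t4 : (b3 : ℤ) - b2 = 1 := by omega
      rw [t1, t2, t3, t4]; norm_num
  · rw [natCast_even _ e1, natCast_odd _ e2] at hc
    rcases Nat.even_or_odd (b1 + b3) with f1 | f1 <;>
      rcases Nat.even_or_odd (b2 + b3) with f2 | f2
    · exfalso
      rw [natCast_even _ f1, natCast_even _ f2] at hc
      have : (X + 1 : P2) * Q = 0 := by linear_combination -hc
      exact mul_ne_zero y_ne hQ0 this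
    · exfalso
      rw [natCast_even _ f1, natCast_odd _ f2] at hc
      have : Q = 0 := by linear_combination -hc - Q * add_self (X : P2)
      exact hQ0 this
    · rw [natCast_odd _ f1, natCast_even _ f2] at hc
      have h1 : (X ^ (a1 + 1) * (X + 1) ^ b1 : P2) = X ^ a2 * (X + 1) ^ (b2 + 1) := by
        linear_combination hc
      have h2 : (X ^ (a3 + 1) * (X + 1) ^ b3 : P2) = X ^ a2 * (X + 1) ^ b2 := by
        linear_combination hc - X * h + Q * hx1
      have g1 := exp_eq h1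
      have g2 := exp_eq h2
      left
      have t1 : (a1 : ℤ) - a2 = -1 := by omega
      have t2 : (b1 : ℤ) - b2 = 1 := by omega
      have t3 : (a3 : ℤ) - a2 = -1 := by omega
      have t4 : (b3 : ℤ) - b2 = 0 := by omega
      rw [t1, t2, t3, t4]; norm_num
    · rw [natCast_odd _ f1, natCast_odd _ f2] at hc
      have h1 : (X ^ (a1 + 1) * (X + 1) ^ b1 : P2) = X ^ a2 * (X + 1) ^ b2 := by
        linear_combination hc + Q * add_self (X : P2)
      have h2 : (X ^ (a3 + 1) * (X + 1) ^ b3 : P2) = X ^ a2 * (X + 1) ^ (b2 + 1) := by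
        linear_combination hc + Q * add_self (X : P2) - X * h
      have g1 := exp_eq h1
      have g2 := exp_eq h2
      right
      have t1 : (a1 : ℤ) - a2 = -1 := by omega
      have t2 : (b1 : ℤ) - b2 = 0 := by omega
      have t3 : (a3 : ℤ) - a2 = -1 := by omega
      have t4 : (b3 : ℤ) - b2 = 1 := by omega
      rw [t1, t2, t3, t4]; norm_num

/-- unit equation with integer exponents -/
lemma sunit {i j k l : ℤ} (h : ((un i j : RRˣ) : RR) + 1 = ((un k l : RRˣ) : RR)) (hi : Odd i) :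
    i * l - j * k = 1 ∨ i * l - j * k = -1 := by
  obtain ⟨m, hi0, hj0, hk0, hl0⟩ : ∃ m : ℕ, 0 ≤ i + m ∧ 0 ≤ j + m ∧ 0 ≤ k + m ∧ 0 ≤ l + m :=
    ⟨i.natAbs + j.natAbs + k.natAbs + l.natAbs, by omega, by omega, by omega, by omega⟩
  obtain ⟨a, ha⟩ := Int.eq_ofNat_of_zero_le hi0
  obtain ⟨b, hb⟩ := Int.eq_ofNat_of_zero_le hj0
  obtain ⟨c, hc⟩ := Int.eq_ofNat_of_zero_le hk0
  obtain ⟨d, hd⟩ := Int.eq_ofNat_of_zero_le hl0
  have h1 : ((un (i + m) (j + m) : RRˣ) : RR) + ((un m m : RRˣ) : RR)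
      = ((un (k + m) (l + m) : RRˣ) : RR) := by
    rw [un_add, un_add, Units.val_mul, Units.val_mul, ← h]; ring
  rw [ha, hb, hc, hd, un_nat, un_nat, un_nat, ← map_add] at h1
  have h2 := io_inj h1
  have hodd : Odd (a + m) := by
    have : ((a + m : ℕ) : ℤ) = i + 2 * m := by push_cast; omega
    have h3 : Odd ((a + m : ℕ) : ℤ) := by
      rw [this]; exact hi.add_even (even_two_mul _)
    exact_mod_cast h3
  have h3 := sunit_nat h2 hodd
  have t1 : (a : ℤ) - m = i := by omega
  have t2 : (b : ℤ) - m = j := by omega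
  have t3 : (c : ℤ) - m = k := by omega
  have t4 : (d : ℤ) - m = l := by omega
  rwa [t1, t2, t3, t4] at h3

end RR

end Pool.Agent.H39
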