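import Pool.Agent.H39.DecorMain

namespace Pool.Agent.H39

open Monoid

namespace Dec

variable {A : Type} [Group A] {a : A}

open SemidirectProduct

variable {Γ : Type} [Group Γ]

variable (a) in
/-- base sign -/
noncomputable def e0 : ℤˣ := sg 1 ((1 : A) : CX a).out

variable (a) in
/-- lift of a homomorphism to the free product -/
noncomputable def liftN (fa : A →* Γ) (fy : M3 →* Γ) : FN (CX a) →* Γ :=
  CoprodI.lift (fun x : CX a => ((MulAut.conj (fa x.out)).toMonoidHom.comp fy).comp
    (zpowGroupHom ((e0 a : ℤˣ) : ℤ)))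

lemma liftN_of (fa : A →* Γ) (fy : M3 →* Γ) (x : CX a) (m : M3) :
    liftN a fa fy (CoprodI.of (M := fun _ : CX a => M3) (i := x) m)
      = fa x.out * fy (m ^ ((e0 a : ℤˣ) : ℤ)) * (fa x.out)⁻¹ := by
  simp [liftN]

lemma liftN_compat (ha : a * a = 1) (ha1 : a ≠ 1) (fa : A →* Γ) (fy : M3 →* Γ)
    (h : ∀ m, fa a * fy m * (fa a)⁻¹ = (fy m)⁻¹) (α : A) (n : FN (CX a)) :
    liftN a fa fy (act ha ha1 α n) = fa α * liftN a fa fy n * (fa α)⁻¹ := by
  have : (liftN a fa fy).comp (act ha ha1 α).toMonoidHom =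
      (MulAut.conj (fa α)).toMonoidHom.comp (liftN a fa fy) := by
    refine CoprodI.ext_hom _ _ fun x => ?_
    refine MonoidHom.ext fun m => ?_
    simp only [MonoidHom.comp_apply, MulEquiv.toMonoidHom_eq_coe, MonoidHom.coe_coe,
      MulAut.conj_apply]
    rw [act_apply, FN.mapN_of, liftN_of, liftN_of]
    have h1 : (((α • x).out : A) : CX a) = ((α * x.out : A) : CX a) := by
      rw [mk_out, ← smul_mk, mk_out]
    rw [mk_eq_iff ha] at h1
    rcases h1 with h1 | h1
    · have h2 : kap a α x = 1 := by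
        unfold kap sg; rw [if_pos h1.symm]
      rw [h2, ← h1, map_mul]
      simp only [Units.val_one, zpow_one]
      group
    · have h2 : kap a α x = -1 := by
        unfold kap sg; rw [if_neg]
        intro h3
        rw [← h3] at h1
        exact ha1 (by simpa using h1.symm)
      have h3 : (α • x).out = α * x.out * a := by
        rw [h1, mul_assoc, ha, mul_one]
      rw [h2, h3, map_mul, map_mul]
      have h4 : (m ^ (((-1 : ℤˣ) : ℤˣ) : ℤ)) ^ ((e0 a : ℤˣ) : ℤ)
          = (m ^ ((e0 a : ℤˣ) : ℤ))⁻¹ := by simp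
      rw [h4, map_inv]
      have h5 := h (m ^ ((e0 a : ℤˣ) : ℤ))
      calc fa α * fa x.out * fa a * (fy (m ^ ((e0 a : ℤˣ) : ℤ)))⁻¹ * (fa α * fa x.out * fa a)⁻¹
          = fa α * fa x.out * (fa a * fy (m ^ ((e0 a : ℤˣ) : ℤ)) * (fa a)⁻¹)⁻¹
            * (fa α * fa x.out)⁻¹ := by group
        _ = fa α * fa x.out * fy (m ^ ((e0 a : ℤˣ) : ℤ)) * (fa α * fa x.out)⁻¹ := by
            rw [h5, inv_inv]
        _ = _ := by group
  exact DFunLike.congr_fun this n

/-- universal property -/
noncomputable def liftG (ha : a * a = 1) (ha1 : a ≠ 1) (fa : A →* Γ) (fy : M3 →* Γ)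
    (h : ∀ m, fa a * fy m * (fa a)⁻¹ = (fy m)⁻¹) : GA ha ha1 →* Γ :=
  SemidirectProduct.lift (liftN a fa fy) fa (by
    intro α
    refine MonoidHom.ext fun n => ?_
    simp only [MonoidHom.comp_apply, MulEquiv.toMonoidHom_eq_coe, MonoidHom.coe_coe,
      MulAut.conj_apply]
    exact liftN_compat ha ha1 fa fy h α n)

lemma liftG_inr (ha : a * a = 1) (ha1 : a ≠ 1) (fa : A →* Γ) (fy : M3 →* Γ)
    (h : ∀ m, fa a * fy m * (fa a)⁻¹ = (fy m)⁻¹) (α : A) :
    liftG ha ha1 fa fy h (inr α) = fa α := by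
  simp [liftG]

lemma liftG_inl (ha : a * a = 1) (ha1 : a ≠ 1) (fa : A →* Γ) (fy : M3 →* Γ)
    (h : ∀ m, fa a * fy m * (fa a)⁻¹ = (fy m)⁻¹) (n : FN (CX a)) :
    liftG ha ha1 fa fy h (inl n) = liftN a fa fy n := by
  simp [liftG]

lemma liftG_iy (ha : a * a = 1) (ha1 : a ≠ 1) (fa : A →* Γ) (fy : M3 →* Γ)
    (h : ∀ m, fa a * fy m * (fa a)⁻¹ = (fy m)⁻¹) (m : M3) :
    liftG ha ha1 fa fy h (iy ha ha1 m) = fy m := by
  rw [iy, liftG_inl, yy, liftN_of]
  have h1 : ((((1 : A) : CX a).out : A) : CX a) = ((1 : A) : CX a) := mk_out _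
  rw [mk_eq_iff ha] at h1
  rcases h1 with h1 | h1
  · have h2 : e0 a = 1 := by unfold e0 sg; rw [if_pos h1]
    rw [h2, ← h1]; simp
  · have h2 : e0 a = -1 := by
      unfold e0 sg; rw [if_neg]
      intro h3
      rw [← h3] at h1
      exact ha1 (by simpa using h1.symm)
    have h3 : ((1 : A) : CX a).out = a := by
      have : ((1 : A) : CX a).out = (((1 : A) : CX a).out * a) * a := by
        rw [mul_assoc, ha, mul_one]
      rw [this, ← h1, one_mul]
    rw [h2, h3]
    have h4 := h m⁻¹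
    rw [map_inv, inv_inv] at h4
    simpa using h4

variable (a) in
/-- base letter homomorphism -/
noncomputable def iyHom (ha : a * a = 1) (ha1 : a ≠ 1) : M3 →* GA ha ha1 :=
  inl.comp (CoprodI.of (M := fun _ : CX a => M3) (i := ((1 : A) : CX a)))

lemma iyHom_apply (ha : a * a = 1) (ha1 : a ≠ 1) (m : M3) : iyHom a ha ha1 m = iy ha ha1 m := rfl

lemma conj_iy (ha : a * a = 1) (ha1 : a ≠ 1) (m : M3) :
    (inr a : GA ha ha1) * iy ha ha1 m * (inr a)⁻¹ = (iy ha ha1 m)⁻¹ := by
  rw [iy, ← map_inv inr, ← inl_aut, act_a_yy, map_inv]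

/-- the decorated group is finitely presented if `A` is -/
theorem fp (ha : a * a = 1) (ha1 : a ≠ 1) [Group.IsFinitelyPresented A] :
    Group.IsFinitelyPresented (GA ha ha1) := by
  set f : Monoid.Coprod A M3 →* GA ha ha1 := Monoid.Coprod.lift inr (iyHom a ha ha1) with hf
  have hfl : ∀ α, f (Coprod.inl α) = inr α := fun α => by simp [hf]
  have hfr : ∀ m, f (Coprod.inr m) = iy ha ha1 m := fun α => by simp [hf, iyHom_apply]
  have hsurj : Function.Surjective f := by
    rw [← MonoidHom.range_eq_top]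
    exact range_top ha ha1 _ (fun α => ⟨Coprod.inl α, hfl α⟩) g3 (by decide)
      ⟨Coprod.inr g3, hfr g3⟩
  refine Group.IsFinitelyPresented.of_surjective f hsurj ?_
  set r0 : Monoid.Coprod A M3 :=
    Coprod.inl a * Coprod.inr g3 * (Coprod.inl a)⁻¹ * Coprod.inr g3 with hr0
  refine ⟨{r0}, Set.finite_singleton _, ?_⟩
  apply le_antisymm
  · apply Subgroup.normalClosure_le_normal
    rintro _ rfl
    simp only [SetLike.mem_coe, MonoidHom.mem_ker, hr0, map_mul, map_inv, hfl, hfr]
    rw [conj_iy]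
    simp
  · set q : Monoid.Coprod A M3 →* (Monoid.Coprod A M3 ⧸ Subgroup.normalClosure {r0}) :=
      QuotientGroup.mk' _ with hq
    have hrel : ∀ m, (q.comp Coprod.inl) a * (q.comp Coprod.inr) m * ((q.comp Coprod.inl) a)⁻¹
        = ((q.comp Coprod.inr) m)⁻¹ := by
      have h1 : (q.comp Coprod.inl) a * (q.comp Coprod.inr) g3 * ((q.comp Coprod.inl) a)⁻¹
        = ((q.comp Coprod.inr) g3)⁻¹ := by
        apply eq_inv_of_mul_eq_one_left
        have : q r0 = 1 := by
          rw [hq]
          exact (QuotientGroup.eq_one_iff _).mpr (Subgroup.subset_normalClosure rfl)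
        simpa [hr0] using this
      intro m
      obtain ⟨k, rfl⟩ : ∃ k : ℕ, m = g3 ^ k := by
        have : ∀ m : M3, m = g3 ^ 0 ∨ m = g3 ^ 1 ∨ m = g3 ^ 2 := by decide
        rcases this m with h | h | h
        · exact ⟨0, h⟩
        · exact ⟨1, h⟩
        · exact ⟨2, h⟩
      rw [map_pow, ← conj_pow, h1, inv_pow]
    set s := liftG ha ha1 (q.comp Coprod.inl) (q.comp Coprod.inr) hrel with hs
    have hsf : s.comp f = q := by
      apply Monoid.Coprod.hom_ext
      · refine MonoidHom.ext fun α => ?_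
        simp only [MonoidHom.comp_apply, hfl]
        rw [hs, liftG_inr]; rfl
      · refine MonoidHom.ext fun m => ?_
        simp only [MonoidHom.comp_apply, hfr]
        rw [hs, liftG_iy]; rfl
    intro z hz
    have h1 : q z = 1 := by
      rw [← hsf, MonoidHom.comp_apply, MonoidHom.mem_ker.mp hz, map_one]
    exact (QuotientGroup.eq_one_iff _).mp h1

/-- extension of an endomorphism of `A` fixing `a` -/
noncomputable def ext (ha : a * a = 1) (ha1 : a ≠ 1) (F : A →* A) (hF : F a = a) :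
    GA ha ha1 →* GA ha ha1 :=
  liftG ha ha1 (inr.comp F) (iyHom a ha ha1) (by
    intro m
    simp only [MonoidHom.comp_apply, hF, iyHom_apply]
    exact conj_iy ha ha1 m)

lemma ext_inr (ha : a * a = 1) (ha1 : a ≠ 1) (F : A →* A) (hF : F a = a) (α : A) :
    ext ha ha1 F hF (inr α) = inr (F α) := by
  rw [ext, liftG_inr]; rfl

lemma ext_inl (ha : a * a = 1) (ha1 : a ≠ 1) (F : A →* A) (hF : F a = a) (n : FN (CX a)) :
    ext ha ha1 F hF (inl n) = inl (FN.mapN (fun x => F x.out • ((1 : A) : CX a))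
      (fun x => kap a (F x.out) ((1 : A) : CX a) * e0 a) n) := by
  have : (ext ha ha1 F hF).comp inl = inl.comp (FN.mapN (fun x => F x.out • ((1 : A) : CX a))
      (fun x => kap a (F x.out) ((1 : A) : CX a) * e0 a)) := by
    refine CoprodI.ext_hom _ _ fun x => ?_
    refine MonoidHom.ext fun m => ?_
    simp only [MonoidHom.comp_apply]
    rw [ext, liftG_inl, liftN_of, FN.mapN_of, iyHom_apply, iy, MonoidHom.comp_apply,
      ← map_inv inr, ← inl_aut, act_apply, yy, FN.mapN_of]
    congr 2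
    rw [← zpow_mul, Units.val_mul, mul_comm]
  exact DFunLike.congr_fun this n

lemma ext_inj (ha : a * a = 1) (ha1 : a ≠ 1) (F : A →* A) (hF : F a = a)
    (hinj : Function.Injective F) : Function.Injective (ext ha ha1 F hF) := by
  have hj : Function.Injective (fun x : CX a => F x.out • ((1 : A) : CX a)) := by
    intro x y hxy
    simp only [smul_mk, mul_one] at hxy
    rw [mk_eq_iff ha] at hxy
    rw [← mk_out x, ← mk_out y, mk_eq_iff ha]
    rcases hxy with h | h
    · exact Or.inl (hinj h)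
    · right
      apply hinj
      rw [h, map_mul, hF]
  rw [injective_iff_map_eq_one]
  intro g hg
  have h1 : ext ha ha1 F hF g = inl (FN.mapN (fun x => F x.out • ((1 : A) : CX a))
      (fun x => kap a (F x.out) ((1 : A) : CX a) * e0 a) g.left) * inr (F g.right) := by
    conv_lhs => rw [← inl_left_mul_inr_right g, map_mul, ext_inl, ext_inr]
  rw [h1] at hg
  have h2 : F g.right = 1 := by
    have := congrArg SemidirectProduct.right hg
    simpa using this
  have h3 : g.right = 1 := hinj (h2.trans (map_one F).symm)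
  rw [h2, map_one, mul_one] at hg
  have h4 := inl_injective (hg.trans (map_one inl).symm)
  have h5 : g.left = 1 := FN.mapN_injective hj _ (h4.trans (map_one _).symm)
  rw [← inl_left_mul_inr_right g, h3, h5]
  simp

lemma ext_right (ha : a * a = 1) (ha1 : a ≠ 1) (F : A →* A) (hF : F a = a)
    (g : GA ha ha1) : (ext ha ha1 F hF g).right = F g.right := by
  conv_lhs => rw [← inl_left_mul_inr_right g, map_mul, ext_inl, ext_inr]
  simp

end Dec

end Pool.Agent.H39
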