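import Mathlib

namespace Pool.Agent.H39

open Monoid SemidirectProduct

/-- cyclic group of order five -/
abbrev M5 : Type := Multiplicative (ZMod 5)

/-- sign action -/
def sa : ℤˣ →* MulAut M5 where
  toFun e :=
    { toFun := fun m => m ^ (e : ℤ)
      invFun := fun m => m ^ (e : ℤ)
      left_inv := by
        intro m
        rcases Int.units_eq_one_or e with rfl | rfl <;> simp
      right_inv := by
        intro m
        rcases Int.units_eq_one_or e with rfl | rfl <;> simp
      map_mul' := fun m n => mul_zpow m n _ }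
  map_one' := by ext m; simp
  map_mul' := by
    intro e e'
    ext m
    simp only [MulEquiv.coe_mk, Equiv.coe_fn_mk, MulAut.mul_apply, Units.val_mul]
    rw [← zpow_mul, mul_comm]

@[simp] lemma sa_apply (e : ℤˣ) (m : M5) : sa e m = m ^ (e : ℤ) := rfl

variable {Γ : Type} [Group Γ]

/-- the twisted product of the cyclic group of order five with `Γ` along a sign character -/
abbrev TW (χ : Γ →* ℤˣ) : Type := SemidirectProduct M5 Γ (sa.comp χ)

/-- semidirect products with finite kernel are finitely presented -/
theorem fp_semi {M : Type} [Group M] [Finite M] [Group.IsFinitelyPresented Γ] (θ : Γ →* MulAut M) :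
    Group.IsFinitelyPresented (SemidirectProduct M Γ θ) := by
  obtain ⟨k, p, hp, -⟩ := (inferInstance : Group.IsFinitelyPresented Γ)
  -- finite generating set
  set S : Set Γ := Set.range (fun i : Fin k => p (FreeGroup.of i)) with hS
  have hSfin : S.Finite := Set.finite_range _
  have hStop : Subgroup.closure S = ⊤ := by
    have h1 : S = p '' (Set.range (FreeGroup.of : Fin k → FreeGroup (Fin k))) := by
      rw [hS, ← Set.range_comp]; rfl
    rw [h1, ← MonoidHom.map_closure, FreeGroup.closure_range_of, ← MonoidHom.range_eq_map]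
    exact MonoidHom.range_eq_top.mpr hp
  set f : Monoid.Coprod M Γ →* SemidirectProduct M Γ θ := Monoid.Coprod.lift inl inr with hf
  have hfl : ∀ m, f (Coprod.inl m) = inl m := fun α => by simp [hf]
  have hfr : ∀ g, f (Coprod.inr g) = inr g := fun α => by simp [hf]
  have hsurj : Function.Surjective f := by
    intro z
    refine ⟨Coprod.inl z.left * Coprod.inr z.right, ?_⟩
    rw [map_mul, hfl, hfr, inl_left_mul_inr_right]
  refine Group.IsFinitelyPresented.of_surjective f hsurj ?_
  set T : Set (Monoid.Coprod M Γ) :=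
    Set.image2 (fun (m : M) (g : Γ) =>
      Coprod.inr g * Coprod.inl m * (Coprod.inr g)⁻¹ * (Coprod.inl (θ g m))⁻¹) Set.univ S with hT
  refine ⟨T, Set.Finite.image2 _ Set.finite_univ hSfin, ?_⟩
  apply le_antisymm
  · apply Subgroup.normalClosure_le_normal
    rintro _ ⟨m, -, g, -, rfl⟩
    simp only [SetLike.mem_coe, MonoidHom.mem_ker, map_mul, map_inv, hfl, hfr]
    rw [inl_aut, map_inv]
    group
  · set q : Monoid.Coprod M Γ →* (Monoid.Coprod M Γ ⧸ Subgroup.normalClosure T) :=
      QuotientGroup.mk' _ with hq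
    have hrel : ∀ g : Γ, ∀ m : M, (q.comp Coprod.inl) (θ g m)
        = (q.comp Coprod.inr) g * (q.comp Coprod.inl) m * ((q.comp Coprod.inr) g)⁻¹ := by
      intro g
      have hg : g ∈ Subgroup.closure S := by rw [hStop]; trivial
      induction hg using Subgroup.closure_induction with
      | mem x hx =>
        intro m
        have h1 : q (Coprod.inr x * Coprod.inl m * (Coprod.inr x)⁻¹ * (Coprod.inl (θ x m))⁻¹)
            = 1 := by
          rw [hq]
          exact (QuotientGroup.eq_one_iff _).mpr
            (Subgroup.subset_normalClosure ⟨m, Set.mem_univ _, x, hx, rfl⟩)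
        rw [map_mul, map_inv, mul_inv_eq_one] at h1
        simp only [MonoidHom.comp_apply]
        rw [← h1]
        simp
      | one => intro m; simp
      | mul x y hx hy ihx ihy =>
        intro m
        rw [map_mul, MulAut.mul_apply, ihx, ihy, map_mul]
        group
      | inv x hx ihx =>
        intro m
        have h1 := ihx (θ x⁻¹ m)
        rw [← MulAut.mul_apply, ← map_mul, mul_inv_cancel, map_one, MulAut.one_apply] at h1
        rw [map_inv (q.comp Coprod.inr), h1]
        group
    set s : SemidirectProduct M Γ θ →* _ :=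
      SemidirectProduct.lift (q.comp Coprod.inl) (q.comp Coprod.inr) (by
        intro g
        refine MonoidHom.ext fun m => ?_
        simp only [MonoidHom.comp_apply, MulEquiv.toMonoidHom_eq_coe, MonoidHom.coe_coe,
          MulAut.conj_apply]
        exact hrel g m) with hs
    have hsf : s.comp f = q := by
      apply Monoid.Coprod.hom_ext
      · refine MonoidHom.ext fun α => ?_
        simp only [MonoidHom.comp_apply, hfl]
        rw [hs, lift_inl]; rfl
      · refine MonoidHom.ext fun m => ?_
        simp only [MonoidHom.comp_apply, hfr]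
        rw [hs, lift_inr]; rfl
    intro z hz
    have h1 : q z = 1 := by
      rw [← hsf, MonoidHom.comp_apply, MonoidHom.mem_ker.mp hz, map_one]
    exact (QuotientGroup.eq_one_iff _).mp h1

/-- co-hopficity of the twisted product -/
theorem tw_cohopf (χ : Γ →* ℤˣ) (h5 : ∀ g : Γ, g ^ 5 = 1 → g = 1)
    (hG : ∀ ψ : Γ →* Γ, Function.Injective ψ → (∀ g, χ (ψ g) = χ g) → Function.Surjective ψ)
    (φ : TW χ →* TW χ) (hφ : Function.Injective φ) : Function.Surjective φ := by
  have hM : ∀ m : M5, ∃ m' : M5, φ (inl m) = inl m' := by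
    intro m
    have hm5 : m ^ 5 = 1 := by revert m; decide
    have h1 : (φ (inl m)) ^ 5 = 1 := by
      rw [← map_pow, ← map_pow, hm5, map_one, map_one]
    have h2 : (φ (inl m)).right = 1 := by
      apply h5
      have := congrArg (rightHom : TW χ →* Γ) h1
      rw [map_pow] at this
      simpa using this
    refine ⟨(φ (inl m)).left, ?_⟩
    conv_lhs => rw [← inl_left_mul_inr_right (φ (inl m)), h2]
    simp
  choose μ hμ using hM
  have hμinj : Function.Injective μ := by
    intro m m' h
    have : φ (inl m) = φ (inl m') := by rw [hμ, hμ, h]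
    exact inl_injective (hφ this)
  have hμsurj : Function.Surjective μ := Finite.injective_iff_surjective.mp hμinj
  set ψ : Γ →* Γ := rightHom.comp (φ.comp inr) with hψ
  have hψapp : ∀ g, ψ g = (φ (inr g)).right := fun g => rfl
  have hψinj : Function.Injective ψ := by
    rw [injective_iff_map_eq_one]
    intro g hg
    have h1 : φ (inr g) = inl (φ (inr g)).left := by
      conv_lhs => rw [← inl_left_mul_inr_right (φ (inr g)), ← hψapp, hg]
      simp
    obtain ⟨m, hm⟩ := hμsurj (φ (inr g)).left
    rw [← hm, ← hμ] at h1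
    have h2 := hφ h1
    have := congrArg SemidirectProduct.right h2
    simpa using this
  have hψχ : ∀ g, χ (ψ g) = χ g := by
    intro g
    -- choose a nontrivial m
    set m : M5 := Multiplicative.ofAdd 1 with hm
    have hm1 : m ≠ 1 := by decide
    have hconj : (inr g : TW χ) * inl m * (inr g)⁻¹ = inl (m ^ ((χ g : ℤˣ) : ℤ)) := by
      rw [← map_inv inr, ← inl_aut]; rfl
    have h1 := congrArg φ hconj
    rw [map_mul, map_mul, map_inv, hμ] at h1
    have h2 : φ (inl (m ^ ((χ g : ℤˣ) : ℤ))) = inl ((μ m) ^ ((χ g : ℤˣ) : ℤ)) := by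
      rw [map_zpow, map_zpow, hμ, map_zpow]
    rw [h2] at h1
    have h3 : φ (inr g) * inl (μ m) * (φ (inr g))⁻¹ = inl ((μ m) ^ ((χ (ψ g) : ℤˣ) : ℤ)) := by
      have h4 : φ (inr g) = inl (φ (inr g)).left * inr (ψ g) := by
        rw [hψapp, inl_left_mul_inr_right]
      rw [h4]
      have h5 : (inl (φ (inr g)).left : TW χ) * inr (ψ g) * inl (μ m) *
          (inl (φ (inr g)).left * inr (ψ g))⁻¹ = inl (φ (inr g)).left *
            (inr (ψ g) * inl (μ m) * (inr (ψ g))⁻¹) * (inl (φ (inr g)).left)⁻¹ := by group
      rw [h5, ← map_inv inr, ← inl_aut, ← map_inv, ← map_mul, ← map_mul]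
      congr 1
      rw [mul_comm, ← mul_assoc, inv_mul_cancel, one_mul]
      rfl
    rw [h3] at h1
    have h4 := inl_injective h1
    have hμm : μ m ≠ 1 := by
      intro h
      have h5 := hμ m
      rw [h, map_one] at h5
      have h6 : (inl m : TW χ) = 1 := hφ (h5.trans (map_one φ).symm)
      exact hm1 (inl_injective (h6.trans (map_one inl).symm))
    have key : ∀ z : M5, z ≠ 1 → z ≠ z⁻¹ := by decide
    rcases Int.units_eq_one_or (χ (ψ g)) with h5 | h5 <;>
      rcases Int.units_eq_one_or (χ g) with h6 | h6
    · rw [h5, h6]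
    · rw [h5, h6] at h4
      exact absurd (by simpa using h4) (key _ hμm)
    · rw [h5, h6] at h4
      exact absurd (by simpa using h4.symm) (key _ hμm)
    · rw [h5, h6]
  have hψs := hG ψ hψinj hψχ
  intro z
  obtain ⟨g, hg⟩ := hψs z.right
  obtain ⟨m, hm⟩ := hμsurj (z.left * ((φ (inr g)).left)⁻¹)
  refine ⟨inl m * inr g, ?_⟩
  rw [map_mul, hμ, hm]
  have h4 : φ (inr g) = inl (φ (inr g)).left * inr (ψ g) := by
    rw [hψapp, inl_left_mul_inr_right]
  rw [h4]
  simp only [left_inl, mul_left, right_inl, map_one, MulAut.one_apply, left_inr, mul_one]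
  rw [hg, ← mul_assoc, ← map_mul]
  simp only [inv_mul_cancel_right]
  exact inl_left_mul_inr_right z

/-- the kernel of the sign character of the twisted product is not co-hopfian -/
theorem tw_ker (χ : Γ →* ℤˣ) (E : Γ →* Γ) (hE : Function.Injective E) (hχ : ∀ g, χ (E g) = 1)
    (g0 : Γ) (hg0 : χ g0 = 1) (hg0' : g0 ∉ E.range) :
    ∃ f : (χ.comp (rightHom : TW χ →* Γ)).ker →* (χ.comp (rightHom : TW χ →* Γ)).ker,
      Function.Injective f ∧ ¬ Function.Surjective f := by
  have hmem : ∀ k : (χ.comp (rightHom : TW χ →* Γ)).ker, χ (k : TW χ).right = 1 := by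
    intro k
    have := k.2
    rwa [MonoidHom.mem_ker] at this
  set f : (χ.comp (rightHom : TW χ →* Γ)).ker →* (χ.comp (rightHom : TW χ →* Γ)).ker :=
    { toFun := fun k => ⟨⟨(k : TW χ).left, E (k : TW χ).right⟩, by
        rw [MonoidHom.mem_ker]
        exact hχ _⟩
      map_one' := by
        apply Subtype.ext
        apply SemidirectProduct.ext
        · rfl
        · simp
      map_mul' := by
        intro k l
        apply Subtype.ext
        apply SemidirectProduct.ext
        · simp only [Subgroup.coe_mul, mul_left, MonoidHom.comp_apply]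
          rw [hmem k, hχ]
        · simp } with hf
  refine ⟨f, ?_, ?_⟩
  · intro k l hkl
    have h1 := congrArg (fun z : (χ.comp (rightHom : TW χ →* Γ)).ker => (z : TW χ).left) hkl
    have h2 := congrArg (fun z : (χ.comp (rightHom : TW χ →* Γ)).ker => (z : TW χ).right) hkl
    apply Subtype.ext
    apply SemidirectProduct.ext
    · exact h1
    · exact hE h2
  · intro hs
    obtain ⟨k, hk⟩ := hs ⟨inr g0, by rw [MonoidHom.mem_ker]; simpa using hg0⟩
    have h2 := congrArg (fun z : (χ.comp (rightHom : TW χ →* Γ)).ker => (z : TW χ).right) hk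
    exact hg0' ⟨_, h2⟩

/-- the dihedral group of order ten -/
abbrev D10 : Type := SemidirectProduct M5 ℤˣ sa

/-- the fibre product inside the direct product with the dihedral group -/
def fib (χ : Γ →* ℤˣ) : Subgroup (D10 × Γ) :=
  MonoidHom.ker ((rightHom.comp (MonoidHom.fst D10 Γ)) * (χ.comp (MonoidHom.snd D10 Γ)))

lemma mem_fib (χ : Γ →* ℤˣ) (z : D10 × Γ) : z ∈ fib χ ↔ z.1.right = χ z.2 := by
  unfold fib
  rw [MonoidHom.mem_ker]
  simp only [MonoidHom.mul_apply, MonoidHom.comp_apply, MonoidHom.coe_fst, MonoidHom.coe_snd,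
    rightHom_eq_right]
  constructor
  · intro h
    have h1 : z.1.right = (χ z.2)⁻¹ := eq_inv_of_mul_eq_one_left h
    rw [h1, Int.units_inv_eq_self]
  · intro h
    rw [h, Int.units_mul_self]

/-- the fibre product is the twisted product -/
def fibEquiv (χ : Γ →* ℤˣ) : TW χ ≃* fib χ where
  toFun z := ⟨(⟨z.left, χ z.right⟩, z.right), by rw [mem_fib]⟩
  invFun w := ⟨(w : D10 × Γ).1.left, (w : D10 × Γ).2⟩
  left_inv z := rfl
  right_inv w := by
    apply Subtype.ext
    apply Prod.ext
    · apply SemidirectProduct.ext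
      · rfl
      · exact ((mem_fib χ _).mp w.2).symm
    · rfl
  map_mul' z w := by
    apply Subtype.ext
    apply Prod.ext
    · apply SemidirectProduct.ext
      · rfl
      · simp
    · rfl

lemma index_ker_two {G : Type} [Group G] (f : G →* ℤˣ) (hf : Function.Surjective f) :
    f.ker.index = 2 := by
  rw [Subgroup.index_ker, MonoidHom.range_eq_top.mpr hf, Subgroup.card_top]
  simp

end Pool.Agent.H39
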