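import Pool.Agent.H39.BauFP
import Pool.Agent.H39.DecorLift
import Pool.Agent.H39.Twist

namespace Pool.Agent.H39

open SemidirectProduct

namespace Bau

/-- finite relations of Baumslag's group -/
def rels : Set (FreeGroup (Fin 3)) :=
  {FreeGroup.of 0 * FreeGroup.of 0,
    FreeGroup.of 1 * FreeGroup.of 2 * (FreeGroup.of 1)⁻¹ * (FreeGroup.of 2)⁻¹,
    FreeGroup.of 0 * (FreeGroup.of 2 * FreeGroup.of 0 * (FreeGroup.of 2)⁻¹) *
      (FreeGroup.of 0)⁻¹ * (FreeGroup.of 2 * FreeGroup.of 0 * (FreeGroup.of 2)⁻¹)⁻¹,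
    FreeGroup.of 1 * FreeGroup.of 0 * (FreeGroup.of 1)⁻¹ *
      (FreeGroup.of 0 * (FreeGroup.of 2 * FreeGroup.of 0 * (FreeGroup.of 2)⁻¹))⁻¹}

/-- generators -/
noncomputable def gens : Fin 3 → Bau := ![aa, ss, tt]

lemma comm_st : Commute ss tt := by
  rw [Commute, SemiconjBy]
  ext <;> simp [ss, tt]

lemma rel_sat : ∀ r ∈ rels, FreeGroup.lift gens r = 1 := by
  intro r hr
  rcases hr with rfl | rfl | rfl | rfl
  · simp [gens, aa_mul]
  · simp only [map_mul, map_inv, FreeGroup.lift_apply_of, gens, Matrix.cons_val]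
    rw [comm_st.eq]; group
  · simp only [map_mul, map_inv, FreeGroup.lift_apply_of, gens, Matrix.cons_val]
    rw [conj_aa, aa, (comm_el _ _).eq]; group
  · simp only [map_mul, map_inv, FreeGroup.lift_apply_of, gens, Matrix.cons_val]
    rw [conj_aa, conj_aa, aa, el_mul]
    simp only [ss, tt, RR.un_one_zero, RR.un_zero_one, RR.sig_eq]
    rw [add_comm]; group

lemma gen_top (S : Subgroup Bau) (h1 : aa ∈ S) (h2 : ss ∈ S) (h3 : tt ∈ S) : S = ⊤ := by
  have hx : ∀ m n : ℤ, tt ^ m * ss ^ n ∈ S := fun m n =>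
    S.mul_mem (S.zpow_mem h3 _) (S.zpow_mem h2 _)
  have hi : ∀ m n : ℤ, (tt ^ m * ss ^ n).i = m := by
    intro m n; rw [mul_i, zpow_i, zpow_i]; simp [tt, ss]
  have hj : ∀ m n : ℤ, (tt ^ m * ss ^ n).j = n := by
    intro m n; rw [mul_j, zpow_j, zpow_j]; simp [tt, ss]
  have hun : ∀ m n : ℤ, (⟨(RR.un m n : RRˣ), 0, 0⟩ : Bau) ∈ S := by
    intro m n
    have h4 := S.mul_mem (S.mul_mem (hx m n) h1) (S.inv_mem (hx m n))
    rw [conj_aa, hi, hj] at h4
    exact h4
  rw [eq_top_iff]
  intro z _
  have hz : z = ⟨z.r - (tt ^ z.i * ss ^ z.j).r, 0, 0⟩ * (tt ^ z.i * ss ^ z.j) := by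
    ext
    · simp [RR.un_zero]
    · simp [hi]
    · simp [hj]
  rw [hz]
  exact S.mul_mem (el_mem S hun _) (hx _ _)

instance : Group.IsFinitelyPresented Bau := by
  have : Finite rels := by
    unfold rels
    exact Set.Finite.to_subtype (by simp)
  set f : PresentedGroup rels →* Bau := PresentedGroup.toGroup rel_sat with hf
  have f0 : f (PresentedGroup.of 0) = aa := by rw [hf, PresentedGroup.toGroup.of]; rfl
  have f1 : f (PresentedGroup.of 1) = ss := by rw [hf, PresentedGroup.toGroup.of]; rfl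
  have f2 : f (PresentedGroup.of 2) = tt := by rw [hf, PresentedGroup.toGroup.of]; rfl
  have hsurj : Function.Surjective f := by
    rw [← MonoidHom.range_eq_top]
    exact gen_top _ ⟨_, f0⟩ ⟨_, f1⟩ ⟨_, f2⟩
  have hinj : Function.Injective f := by
    refine inj_of_rel (a := PresentedGroup.of 0) (s := PresentedGroup.of 1)
      (t := PresentedGroup.of 2) ?_ ?_ ?_ ?_ ?_ f f0 f1 f2
    · have := PresentedGroup.one_of_mem (rels := rels)
        (x := FreeGroup.of 0 * FreeGroup.of 0) (by simp [rels])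
      exact this
    · have := PresentedGroup.one_of_mem (rels := rels)
        (x := FreeGroup.of 1 * FreeGroup.of 2 * (FreeGroup.of 1)⁻¹ * (FreeGroup.of 2)⁻¹)
        (by simp [rels])
      rw [map_mul, map_mul, map_mul, map_inv, map_inv, mul_inv_eq_one, mul_inv_eq_iff_eq_mul]
        at this
      exact this
    · have := PresentedGroup.one_of_mem (rels := rels)
        (x := FreeGroup.of 0 * (FreeGroup.of 2 * FreeGroup.of 0 * (FreeGroup.of 2)⁻¹) *
      (FreeGroup.of 0)⁻¹ * (FreeGroup.of 2 * FreeGroup.of 0 * (FreeGroup.of 2)⁻¹)⁻¹)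
        (by simp [rels])
      rw [map_mul, map_mul, map_mul, map_inv, map_inv, mul_inv_eq_one, mul_inv_eq_iff_eq_mul,
        map_mul, map_mul, map_inv] at this
      exact this
    · have := PresentedGroup.one_of_mem (rels := rels)
        (x := FreeGroup.of 1 * FreeGroup.of 0 * (FreeGroup.of 1)⁻¹ *
      (FreeGroup.of 0 * (FreeGroup.of 2 * FreeGroup.of 0 * (FreeGroup.of 2)⁻¹))⁻¹)
        (by simp [rels])
      rw [map_mul, map_inv, mul_inv_eq_one, map_mul, map_mul, map_inv, map_mul, map_mul, map_mul,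
        map_inv] at this
      exact this
    · rw [← PresentedGroup.closure_range_of rels]
      congr 1
      ext x
      constructor
      · rintro (rfl | rfl | rfl)
        · exact ⟨0, rfl⟩
        · exact ⟨1, rfl⟩
        · exact ⟨2, rfl⟩
      · rintro ⟨k, rfl⟩
        fin_cases k
        · exact Or.inl rfl
        · exact Or.inr (Or.inl rfl)
        · exact Or.inr (Or.inr rfl)
  exact Group.IsFinitelyPresented.equiv (MulEquiv.ofBijective f ⟨hinj, hsurj⟩)

end Bau

/-- the decorated Baumslag group -/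
abbrev GG : Type := Dec.GA Bau.aa_mul Bau.aa_ne

/-- sign character of the decorated group -/
noncomputable def chiG : GG →* ℤˣ := Bau.chi.comp rightHom

lemma chiG_apply (g : GG) : chiG g = Bau.chi g.right := rfl

lemma chiG_surj : Function.Surjective chiG := by
  intro e
  rcases Int.units_eq_one_or e with rfl | rfl
  · exact ⟨1, map_one _⟩
  · exact ⟨inr Bau.tt, by rw [chiG_apply]; simpa using Bau.chi_tt⟩

/-- Frobenius endomorphism of the decorated group -/
noncomputable def frobG : GG →* GG := Dec.ext Bau.aa_mul Bau.aa_ne Bau.frob Bau.frob_aa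

lemma frobG_inj : Function.Injective frobG :=
  Dec.ext_inj _ _ _ _ Bau.frob_inj

lemma chiG_frobG (g : GG) : chiG (frobG g) = 1 := by
  rw [chiG_apply, frobG, Dec.ext_right]
  exact Bau.chi_frob _

lemma ss_not_mem : (inr Bau.ss : GG) ∉ frobG.range := by
  rintro ⟨g, hg⟩
  have h := congrArg SemidirectProduct.right hg
  rw [frobG, Dec.ext_right, right_inr] at h
  exact Bau.ss_not_frob _ h

lemma GG_rigid (ψ : GG →* GG) (hψ : Function.Injective ψ) (hχ : ∀ g, chiG (ψ g) = chiG g) :
    Function.Surjective ψ :=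
  Dec.surj_of_inj Bau.aa_mul Bau.aa_ne Bau.comm_conj
    (fun β h => Bau.odd_torsion 3 (by decide) β h) Bau.chi
    (fun θ _ h2 h3 => Bau.rigid θ h2 h3) ψ hψ hχ

lemma GG_five (g : GG) (hg : g ^ 5 = 1) : g = 1 :=
  Dec.no_five Bau.aa_mul Bau.aa_ne (fun β h => Bau.odd_torsion 5 (by decide) β h) g hg

instance : Group.IsFinitelyPresented GG := Dec.fp Bau.aa_mul Bau.aa_ne

/-- the twisted product is finitely presented -/
instance : Group.IsFinitelyPresented (TW chiG) := fp_semi _

theorem TW_cohopf (f : TW chiG →* TW chiG) (hf : Function.Injective f) : Function.Surjective f :=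
  tw_cohopf chiG GG_five GG_rigid f hf

theorem exists_not_surj_ker :
    ∃ f : (chiG.comp (rightHom : TW chiG →* GG)).ker →* (chiG.comp (rightHom : TW chiG →* GG)).ker,
      Function.Injective f ∧ ¬ Function.Surjective f :=
  tw_ker chiG frobG frobG_inj chiG_frobG (inr Bau.ss)
    (by rw [chiG_apply]; simpa using Bau.chi_ss) ss_not_mem

theorem index_ker : (chiG.comp (rightHom : TW chiG →* GG)).ker.index = 2 :=
  index_ker_two _ (chiG_surj.comp rightHom_surjective)

theorem exists_not_surj_prod :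
    ∃ f : D10 × GG →* D10 × GG, Function.Injective f ∧ ¬ Function.Surjective f := by
  refine ⟨MonoidHom.prodMap (MonoidHom.id _) frobG, ?_, ?_⟩
  · rintro ⟨x, y⟩ ⟨x', y'⟩ h
    have h1 := congrArg Prod.fst h
    have h2 := congrArg Prod.snd h
    exact Prod.ext h1 (frobG_inj h2)
  · intro hs
    obtain ⟨⟨x, y⟩, h⟩ := hs (1, inr Bau.ss)
    exact ss_not_mem ⟨y, congrArg Prod.snd h⟩

theorem fp_prod : Group.IsFinitelyPresented (D10 × GG) := by
  have : Finite D10 := Finite.of_equiv _ SemidirectProduct.equivProd.symm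
  have : Group.IsFinitelyPresented (SemidirectProduct D10 GG 1) := fp_semi _
  exact Group.IsFinitelyPresented.equiv
    (SemidirectProduct.mulEquivProd : SemidirectProduct D10 GG 1 ≃* D10 × GG)

theorem index_fib : (fib chiG).index = 2 := by
  refine index_ker_two _ ?_
  intro e
  obtain ⟨g, hg⟩ := chiG_surj e
  refine ⟨(1, g), ?_⟩
  simp only [MonoidHom.mul_apply, MonoidHom.comp_apply, MonoidHom.coe_fst, MonoidHom.coe_snd,
    map_one, one_mul]
  exact hg

theorem fib_cohopf (f : fib chiG →* fib chiG) (hf : Function.Injective f) :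
    Function.Surjective f := by
  set e := fibEquiv chiG
  have h := TW_cohopf ((e.symm.toMonoidHom.comp f).comp e.toMonoidHom)
    (e.symm.injective.comp (hf.comp e.injective))
  intro z
  obtain ⟨w, hw⟩ := h (e.symm z)
  exact ⟨e w, e.symm.injective hw⟩

end Pool.Agent.H39
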