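import Pool.Agent.H39.Torsion

namespace Pool.Agent.H39

open Monoid

namespace FN

variable {X Y Z : Type}

lemma mapN_mapN (j : X → Y) (η : X → ℤˣ) (j' : Y → Z) (η' : Y → ℤˣ) (n : FN X) :
    mapN j' η' (mapN j η n) = mapN (fun x => j' (j x)) (fun x => η' (j x) * η x) n := by
  have : (mapN j' η').comp (mapN j η) = mapN (fun x => j' (j x)) (fun x => η' (j x) * η x) := by
    refine CoprodI.ext_hom _ _ fun x => ?_
    refine MonoidHom.ext fun m => ?_
    simp only [MonoidHom.comp_apply, mapN_of]
    congr 1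
    rw [← zpow_mul, Units.val_mul, mul_comm]
  exact DFunLike.congr_fun this n

lemma mapN_id (n : FN X) : mapN (fun x => x) (fun _ => 1) n = n := by
  have : mapN (fun x : X => x) (fun _ => 1) = MonoidHom.id _ := by
    refine CoprodI.ext_hom _ _ fun x => ?_
    refine MonoidHom.ext fun m => ?_
    simp [mapN_of]
  exact DFunLike.congr_fun this n

lemma mapN_congr {j j' : X → Y} {η η' : X → ℤˣ} (h : ∀ x, j x = j' x) (h' : ∀ x, η x = η' x) :
    mapN j η = mapN j' η' := by
  rw [funext h, funext h']

end FN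

namespace Dec

variable {A : Type} [Group A] (a : A)

/-- cosets of the cyclic subgroup generated by `a` -/
abbrev CX : Type := A ⧸ Subgroup.zpowers a

open Classical in
/-- sign comparing two elements -/
noncomputable def sg (g h : A) : ℤˣ := if g = h then 1 else -1

variable {a}

lemma mem_zp (ha : a * a = 1) (g : A) : g ∈ Subgroup.zpowers a ↔ g = 1 ∨ g = a := by
  constructor
  · rintro ⟨k, rfl⟩
    rcases Int.even_or_odd' k with ⟨m, rfl | rfl⟩
    · left
      simp only [zpow_mul]
      have : a ^ (2 : ℤ) = 1 := by rw [zpow_two, ha]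
      rw [this, one_zpow]
    · right
      simp only [zpow_add, zpow_mul, zpow_one]
      have : a ^ (2 : ℤ) = 1 := by rw [zpow_two, ha]
      rw [this, one_zpow, one_mul]
  · rintro (rfl | rfl)
    · exact one_mem _
    · exact Subgroup.mem_zpowers _

lemma mk_eq_iff (ha : a * a = 1) (g h : A) :
    ((g : CX a) = (h : CX a)) ↔ h = g ∨ h = g * a := by
  rw [QuotientGroup.eq, mem_zp ha]
  constructor
  · rintro (h1 | h1)
    · left; exact (inv_mul_eq_one.mp h1).symm
    · right; rw [← h1]; group
  · rintro (h1 | h1)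
    · left; rw [h1]; group
    · right; rw [h1]; group

lemma sg_mul (ha : a * a = 1) (ha1 : a ≠ 1) {g h k : A} (h1 : (g : CX a) = (h : CX a))
    (h2 : (h : CX a) = (k : CX a)) : sg g h * sg h k = sg g k := by
  rw [mk_eq_iff ha] at h1 h2
  have hne : ∀ g : A, ¬ g = g * a := fun g h => ha1 (by simpa using h.symm)
  have hne' : ∀ g : A, ¬ g * a = g := fun g h => ha1 (by simpa using h)
  rcases h1 with rfl | rfl <;> rcases h2 with rfl | rfl
  · simp [sg]
  · simp [sg]
  · simp [sg]
  · have : g * a * a = g := by rw [mul_assoc, ha, mul_one]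
    simp [sg, this, hne, hne']

lemma sg_smul (g h k : A) : sg (k * g) (k * h) = sg g h := by
  unfold sg
  by_cases h1 : g = h
  · simp [h1]
  · have h2 : ¬ k * g = k * h := fun h2 => h1 (mul_left_cancel h2)
    rw [if_neg h1, if_neg h2]

variable (a) in
/-- sign cocycle -/
noncomputable def kap (α : A) (x : CX a) : ℤˣ := sg (α • x).out (α * x.out)

lemma mk_out (x : CX a) : ((x.out : A) : CX a) = x := Quotient.out_eq x

lemma smul_mk (α g : A) : α • ((g : A) : CX a) = ((α * g : A) : CX a) := rfl

lemma kap_mul (ha : a * a = 1) (ha1 : a ≠ 1) (α β : A) (x : CX a) :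
    kap a (α * β) x = kap a α (β • x) * kap a β x := by
  unfold kap
  rw [← sg_smul (β • x).out (β * x.out) α, mul_smul]
  rw [sg_mul ha ha1 (k := α * (β * x.out))]
  · rw [mul_assoc]
  · rw [mk_out, ← smul_mk, mk_out]
  · rw [← smul_mk, ← smul_mk, mk_out, ← smul_mk, mk_out]

lemma kap_one (x : CX a) : kap a 1 x = 1 := by
  unfold kap; simp [sg]

/-- stabilisers are generated by conjugates of `a` -/
lemma stab (ha : a * a = 1) {w : A} (hw : w ≠ 1) {x : CX a} (h : w • x = x) :
    w = x.out * a * x.out⁻¹ ∧ kap a w x = -1 := by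
  have h1 : ((x.out : A) : CX a) = ((w * x.out : A) : CX a) := by
    rw [← smul_mk, mk_out, h]
  rw [mk_eq_iff ha] at h1
  rcases h1 with h1 | h1
  · exact absurd (by simpa using h1) hw
  · refine ⟨by rw [← h1]; group, ?_⟩
    unfold kap
    rw [h]
    have : ¬ x.out = w * x.out := by
      intro h2
      exact hw (by simpa using h2.symm)
    simp [sg, this]

/-- the action of `A` on the free product -/
noncomputable def act (ha : a * a = 1) (ha1 : a ≠ 1) : A →* MulAut (FN (CX a)) where
  toFun α :=
    { toFun := FN.mapN (fun x => α • x) (kap a α)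
      invFun := FN.mapN (fun x => α⁻¹ • x) (kap a α⁻¹)
      left_inv := by
        intro n
        rw [FN.mapN_mapN]
        rw [FN.mapN_congr (j' := fun x => x) (η' := fun _ => 1)]
        · exact FN.mapN_id n
        · intro x; simp
        · intro x; rw [← kap_mul ha ha1]; simp [kap_one]
      right_inv := by
        intro n
        rw [FN.mapN_mapN]
        rw [FN.mapN_congr (j' := fun x => x) (η' := fun _ => 1)]
        · exact FN.mapN_id n
        · intro x; simp
        · intro x; rw [← kap_mul ha ha1]; simp [kap_one]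
      map_mul' := fun m n => map_mul _ _ _ }
  map_one' := by
    ext n
    simp only [MulEquiv.coe_mk, Equiv.coe_fn_mk, MulAut.one_apply]
    rw [FN.mapN_congr (j' := fun x => x) (η' := fun _ => 1)]
    · exact FN.mapN_id n
    · intro x; simp
    · intro x; exact kap_one x
  map_mul' := by
    intro α β
    ext n
    simp only [MulEquiv.coe_mk, Equiv.coe_fn_mk, MulAut.mul_apply]
    rw [FN.mapN_mapN]
    refine DFunLike.congr_fun (FN.mapN_congr ?_ ?_) n
    · intro x; exact mul_smul _ _ _
    · intro x; exact kap_mul ha ha1 _ _ _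

lemma act_apply (ha : a * a = 1) (ha1 : a ≠ 1) (α : A) (n : FN (CX a)) :
    act ha ha1 α n = FN.mapN (fun x => α • x) (kap a α) n := rfl

lemma smul_inj (α : A) : Function.Injective (fun x : CX a => α • x) :=
  MulAction.injective α

/-- the decorated group -/
abbrev GA (ha : a * a = 1) (ha1 : a ≠ 1) : Type :=
  SemidirectProduct (FN (CX a)) A (act ha ha1)

/-- generator of order three -/
def g3 : M3 := Multiplicative.ofAdd 1

variable (a) in
/-- base letter -/
noncomputable def yy (m : M3) : FN (CX a) :=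
  CoprodI.of (M := fun _ : CX a => M3) (i := ((1 : A) : CX a)) m

lemma a_smul_base (ha : a * a = 1) : a • ((1 : A) : CX a) = ((1 : A) : CX a) := by
  rw [smul_mk, mul_one]
  exact ((mk_eq_iff ha _ _).mpr (Or.inr (by simp))).symm

lemma act_a_yy (ha : a * a = 1) (ha1 : a ≠ 1) (m : M3) : act ha ha1 a (yy a m) = (yy a m)⁻¹ := by
  rw [act_apply, yy, FN.mapN_of, (stab ha ha1 (a_smul_base ha)).2, a_smul_base ha]
  simp

lemma act_out_yy (ha : a * a = 1) (ha1 : a ≠ 1) (x : CX a) (m : M3) :
    ∃ m' : M3, act ha ha1 x.out (yy a m') = CoprodI.of (M := fun _ : CX a => M3) (i := x) m := by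
  have h1 : x.out • ((1 : A) : CX a) = x := by
    rw [smul_mk, mul_one, mk_out]
  refine ⟨m ^ ((kap a x.out ((1 : A) : CX a) : ℤˣ) : ℤ), ?_⟩
  rw [act_apply, yy, FN.mapN_of, h1, ← zpow_mul]
  congr 1
  rcases Int.units_eq_one_or (kap a x.out ((1 : A) : CX a)) with h | h <;> simp [h]

lemma act_out_inv (ha : a * a = 1) (ha1 : a ≠ 1) (x : CX a) {m : M3} (hm : m ≠ 1) :
    ∃ m' : M3, m' ≠ 1 ∧
      act ha ha1 (x.out)⁻¹ (CoprodI.of (M := fun _ : CX a => M3) (i := x) m) = yy a m' := by
  have h1 : (x.out)⁻¹ • x = ((1 : A) : CX a) := by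
    have : (x.out)⁻¹ • ((x.out : A) : CX a) = ((1 : A) : CX a) := by
      rw [smul_mk]; simp
    rwa [mk_out] at this
  refine ⟨_, FN.zpow_unit_ne_one hm (kap a (x.out)⁻¹ x), ?_⟩
  rw [act_apply, yy, FN.mapN_of, h1]

end Dec

end Pool.Agent.H39
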