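import Pool.Agent.H39.Decor

namespace Pool.Agent.H39

open Monoid

namespace Dec

variable {A : Type} [Group A] {a : A}

open SemidirectProduct

/-- the embedded copy of the letters of the base factor -/
noncomputable def iy (ha : a * a = 1) (ha1 : a ≠ 1) (m : M3) : GA ha ha1 := inl (yy a m)

lemma range_top (ha : a * a = 1) (ha1 : a ≠ 1) (S : Subgroup (GA ha ha1))
    (h1 : ∀ α : A, (inr α : GA ha ha1) ∈ S) (m : M3) (hm : m ≠ 1) (h2 : iy ha ha1 m ∈ S) :
    S = ⊤ := by
  -- all base letters
  have hall : ∀ m' : M3, iy ha ha1 m' ∈ S := by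
    intro m'
    have : ∃ k : ℕ, m' = m ^ k := by
      revert m m'
      have : ∀ m : M3, m ≠ 1 → ∀ m' : M3, m' = m ^ 0 ∨ m' = m ^ 1 ∨ m' = m ^ 2 := by decide
      intro m hm _ m'
      rcases this m hm m' with h | h | h
      · exact ⟨0, h⟩
      · exact ⟨1, h⟩
      · exact ⟨2, h⟩
    obtain ⟨k, rfl⟩ := this
    have : iy ha ha1 (m ^ k) = (iy ha ha1 m) ^ k := by
      simp [iy, yy, map_pow]
    rw [this]
    exact S.pow_mem h2 k
  have hletters : ∀ (x : CX a) (m' : M3),
      (inl (CoprodI.of (M := fun _ : CX a => M3) (i := x) m') : GA ha ha1) ∈ S := by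
    intro x m'
    obtain ⟨m'', h⟩ := act_out_yy ha ha1 x m'
    rw [← h, inl_aut]
    exact S.mul_mem (S.mul_mem (h1 _) (hall _)) (h1 _)
  have hinl : ∀ n : FN (CX a), (inl n : GA ha ha1) ∈ S := by
    intro n
    induction n using CoprodI.induction_on with
    | one => rw [map_one]; exact S.one_mem
    | of x m' => exact hletters x m'
    | mul x y hx hy => rw [map_mul]; exact S.mul_mem hx hy
  rw [eq_top_iff]
  intro g _
  rw [← inl_left_mul_inr_right g]
  exact S.mul_mem (hinl _) (h1 _)

theorem surj_of_inj (ha : a * a = 1) (ha1 : a ≠ 1)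
    (hc : ∀ v : A, Commute (v * a * v⁻¹) a)
    (h3 : ∀ β : A, β ^ 3 = 1 → β = 1)
    {Γ : Type} [CommGroup Γ] (χ : A →* Γ)
    (hA : ∀ ψ : A →* A, Function.Injective ψ → ψ a = a → (∀ α, χ (ψ α) = χ α) →
      Function.Surjective ψ)
    (φ : GA ha ha1 →* GA ha ha1) (hφ : Function.Injective φ)
    (hχ : ∀ g, χ (φ g).right = χ g.right) : Function.Surjective φ := by
  -- fixed point facts
  have hfix : ∀ w : A, w ≠ 1 → ∀ n : FN (CX a), act ha ha1 w n = n → n = 1 := by
    intro w hw n hn
    exact FN.fixed_eq_one (smul_inj w) (fun x hx => (stab ha hw hx).2) hn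
  -- step 1
  obtain ⟨m, α, hα⟩ : ∃ (m : FN (CX a)) (α : A), φ (inr a) = inl m * inr α * (inl m)⁻¹ := by
    set g := φ (inr a) with hg
    have hgg : g * g = 1 := by
      rw [hg, ← map_mul, ← map_mul, ha, map_one, map_one]
    have hr : g.right * g.right = 1 := by
      have := congrArg SemidirectProduct.right hgg
      simpa using this
    have hl : g.left * act ha ha1 g.right g.left = 1 := by
      have := congrArg SemidirectProduct.left hgg
      simpa using this
    have hl' : FN.mapN (fun x => g.right • x) (kap a g.right) g.left = (g.left)⁻¹ := by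
      rw [← act_apply ha ha1]
      exact (inv_eq_of_mul_eq_one_right hl).symm
    obtain ⟨m, hm⟩ := FN.cross (smul_inj g.right) hl'
    rw [← act_apply ha ha1] at hm
    refine ⟨m, g.right, ?_⟩
    conv_lhs => rw [← inl_left_mul_inr_right g]
    rw [hm]
    rw [map_mul, map_inv, inl_aut, map_inv inr]
    group
  -- the element α is nontrivial
  have hα1 : α ≠ 1 := by
    rintro rfl
    have h1 : φ (inr a) = 1 := by rw [hα]; simp
    have h2 : (inr a : GA ha ha1) = 1 := hφ (h1.trans (map_one φ).symm)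
    exact ha1 (by simpa using congrArg SemidirectProduct.right h2)
  -- first conjugation
  set φ1 : GA ha ha1 →* GA ha ha1 := (MulAut.conj ((inl m)⁻¹ : GA ha ha1)).toMonoidHom.comp φ
    with hφ1
  have hφ1inj : Function.Injective φ1 := (MulAut.conj _).injective.comp hφ
  have hφ1a : φ1 (inr a) = inr α := by
    simp only [hφ1, MonoidHom.comp_apply, hα]
    simp [MulAut.conj_apply, mul_assoc]
  have hφ1χ : ∀ g, χ (φ1 g).right = χ g.right := by
    intro g
    rw [← hχ g]
    simp only [hφ1, MonoidHom.comp_apply]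
    simp [MulAut.conj_apply]
  -- elements commuting with a
  have hB : ∀ g : A, Commute g a → ∃ β : A, φ1 (inr g) = inr β := by
    intro g hg
    refine ⟨(φ1 (inr g)).right, ?_⟩
    have h1 : φ1 (inr g) * inr α = inr α * φ1 (inr g) := by
      rw [← hφ1a, ← map_mul, ← map_mul, ← map_mul, ← map_mul, hg.eq]
    have h2 : (φ1 (inr g)).left = act ha ha1 α (φ1 (inr g)).left := by
      have := congrArg SemidirectProduct.left h1
      simpa using this
    have h3 : (φ1 (inr g)).left = 1 := hfix α hα1 _ h2.symm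
    conv_lhs => rw [← inl_left_mul_inr_right (φ1 (inr g)), h3]
    simp
  have hC : ∀ v : A, ∃ β : A, φ1 (inr v) = inr β := by
    intro v
    obtain ⟨β', hβ'⟩ := hB _ (hc v)
    have hβ1 : β' ≠ 1 := by
      rintro rfl
      have h1 : φ1 (inr (v * a * v⁻¹)) = 1 := by rw [hβ']; simp
      have h2 : (inr (v * a * v⁻¹) : GA ha ha1) = 1 := hφ1inj (h1.trans (map_one φ1).symm)
      have h3 : v * a * v⁻¹ = 1 := by simpa using congrArg SemidirectProduct.right h2
      apply ha1
      have : a = v⁻¹ * (v * a * v⁻¹) * v := by group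
      rw [this, h3]; simp
    refine ⟨(φ1 (inr v)).right, ?_⟩
    have h1 : φ1 (inr v) * inr α = inr β' * φ1 (inr v) := by
      rw [← hφ1a, ← hβ', ← map_mul, ← map_mul, ← map_mul, ← map_mul]
      congr 2
      group
    have h2 : (φ1 (inr v)).left = act ha ha1 β' (φ1 (inr v)).left := by
      have := congrArg SemidirectProduct.left h1
      simpa using this
    have h3 : (φ1 (inr v)).left = 1 := hfix β' hβ1 _ h2.symm
    conv_lhs => rw [← inl_left_mul_inr_right (φ1 (inr v)), h3]
    simp
  -- the image of the letter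
  have hg3 : (g3 : M3) ≠ 1 := by decide
  obtain ⟨l, hl1, hl2, hl3⟩ : ∃ l : Ltr (CX a), l.2 ≠ 1 ∧ φ1 (iy ha ha1 g3) = inl (FN.ofL l) ∧
      α • l.1 = l.1 := by
    set h := φ1 (iy ha ha1 g3) with hh
    have hy3 : (iy ha ha1 g3) ^ 3 = 1 := by
      have : g3 ^ 3 = 1 := by decide
      simp only [iy, yy]
      rw [← map_pow, ← map_pow, this, map_one, map_one]
    have hh3 : h ^ 3 = 1 := by rw [hh, ← map_pow, hy3, map_one]
    have hr : h.right = 1 := by
      apply h3
      have := congrArg (rightHom : GA ha ha1 →* A) hh3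
      rw [map_pow] at this
      simpa using this
    have hhl : h = inl h.left := by
      conv_lhs => rw [← inl_left_mul_inr_right h, hr]
      simp
    have hl3 : h.left ^ 3 = 1 := by
      rw [hhl, ← map_pow] at hh3
      exact inl_injective (hh3.trans (map_one inl).symm)
    have hl1 : h.left ≠ 1 := by
      intro h1
      rw [h1, map_one] at hhl
      have h2 : iy ha ha1 g3 = 1 := hφ1inj (hhl.trans (map_one φ1).symm)
      have h4 : yy a g3 = 1 := by
        have := congrArg SemidirectProduct.left h2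
        simpa [iy] using this
      exact hg3 (CoprodI.of_injective (M := fun _ : CX a => M3) _ (h4.trans (map_one _).symm))
    have hrel : (inr a : GA ha ha1) * iy ha ha1 g3 * (inr a)⁻¹ = (iy ha ha1 g3)⁻¹ := by
      rw [iy, ← map_inv inr, ← inl_aut, act_a_yy, map_inv]
    have hrel2 : act ha ha1 α h.left = (h.left)⁻¹ := by
      have h5 := congrArg φ1 hrel
      rw [map_mul, map_mul, map_inv, map_inv, hφ1a, ← hh, hhl, ← map_inv inr, ← inl_aut,
        ← map_inv] at h5
      have := congrArg SemidirectProduct.left h5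
      simpa using this
    obtain ⟨l, hl1', hl2, hl3'⟩ := FN.letter_of_order_three (smul_inj α)
      (fun x hx => (stab ha hα1 hx).2) hl1 hl3 hrel2
    exact ⟨l, hl1', by rw [hhl, hl2], hl3'⟩
  have hαx := (stab ha hα1 hl3).1
  set g := l.1.out with hgdef
  set φ2 : GA ha ha1 →* GA ha ha1 := (MulAut.conj ((inr g)⁻¹ : GA ha ha1)).toMonoidHom.comp φ1
    with hφ2
  have hφ2inj : Function.Injective φ2 := (MulAut.conj _).injective.comp hφ1inj
  have hφ2a : φ2 (inr a) = inr a := by
    simp only [hφ2, MonoidHom.comp_apply, hφ1a]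
    simp only [MulEquiv.toMonoidHom_eq_coe, MonoidHom.coe_coe, MulAut.conj_apply, inv_inv]
    rw [← map_inv, ← map_mul, ← map_mul, hαx]
    congr 1
    group
  have hφ2χ : ∀ g, χ (φ2 g).right = χ g.right := by
    intro g
    rw [← hφ1χ g]
    simp only [hφ2, MonoidHom.comp_apply]
    simp [MulAut.conj_apply]
  have hφ2A : ∀ v : A, ∃ β : A, φ2 (inr v) = inr β := by
    intro v
    obtain ⟨β, hβ⟩ := hC v
    refine ⟨g⁻¹ * β * g, ?_⟩
    simp only [hφ2, MonoidHom.comp_apply, hβ]
    simp only [MulEquiv.toMonoidHom_eq_coe, MonoidHom.coe_coe, MulAut.conj_apply, inv_inv]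
    simp only [map_mul, map_inv]
  obtain ⟨m', hm', hφ2y⟩ : ∃ m' : M3, m' ≠ 1 ∧ φ2 (iy ha ha1 g3) = iy ha ha1 m' := by
    obtain ⟨m', hm', h⟩ := act_out_inv ha ha1 l.1 hl1
    refine ⟨m', hm', ?_⟩
    simp only [hφ2, MonoidHom.comp_apply, hl2]
    simp only [MulEquiv.toMonoidHom_eq_coe, MonoidHom.coe_coe, MulAut.conj_apply, inv_inv]
    rw [iy, ← h, ← hgdef, inl_aut, map_inv, inv_inv]
    rfl
  -- the induced map on A
  set ψ : A →* A := rightHom.comp (φ2.comp inr) with hψ
  have hψφ : ∀ v : A, φ2 (inr v) = inr (ψ v) := by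
    intro v
    obtain ⟨β, hβ⟩ := hφ2A v
    simp only [hψ, MonoidHom.comp_apply, hβ, rightHom_inr]
  have hψinj : Function.Injective ψ := by
    intro v w hvw
    have : φ2 (inr v) = φ2 (inr w) := by rw [hψφ, hψφ, hvw]
    exact inr_injective (hφ2inj this)
  have hψa : ψ a = a := by
    simp only [hψ, MonoidHom.comp_apply, hφ2a, rightHom_inr]
  have hψχ : ∀ α, χ (ψ α) = χ α := by
    intro α
    have := hφ2χ (inr α)
    rw [hψφ] at this
    simpa using this
  have hψs := hA ψ hψinj hψa hψχ
  have hrange : φ2.range = ⊤ := by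
    refine range_top ha ha1 _ ?_ m' hm' ⟨_, hφ2y⟩
    intro α
    obtain ⟨v, rfl⟩ := hψs α
    exact ⟨inr v, hψφ v⟩
  have hφ2s : Function.Surjective φ2 := MonoidHom.range_eq_top.mp hrange
  -- conclude
  have hφ1s : Function.Surjective φ1 := by
    intro z
    obtain ⟨w, hw⟩ := hφ2s (MulAut.conj ((inr g)⁻¹ : GA ha ha1) z)
    exact ⟨w, (MulAut.conj ((inr g)⁻¹ : GA ha ha1)).injective hw⟩
  intro z
  obtain ⟨w, hw⟩ := hφ1s (MulAut.conj ((inl m)⁻¹ : GA ha ha1) z)
  exact ⟨w, (MulAut.conj ((inl m)⁻¹ : GA ha ha1)).injective hw⟩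

/-- torsion of order five -/
theorem no_five (ha : a * a = 1) (ha1 : a ≠ 1) (h5 : ∀ β : A, β ^ 5 = 1 → β = 1)
    (g : GA ha ha1) (hg : g ^ 5 = 1) : g = 1 := by
  have hr : g.right = 1 := by
    apply h5
    have := congrArg (rightHom : GA ha ha1 →* A) hg
    rw [map_pow] at this
    simpa using this
  have hgl : g = inl g.left := by
    conv_lhs => rw [← inl_left_mul_inr_right g, hr]
    simp
  have hl : g.left ^ 5 = 1 := by
    rw [hgl, ← map_pow] at hg
    exact inl_injective (hg.trans (map_one inl).symm)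
  rw [hgl, FN.no_five_torsion _ hl, map_one]

end Dec

end Pool.Agent.H39
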