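import Mathlib

namespace Pool.Agent.H39

open Monoid

/-- cyclic group of order three, written multiplicatively -/
abbrev M3 : Type := Multiplicative (ZMod 3)

/-- free product of copies of the cyclic group of order three indexed by `X` -/
abbrev FN (X : Type) : Type := Monoid.CoprodI (fun _ : X => M3)

/-- letters -/
abbrev Ltr (X : Type) : Type := Σ _ : X, M3

namespace FN

variable {X Y : Type}

/-- a letter as an element of the free product -/
def ofL (l : Ltr X) : FN X := CoprodI.of (M := fun _ : X => M3) (i := l.1) l.2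

/-- product of a list of letters -/
def wprod (L : List (Ltr X)) : FN X := (L.map ofL).prod

@[simp] lemma wprod_nil : wprod ([] : List (Ltr X)) = 1 := rfl

@[simp] lemma wprod_cons (l : Ltr X) (L : List (Ltr X)) : wprod (l :: L) = ofL l * wprod L := by
  simp [wprod]

@[simp] lemma wprod_append (L L' : List (Ltr X)) : wprod (L ++ L') = wprod L * wprod L' := by
  simp [wprod]

/-- reduced lists -/
def Red (L : List (Ltr X)) : Prop :=
  (∀ l ∈ L, l.2 ≠ 1) ∧ L.IsChain (fun l l' => l.1 ≠ l'.1)

lemma exists_red (n : FN X) : ∃ L, Red L ∧ wprod L = n := by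
  classical
  refine ⟨(CoprodI.Word.equiv n).toList, ⟨(CoprodI.Word.equiv n).ne_one,
    (CoprodI.Word.equiv n).chain_ne⟩, ?_⟩
  exact CoprodI.Word.equiv.symm_apply_apply n

lemma red_unique {L L' : List (Ltr X)} (h : Red L) (h' : Red L') (he : wprod L = wprod L') :
    L = L' := by
  classical
  have := CoprodI.Word.equiv.symm.injective
    (a₁ := (⟨L, h.1, h.2⟩ : CoprodI.Word (fun _ : X => M3)))
    (a₂ := ⟨L', h'.1, h'.2⟩) he
  exact congrArg CoprodI.Word.toList this

/-- signed relabelling of letters -/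
def mapL (j : X → Y) (η : X → ℤˣ) (l : Ltr X) : Ltr Y := ⟨j l.1, l.2 ^ (η l.1 : ℤ)⟩

/-- signed relabelling of the free product -/
def mapN (j : X → Y) (η : X → ℤˣ) : FN X →* FN Y :=
  CoprodI.lift (fun x => (CoprodI.of (M := fun _ : Y => M3) (i := j x)).comp
    (zpowGroupHom (η x : ℤ)))

lemma mapN_of (j : X → Y) (η : X → ℤˣ) (x : X) (m : M3) :
    mapN j η (CoprodI.of (M := fun _ : X => M3) (i := x) m)
      = CoprodI.of (M := fun _ : Y => M3) (i := j x) (m ^ (η x : ℤ)) := by
  simp [mapN]

lemma mapN_ofL (j : X → Y) (η : X → ℤˣ) (l : Ltr X) :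
    mapN j η (ofL l) = ofL (mapL j η l) := mapN_of _ _ _ _

lemma mapN_wprod (j : X → Y) (η : X → ℤˣ) (L : List (Ltr X)) :
    mapN j η (wprod L) = wprod (L.map (mapL j η)) := by
  induction L with
  | nil => simp
  | cons l L ih => simp [mapN_ofL, ih]

lemma zpow_unit_ne_one {m : M3} (hm : m ≠ 1) (e : ℤˣ) : m ^ (e : ℤ) ≠ 1 := by
  rcases Int.units_eq_one_or e with rfl | rfl
  · simpa using hm
  · simpa using hm

lemma Red.map {j : X → Y} (hj : Function.Injective j) (η : X → ℤˣ) {L : List (Ltr X)}
    (h : Red L) : Red (L.map (mapL j η)) := by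
  refine ⟨?_, ?_⟩
  · intro l hl
    rw [List.mem_map] at hl
    obtain ⟨l', hl', rfl⟩ := hl
    exact zpow_unit_ne_one (h.1 l' hl') _
  · rw [List.isChain_map]
    refine h.2.imp ?_
    intro a b hab
    exact fun h => hab (hj h)

lemma mapN_injective {j : X → Y} (hj : Function.Injective j) (η : X → ℤˣ) :
    Function.Injective (mapN j η) := by
  rw [injective_iff_map_eq_one]
  intro n hn
  obtain ⟨L, hL, rfl⟩ := exists_red n
  rw [mapN_wprod] at hn
  have h1 : L.map (mapL j η) = [] := red_unique (hL.map hj η) ⟨by simp, by simp⟩ (by simpa using hn)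
  have : L = [] := by simpa using h1
  simp [this]

/-- inverse letter -/
def invL (l : Ltr X) : Ltr X := ⟨l.1, l.2⁻¹⟩

lemma ofL_invL (l : Ltr X) : ofL (invL l) = (ofL l)⁻¹ := by
  simp [ofL, invL]

lemma wprod_inv (L : List (Ltr X)) : wprod (L.map invL).reverse = (wprod L)⁻¹ := by
  induction L with
  | nil => simp
  | cons l L ih => simp [ofL_invL, ih]

lemma Red.inv {L : List (Ltr X)} (h : Red L) : Red (L.map invL).reverse := by
  refine ⟨?_, ?_⟩
  · intro l hl
    rw [List.mem_reverse, List.mem_map] at hl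
    obtain ⟨l', hl', rfl⟩ := hl
    have := h.1 l' hl'
    simpa [invL] using this
  · rw [List.isChain_reverse, List.isChain_map]
    refine h.2.imp ?_
    intro a b hab
    exact fun h => hab h.symm

lemma Red.ne_one {L : List (Ltr X)} (h : Red L) (hL : L ≠ []) : wprod L ≠ 1 := by
  intro h1
  exact hL (red_unique h ⟨by simp, by simp⟩ (by simpa using h1))

/-- iterated concatenation -/
def lpow (L : List (Ltr X)) : ℕ → List (Ltr X)
  | 0 => []
  | k + 1 => L ++ lpow L k

lemma wprod_lpow (L : List (Ltr X)) (k : ℕ) : wprod (lpow L k) = wprod L ^ k := by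
  induction k with
  | zero => simp [lpow]
  | succ k ih => simp [lpow, ih, pow_succ']

lemma red_lpow {c d : Ltr X} {L : List (Ltr X)} (h : Red (c :: (L ++ [d]))) (hcd : d.1 ≠ c.1)
    (k : ℕ) : Red (lpow (c :: (L ++ [d])) k) := by
  induction k with
  | zero => exact ⟨by simp [lpow], by simp [lpow]⟩
  | succ k ih =>
    refine ⟨?_, ?_⟩
    · intro l hl
      rw [lpow, List.mem_append] at hl
      rcases hl with hl | hl
      · exact h.1 l hl
      · exact ih.1 l hl
    · rw [lpow, List.isChain_append]
      refine ⟨h.2, ih.2, ?_⟩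
      intro x hx y hy
      have hx' : x = d := by
        rw [show c :: (L ++ [d]) = (c :: L) ++ [d] by simp, List.getLast?_append] at hx
        simpa using hx.symm
      have hy' : y = c := by
        cases k with
        | zero => simp [lpow] at hy
        | succ k => simpa [lpow] using hy.symm
      rw [hx', hy']
      exact hcd

lemma pow_ne_one_of_red {c d : Ltr X} {L : List (Ltr X)} (h : Red (c :: (L ++ [d])))
    (hcd : d.1 ≠ c.1) {k : ℕ} (hk : k ≠ 0) : (wprod (c :: (L ++ [d]))) ^ k ≠ 1 := by
  rw [← wprod_lpow]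
  refine (red_lpow h hcd k).ne_one ?_
  cases k with
  | zero => exact absurd rfl hk
  | succ k => simp [lpow]

end FN

end Pool.Agent.H39
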