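import Pool.Agent.H39.OCZorn

open Subgroup
open scoped commutatorElement

namespace H39.OneConvex

/-- `P` is a conjugation-invariant positive cone of the normal subgroup `M` relative to the
normal subgroup `K`. -/
structure RelCone {G : Type*} [Group G] (M K : Subgroup G) (P : Set G) : Prop where
  sub : ∀ a ∈ P, a ∈ M
  mul : ∀ a ∈ P, ∀ b ∈ P, a * b ∈ P
  conj : ∀ a ∈ P, ∀ g, g * a * g⁻¹ ∈ P
  disj : ∀ a ∈ P, a ∉ K
  tot : ∀ a ∈ M, a ∈ K ∨ a ∈ P ∨ a⁻¹ ∈ P
  mulK : ∀ a ∈ P, ∀ k ∈ K, a * k ∈ P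

variable {G : Type*} [Group G]

/-- Lexicographic composition of relative cones. -/
theorem RelCone.trans {M K L : Subgroup G} {P Q : Set G} [K.Normal]
    (hKM : K ≤ M) (hLK : L ≤ K) (hP : RelCone M K P) (hQ : RelCone K L Q) :
    RelCone M L (P ∪ Q) where
  sub := by
    rintro a (ha | ha)
    · exact hP.sub a ha
    · exact hKM (hQ.sub a ha)
  mul := by
    rintro a (ha | ha) b (hb | hb)
    · exact Or.inl (hP.mul a ha b hb)
    · exact Or.inl (hP.mulK a ha b (hQ.sub b hb))
    · left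
      have h1 : b * (b⁻¹ * a * b) ∈ P := by
        refine hP.mulK b hb _ ?_
        have := ‹K.Normal›.conj_mem a (hQ.sub a ha) b⁻¹
        simpa using this
      have h2 : b * (b⁻¹ * a * b) = a * b := by group
      rwa [h2] at h1
    · exact Or.inr (hQ.mul a ha b hb)
  conj := by
    rintro a (ha | ha) g
    · exact Or.inl (hP.conj a ha g)
    · exact Or.inr (hQ.conj a ha g)
  disj := by
    rintro a (ha | ha)
    · exact fun h => hP.disj a ha (hLK h)
    · exact hQ.disj a ha
  tot := by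
    intro a ha
    rcases hP.tot a ha with h | h | h
    · rcases hQ.tot a h with h | h | h
      · exact Or.inl h
      · exact Or.inr (Or.inl (Or.inr h))
      · exact Or.inr (Or.inr (Or.inr h))
    · exact Or.inr (Or.inl (Or.inl h))
    · exact Or.inr (Or.inr (Or.inl h))
  mulK := by
    rintro a (ha | ha) k hk
    · exact Or.inl (hP.mulK a ha k (hLK hk))
    · exact Or.inr (hQ.mulK a ha k hk)

theorem RelCone.restrict {M : Subgroup G} {P : Set G} [M.Normal]
    (hP : RelCone ⊤ ⊥ P) : RelCone M ⊥ (P ∩ M) where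
  sub := fun a ha => ha.2
  mul := fun a ha b hb => ⟨hP.mul a ha.1 b hb.1, M.mul_mem ha.2 hb.2⟩
  conj := fun a ha g => ⟨hP.conj a ha.1 g, ‹M.Normal›.conj_mem a ha.2 g⟩
  disj := fun a ha => hP.disj a ha.1
  tot := by
    intro a ha
    rcases hP.tot a trivial with h | h | h
    · exact Or.inl h
    · exact Or.inr (Or.inl ⟨h, ha⟩)
    · exact Or.inr (Or.inr ⟨h, M.inv_mem ha⟩)
  mulK := by
    intro a ha k hk
    rw [Subgroup.mem_bot] at hk
    rw [hk, mul_one]
    exact ha

/-- The product of the conjugates of `x` by the elements of the list `l`. -/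
def lprod (l : List G) (x : G) : G := (l.map (fun g => g * x * g⁻¹)).prod

@[simp] theorem lprod_nil (x : G) : lprod [] x = 1 := rfl
@[simp] theorem lprod_cons (g : G) (l : List G) (x : G) :
    lprod (g :: l) x = g * x * g⁻¹ * lprod l x := by
  simp [lprod]

/-- The main existence result for relative cones: `M/K` is abelian, `G` acts on it by commuting
automorphisms, and no nonempty product of conjugates of an element outside `K` lies in `K`. -/
theorem exists_relCone (M K : Subgroup G) [hM : M.Normal] [hK : K.Normal]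
    (hKM : K ≤ M)
    (hMM : ∀ x ∈ M, ∀ y ∈ M, ⁅x, y⁆ ∈ K)
    (hGM : ∀ g h : G, ∀ x ∈ M, ⁅⁅g, h⁆, x⁆ ∈ K)
    (hstar : ∀ l : List G, l ≠ [] → ∀ x ∈ M, x ∉ K → lprod l x ∉ K) :
    ∃ P, RelCone M K P := by
  classical
  let K' : Subgroup M := K.subgroupOf M
  have : K'.Normal := Subgroup.normal_subgroupOf
  have hmemK' : ∀ x : M, x ∈ K' ↔ (x : G) ∈ K := fun x => Subgroup.mem_subgroupOf
  have hcommV : ∀ a b : M ⧸ K', a * b = b * a := by
    intro a b
    obtain ⟨x, rfl⟩ := QuotientGroup.mk_surjective a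
    obtain ⟨y, rfl⟩ := QuotientGroup.mk_surjective b
    rw [← QuotientGroup.mk_mul, ← QuotientGroup.mk_mul, QuotientGroup.eq, hmemK']
    have := hMM (y⁻¹ : M) (y⁻¹ : M).2 (x⁻¹ : M) (x⁻¹ : M).2
    have h2 : ((((x * y)⁻¹ * (y * x) : M)) : G) = ⁅((y⁻¹ : M) : G), ((x⁻¹ : M) : G)⁆ := by
      rw [commutatorElement_def]; push_cast; group
    rw [h2]; exact this
  let : CommGroup (M ⧸ K') := { (inferInstance : Group (M ⧸ K')) with mul_comm := hcommV }
  -- the action of `g`
  let ρ : G → (M ⧸ K' →* M ⧸ K') := fun g =>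
    QuotientGroup.map K' K' (MulAut.conjNormal g : MulAut M).toMonoidHom (by
      intro x hx
      rw [Subgroup.mem_comap, hmemK']
      rw [hmemK'] at hx
      simpa using hK.conj_mem _ hx g)
  have hρ : ∀ g (x : M), ρ g (x : M ⧸ K') =
      ((⟨g * x * g⁻¹, hM.conj_mem _ x.2 g⟩ : M) : M ⧸ K') := by
    intro g x
    rfl
  have hlM : ∀ (l : List G) (x : G), x ∈ M → lprod l x ∈ M := by
    intro l x hx
    induction l with
    | nil => simp [M.one_mem]
    | cons g l ih =>
      rw [lprod_cons]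
      exact M.mul_mem (hM.conj_mem _ hx g) ih
  let R : Set (M ⧸ K' →* M ⧸ K') := {f | ∃ l : List G, l ≠ [] ∧
    ∀ x : M, f (x : M ⧸ K') = ((⟨lprod l x, hlM l x x.2⟩ : M) : M ⧸ K')}
  have hid : MonoidHom.id (M ⧸ K') ∈ R := by
    refine ⟨[1], by simp, ?_⟩
    intro x
    have : (⟨lprod [1] (x : G), hlM [1] x x.2⟩ : M) = x := by
      apply Subtype.ext; simp
    rw [this]; rfl
  have happ : ∀ (l l' : List G) (x : G), lprod (l ++ l') x = lprod l x * lprod l' x := by
    intro l l' x
    simp [lprod]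
  have hmul : ∀ f ∈ R, ∀ g ∈ R, f * g ∈ R := by
    rintro f ⟨l, hl, hf⟩ g ⟨l', hl', hg⟩
    refine ⟨l ++ l', by simp [hl], ?_⟩
    intro x
    rw [MonoidHom.mul_apply, hf, hg, ← QuotientGroup.mk_mul]
    congr 1
    apply Subtype.ext
    simp [happ]
  -- `f` is a product of the `ρ g`
  have hfρ : ∀ (l : List G) (f : M ⧸ K' →* M ⧸ K'),
      (∀ x : M, f (x : M ⧸ K') = ((⟨lprod l x, hlM l x x.2⟩ : M) : M ⧸ K')) →
      ∀ v, f v = (l.map (fun g => ρ g v)).prod := by
    intro l f hf v
    obtain ⟨x, rfl⟩ := QuotientGroup.mk_surjective v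
    rw [hf]
    clear hf
    induction l with
    | nil =>
      simp only [List.map_nil, List.prod_nil]
      rw [← QuotientGroup.mk_one]
      rfl
    | cons g l ih =>
      rw [List.map_cons, List.prod_cons, ← ih, hρ, ← QuotientGroup.mk_mul]
      congr 1
  have hρmul : ∀ g h v, ρ g (ρ h v) = ρ (g * h) v := by
    intro g h v
    obtain ⟨x, rfl⟩ := QuotientGroup.mk_surjective v
    rw [hρ, hρ, hρ]
    congr 1
    apply Subtype.ext
    simp only
    group
  have hρcomm : ∀ g h v, ρ g (ρ h v) = ρ h (ρ g v) := by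
    intro g h v
    rw [hρmul, hρmul]
    obtain ⟨x, rfl⟩ := QuotientGroup.mk_surjective v
    rw [hρ, hρ, QuotientGroup.eq, hmemK']
    have h1 := hGM h⁻¹ g⁻¹ x⁻¹ (M.inv_mem x.2)
    -- (g h x h⁻¹ g⁻¹)⁻¹ * (h g x g⁻¹ h⁻¹)
    have key : ((((⟨g * h * x * (g * h)⁻¹, hM.conj_mem _ x.2 (g * h)⟩ : M)⁻¹ *
      (⟨h * g * x * (h * g)⁻¹, hM.conj_mem _ x.2 (h * g)⟩ : M)) : M) : G) =
      (g * h) * ((x : G)⁻¹ * ((g * h)⁻¹ * (h * g)) * x * ((g * h)⁻¹ * (h * g))⁻¹) * (g * h)⁻¹ := by
      push_cast; group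
    rw [key]
    apply hK.conj_mem
    have e1 : (g * h)⁻¹ * (h * g) = ⁅h⁻¹, g⁻¹⁆ := by rw [commutatorElement_def]; group
    have e2 : (x : G)⁻¹ * ⁅h⁻¹, g⁻¹⁆ * x * (⁅h⁻¹, g⁻¹⁆)⁻¹ =
      (⁅⁅h⁻¹, g⁻¹⁆, (x : G)⁻¹⁆)⁻¹ := by
      rw [commutatorElement_def ⁅h⁻¹, g⁻¹⁆ (x : G)⁻¹]; group
    rw [e1, e2]
    exact K.inv_mem h1
  have hcomm : ∀ f ∈ R, ∀ g ∈ R, ∀ x, f (g x) = g (f x) := by
    rintro f ⟨l, hl, hf⟩ g ⟨l', hl', hg⟩ v
    have hf' := hfρ l f hf
    have hg' := hfρ l' g hg
    have h1 : ∀ a w, ρ a (g w) = g (ρ a w) := by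
      intro a w
      rw [hg', hg', map_list_prod, List.map_map]
      congr 1
      apply List.map_congr_left
      intro b _
      exact hρcomm a b w
    rw [hf', hf', map_list_prod, List.map_map]
    congr 1
    apply List.map_congr_left
    intro a _
    exact h1 a v
  have hρR : ∀ g, ρ g ∈ R := by
    intro g
    refine ⟨[g], by simp, ?_⟩
    intro x
    rw [hρ]
    congr 1
    apply Subtype.ext
    simp
  have hcomp : ∀ f ∈ R, ∀ g ∈ R, f.comp g ∈ R := by
    rintro f ⟨l, hl, hf⟩ g ⟨l', hl', hg⟩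
    have hf' := hfρ l f hf
    have hfg : ∀ v, f (g v) = (l.map (fun a => ρ a (g v))).prod := fun v => hf' (g v)
    -- induct on `l`
    have : ∀ (l : List G), l ≠ [] → ∀ F : M ⧸ K' →* M ⧸ K',
        (∀ v, F v = (l.map (fun a => ρ a (g v))).prod) → F ∈ R := by
      intro l
      induction l with
      | nil => intro h; exact absurd rfl h
      | cons a l ih =>
        intro _ F hF
        -- ρ a ∘ g
        have hag : (ρ a).comp g ∈ R := by
          refine ⟨l'.map (fun b => a * b), by simpa using hl', ?_⟩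
          intro x
          rw [MonoidHom.comp_apply, hg, hρ]
          congr 1
          apply Subtype.ext
          simp only
          have : ∀ l' : List G, a * lprod l' (x : G) * a⁻¹ =
              lprod (l'.map (fun b => a * b)) (x : G) := by
            intro l'
            induction l' with
            | nil => simp
            | cons b l' ih' =>
              rw [List.map_cons, lprod_cons, lprod_cons, ← ih']
              group
          exact this l'
        by_cases hl0 : l = []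
        · subst hl0
          have : F = (ρ a).comp g := by
            ext v
            simp [hF]
          rw [this]; exact hag
        · have h2 : ∃ F' : M ⧸ K' →* M ⧸ K',
              ∀ v, F' v = (l.map (fun a => ρ a (g v))).prod := by
            refine ⟨F * ((ρ a).comp g)⁻¹, ?_⟩
            intro v
            rw [MonoidHom.mul_apply, hF, MonoidHom.inv_apply, List.map_cons, List.prod_cons]
            rw [MonoidHom.comp_apply]
            rw [mul_comm (ρ a (g v)), mul_assoc, mul_inv_cancel, mul_one]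
          obtain ⟨F', hF'⟩ := h2
          have h3 := ih hl0 F' hF'
          have : F = (ρ a).comp g * F' := by
            apply MonoidHom.ext
            intro v
            rw [MonoidHom.mul_apply, hF, hF', List.map_cons, List.prod_cons]
            rfl
          rw [this]
          exact hmul _ hag _ h3
    exact this l hl (f.comp g) (fun v => hfg v)
  have hinj : ∀ f ∈ R, ∀ x, f x = 1 → x = 1 := by
    rintro f ⟨l, hl, hf⟩ v hv
    obtain ⟨x, rfl⟩ := QuotientGroup.mk_surjective v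
    rw [hf] at hv
    rw [QuotientGroup.eq_one_iff, hmemK'] at hv ⊢
    by_contra hx
    exact hstar l hl x x.2 hx hv
  obtain ⟨S, hS1, hS2, hS3⟩ := zorn_cone R hid hmul hcomp hcomm hinj
  refine ⟨{a | ∃ h : a ∈ M, ((⟨a, h⟩ : M) : M ⧸ K') ∈ S ∧ a ∉ K}, ?_⟩
  refine ⟨?_, ?_, ?_, ?_, ?_, ?_⟩
  · rintro a ⟨h, -⟩; exact h
  · rintro a ⟨ha, haS, haK⟩ b ⟨hb, hbS, hbK⟩
    refine ⟨M.mul_mem ha hb, ?_, ?_⟩
    · have := S.mul_mem haS hbS
      rw [← QuotientGroup.mk_mul] at this
      exact this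
    · intro hab
      apply haK
      have h1 : ((⟨a, ha⟩ : M) : M ⧸ K') * ((⟨b, hb⟩ : M) : M ⧸ K') = 1 := by
        rw [← QuotientGroup.mk_mul, QuotientGroup.eq_one_iff, hmemK']
        exact hab
      have h2 : (((⟨a, ha⟩ : M) : M ⧸ K'))⁻¹ ∈ S := by
        rw [inv_eq_of_mul_eq_one_right h1]; exact hbS
      have h3 := hS3 _ haS h2
      rw [QuotientGroup.eq_one_iff, hmemK'] at h3
      exact h3
  · rintro a ⟨ha, haS, haK⟩ g
    refine ⟨hM.conj_mem _ ha g, ?_, ?_⟩
    · have := hS1 (ρ g) (hρR g) _ haS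
      rw [hρ] at this
      exact this
    · intro h
      apply haK
      have := hK.conj_mem _ h g⁻¹
      have e : g⁻¹ * (g * a * g⁻¹) * g⁻¹⁻¹ = a := by group
      rwa [e] at this
  · rintro a ⟨ha, haS, haK⟩; exact haK
  · intro a ha
    by_cases haK : a ∈ K
    · exact Or.inl haK
    · right
      rcases hS2 ((⟨a, ha⟩ : M) : M ⧸ K') with h | h
      · exact Or.inl ⟨ha, h, haK⟩
      · refine Or.inr ⟨M.inv_mem ha, ?_, fun h' => haK (by simpa using K.inv_mem h')⟩
        rw [← QuotientGroup.mk_inv] at h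
        exact h
  · rintro a ⟨ha, haS, haK⟩ k hk
    refine ⟨M.mul_mem ha (hKM hk), ?_, ?_⟩
    · have : ((⟨a * k, M.mul_mem ha (hKM hk)⟩ : M) : M ⧸ K') = ((⟨a, ha⟩ : M) : M ⧸ K') := by
        rw [QuotientGroup.eq, hmemK']
        have : (((⟨a * k, M.mul_mem ha (hKM hk)⟩ : M)⁻¹ * (⟨a, ha⟩ : M) : M) : G) = k⁻¹ := by
          push_cast; group
        rw [this]
        exact K.inv_mem hk
      rw [this]; exact haS
    · intro h
      apply haK
      have := K.mul_mem h (K.inv_mem hk)
      rwa [mul_inv_cancel_right] at this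

end H39.OneConvex
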