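import Pool.Agent.H39.OCOrder
open scoped commutatorElement
namespace H39.OneConvex
variable {G : Type*} [Group G] [LinearOrder G] [MulLeftMono G] [MulRightMono G]

theorem zpow_lt' {d : G} (hd : 1 < d) {k m : ℤ} (h : k < m) : d ^ k < d ^ m := by
  obtain ⟨n, hn⟩ := Int.eq_ofNat_of_zero_le (sub_nonneg.mpr h.le)
  have hn0 : n ≠ 0 := by
    rintro rfl
    simp at hn
    omega
  have e : d ^ m = d ^ k * d ^ n := by
    rw [← zpow_natCast, ← zpow_add]
    congr 1
    omega
  rw [e]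
  exact lt_mul_of_one_lt_right' _ (one_lt_pow' hd hn0)

theorem exists_near {N : Subgroup G}
    (harch : ∀ g ∈ N, 1 < g → ∀ x ∈ N, ∃ n : ℕ, x ≤ g ^ n) {d a : G} (hd : d ∈ N) (hd1 : 1 < d)
    (ha : a ∈ N) : ∃ m : ℤ, d ^ m ≤ a ∧ a < d ^ (m + 1) := by
  obtain ⟨k, hk⟩ := harch d hd hd1 a ha
  obtain ⟨n, hn⟩ := harch d hd hd1 a⁻¹ (N.inv_mem ha)
  have hex : ∃ m : ℤ, d ^ m ≤ a := ⟨-(n : ℤ), by
    rw [zpow_neg, zpow_natCast]
    exact inv_le'.mp (by simpa using hn)⟩
  have hbd : ∃ b : ℤ, ∀ m : ℤ, d ^ m ≤ a → m ≤ b := ⟨k, fun m hm => by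
    have h1 : d ^ m ≤ d ^ (k : ℤ) := hm.trans (by rw [zpow_natCast]; exact hk)
    by_contra hlt
    push Not at hlt
    exact not_lt.mpr h1 (zpow_lt' hd1 hlt)⟩
  obtain ⟨m, hm, hmax⟩ := Int.exists_greatest_of_bdd hbd hex
  refine ⟨m, hm, ?_⟩
  by_contra hcon
  push Not at hcon
  have := hmax (m + 1) hcon
  omega

theorem holder {N : Subgroup G}
    (harch : ∀ g ∈ N, 1 < g → ∀ x ∈ N, ∃ n : ℕ, x ≤ g ^ n) :
    ∀ a ∈ N, ∀ b ∈ N, a * b = b * a := by
  -- enough: `¬ 1 < [a,b]`
  have key : ∀ a ∈ N, ∀ b ∈ N, ¬ (1 < ⁅a, b⁆) := by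
    intro a ha b hb hc
    set c := ⁅a, b⁆ with hcdef
    have hcN : c ∈ N := by
      rw [hcdef, commutatorElement_def]
      exact N.mul_mem (N.mul_mem (N.mul_mem ha hb) (N.inv_mem ha)) (N.inv_mem hb)
    by_cases hdisc : ∃ d ∈ N, 1 < d ∧ d * d ≤ c
    · obtain ⟨d, hd, hd1, hdd⟩ := hdisc
      obtain ⟨m, hm1, hm2⟩ := exists_near harch hd hd1 ha
      obtain ⟨n, hn1, hn2⟩ := exists_near harch hd hd1 hb
      have h1 : a * b < d ^ (m + 1) * d ^ (n + 1) := mul_lt_mul_of_lt_of_lt hm2 hn2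
      have h2 : d ^ n * d ^ m ≤ b * a := mul_le_mul' hn1 hm1
      have h3 : (b * a)⁻¹ ≤ (d ^ n * d ^ m)⁻¹ := inv_le_inv_iff.mpr h2
      have h4 : a * b * (b * a)⁻¹ < d ^ (m + 1) * d ^ (n + 1) * (d ^ n * d ^ m)⁻¹ :=
        mul_lt_mul_of_lt_of_le h1 h3
      have h5 : d ^ (m + 1) * d ^ (n + 1) * (d ^ n * d ^ m)⁻¹ = d * d := by
        rw [← zpow_add, ← zpow_add, ← zpow_neg, ← zpow_add]
        rw [show m + 1 + (n + 1) + -(n + m) = 2 by ring]
        rw [zpow_ofNat, pow_two]
      have h6 : a * b * (b * a)⁻¹ = c := by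
        rw [hcdef, commutatorElement_def]; group
      rw [h5, h6] at h4
      exact absurd hdd (not_le.mpr h4)
    · push Not at hdisc
      -- `c` is the least positive element of `N`
      have hleast : ∀ e ∈ N, 1 < e → c ≤ e := by
        intro e he he1
        by_contra hlt
        push Not at hlt
        have h1 : c < e * e := hdisc e he he1
        have h2 : 1 < c * e⁻¹ := by
          have := mul_lt_mul_left hlt e⁻¹
          simpa using this
        have h3 := hdisc (c * e⁻¹) (N.mul_mem hcN (N.inv_mem he)) h2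
        have h4 : c * e⁻¹ < e := by
          have := mul_lt_mul_left h1 e⁻¹
          simpa using this
        have h5 : c * e⁻¹ * (c * e⁻¹) < c := by
          calc c * e⁻¹ * (c * e⁻¹) < c * e⁻¹ * e := by
                exact mul_lt_mul_right h4 _
            _ = c := by group
        exact absurd h3 (not_lt.mpr h5.le)
      have hpow : ∀ x ∈ N, ∃ m : ℤ, x = c ^ m := by
        intro x hx
        obtain ⟨m, hm1, hm2⟩ := exists_near harch hcN hc hx
        refine ⟨m, ?_⟩
        by_contra hne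
        have hlt : c ^ m < x := lt_of_le_of_ne hm1 (Ne.symm hne)
        have h1 : 1 < (c ^ m)⁻¹ * x := by
          have := mul_lt_mul_right hlt (c ^ m)⁻¹
          simpa using this
        have h2 := hleast _ (N.mul_mem (N.inv_mem (N.zpow_mem hcN m)) hx) h1
        have h3 : (c ^ m)⁻¹ * x < c := by
          have := mul_lt_mul_right hm2 (c ^ m)⁻¹
          rw [zpow_add, zpow_one, inv_mul_cancel_left] at this
          exact this
        exact absurd h2 (not_le.mpr h3)
      obtain ⟨m, hm⟩ := hpow a ha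
      obtain ⟨n, hn⟩ := hpow b hb
      have : c = 1 := by
        rw [hcdef, commutatorElement_eq_one_iff_mul_comm, hm, hn, ← zpow_add, ← zpow_add,
          add_comm]
      exact absurd hc (by rw [this]; exact lt_irrefl _)
  intro a ha b hb
  rw [← commutatorElement_eq_one_iff_mul_comm]
  rcases lt_trichotomy ⁅a, b⁆ 1 with h | h | h
  · exfalso
    apply key b hb a ha
    rw [← commutatorElement_inv]
    exact Left.one_lt_inv_iff.mpr h
  · exact h
  · exact absurd h (key a ha b hb)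

end H39.OneConvex
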