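import Pool.Agent.H39.OCStep

open Subgroup
open scoped commutatorElement

namespace H39.OneConvex

variable {G : Type*} [Group G] [LinearOrder G] [MulLeftMono G] [MulRightMono G]

/-- Step 5. -/
theorem step5 {N : Subgroup G} [hN : N.Normal] (hNc : Cvx N)
    (hG1 : ∀ x y : G, ⁅x, y⁆ ∈ N)
    (hiso : ∀ (x : G) (m : ℕ), m ≠ 0 → x ^ m ∈ N → x ∈ N)
    (hU : ∀ K : Subgroup G, K.Normal → (∃ P, RelCone ⊤ K P) → K = ⊥ ∨ K = N ∨ K = ⊤)
    (hnc : ¬ ∀ x ∈ N, ∀ y ∈ N, x * y = y * x)
    (B : Subgroup G) [hB : B.Normal]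
    (hBSD : ∀ C : Subgroup G, Cvx C → C ≤ N → C ≤ SD B C)
    (hK' : ∀ x ∈ N, ∀ y ∈ N, ∀ b ∈ B, ⁅⁅x, y⁆, b⁆ = 1) :
    (∀ x ∈ N, (∀ b ∈ B, ⁅x, b⁆ = 1) → x = 1) ∨ (∀ x ∈ N, ∀ b ∈ B, ⁅x, b⁆ = 1) := by
  classical
  have h1 : ∀ C : Subgroup G, C.Normal → Cvx C → C ≤ N → C = ⊥ ∨ C = N := by
    intro C hCn hC hCN
    rcases hU C hCn ⟨_, relCone_of_cvx hC⟩ with h | h | h
    · exact Or.inl h
    · exact Or.inr h
    · right; rw [h] at hCN ⊢; exact (eq_top_iff.mpr hCN).symm
  have hNne : N ≠ ⊥ := by
    intro h
    apply hnc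
    intro a ha b hb
    rw [h, Subgroup.mem_bot] at ha hb
    rw [ha, hb]
  -- `K = N ∩ C(B)`
  let K : Subgroup G := N ⊓ SD B ⊥
  have hKmem : ∀ x, x ∈ K ↔ x ∈ N ∧ ∀ b ∈ B, ⁅x, b⁆ = 1 := by
    intro x
    rw [Subgroup.mem_inf, mem_SD]
    simp only [Subgroup.mem_bot]
  have hKN : K ≤ N := inf_le_left
  have hKSD : ∀ C, K ≤ SD B C := by
    intro C x hx b hb
    rw [((hKmem x).mp hx).2 b hb]
    exact C.one_mem
  have hKn : K.Normal := by
    refine ⟨fun n hn g => ?_⟩
    refine Subgroup.mem_inf.mpr ⟨hN.conj_mem _ hn.1 g, ?_⟩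
    have := conj_mem_SD_cj g hn.2
    have e : cj g (⊥ : Subgroup G) = ⊥ := by
      ext x
      rw [mem_cj, Subgroup.mem_bot, Subgroup.mem_bot]
      constructor
      · intro h
        have : x = g * (g⁻¹ * x * g) * g⁻¹ := by group
        rw [this, h]; group
      · intro h
        rw [h]; group
    rwa [e] at this
  have hNK : ∀ x ∈ N, ∀ y ∈ N, ⁅x, y⁆ ∈ K := by
    intro x hx y hy
    exact (hKmem _).mpr ⟨hG1 x y, hK' x hx y hy⟩
  suffices hcone : ∃ P, RelCone ⊤ K P by
    have hKN' : K = ⊥ ∨ K = N := by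
      rcases hU K hKn hcone with h | h | h
      · exact Or.inl h
      · exact Or.inr h
      · right
        refine le_antisymm hKN ?_
        rw [h]; exact le_top
    rcases hKN' with h | h
    · left
      intro x hx hxb
      have : x ∈ K := (hKmem x).mpr ⟨hx, hxb⟩
      rw [h, Subgroup.mem_bot] at this
      exact this
    · right
      intro x hx
      have : x ∈ K := by rw [h]; exact hx
      exact ((hKmem x).mp this).2
  -- the cone of `G` relative to `N`
  obtain ⟨P2, hP2⟩ := exists_relCone_top N hG1 hiso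
  -- stabiliser facts
  have hstab : ∀ x ∈ N, x ∉ K → ∀ g, cj g (hull B x) = hull B x → g ∈ N := by
    intro x hx hxK
    set E := hull B x with hE
    have hEc : Cvx E := cvx_hull B x
    have hEne : E ≠ ⊥ := by
      intro h
      apply hxK
      refine (hKmem x).mpr ⟨hx, ?_⟩
      intro b hb
      have := mem_SD_hull B x b hb
      rw [← hE, h, Subgroup.mem_bot] at this
      exact this
    have hEN' : ∀ C, Cvx C → x ∈ C → C ≤ N → E ≤ C := by
      intro C hC hxC hCN
      exact hull_le hC (hBSD C hC hCN hxC)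
    have hEleN : E ≤ N := hEN' N hNc hx le_rfl
    have hEneN : E ≠ N := by
      intro h
      apply hNne
      rw [eq_bot_iff]
      intro z hz
      rw [Subgroup.mem_bot]
      refine step2 hNc h1 hnc hx (z := z) ?_
      rintro C hC ⟨h', hh'⟩
      have hC' : Cvx (cj h'⁻¹ C ⊓ N) := by
        intro a ha g hg1 hg2
        exact ⟨(hC.cj h'⁻¹) a ha.1 g hg1 hg2, hNc a ha.2 g hg1 hg2⟩
      have hxC' : x ∈ cj h'⁻¹ C ⊓ N := by
        refine Subgroup.mem_inf.mpr ⟨?_, hx⟩
        rw [mem_cj]
        simpa using hh'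
      have hle := hEN' _ hC' hxC' inf_le_right
      rw [h] at hle
      have hz' : h'⁻¹ * z * h' ∈ N := by
        have := hN.conj_mem z hz h'⁻¹
        simpa using this
      have := (Subgroup.mem_inf.mp (hle hz')).1
      rw [mem_cj] at this
      have e : h'⁻¹⁻¹ * (h'⁻¹ * z * h') * h'⁻¹ = z := by group
      rwa [e] at this
    let S : Subgroup G :=
      { carrier := {g | cj g E = E}
        one_mem' := cj_one E
        mul_mem' := by
          intro a b (ha : cj a E = E) (hb : cj b E = E)
          change cj (a * b) E = E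
          rw [cj_mul, hb, ha]
        inv_mem' := by
          intro a (ha : cj a E = E)
          change cj a⁻¹ E = E
          conv_lhs => rw [← ha]
          rw [← cj_mul, inv_mul_cancel, cj_one] }
    have hSmem : ∀ g, g ∈ S ↔ cj g E = E := fun g => Iff.rfl
    have hNS : N ≤ S := by
      intro n hn
      rw [hSmem, hE, cj_hull]
      have e : n * x * n⁻¹ = ⁅n, x⁆ * x := by rw [commutatorElement_def]; group
      rw [e]
      exact hull_mul_left (hK' n hn x hx)
    have hSiso : ∀ (g : G) (m : ℕ), m ≠ 0 → g ^ m ∈ S → g ∈ S := by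
      intro g m hm hg
      rw [hSmem] at hg ⊢
      obtain ⟨k, rfl⟩ := Nat.exists_eq_succ_of_ne_zero hm
      rcases (hEc.cj g).chain hEc with h | h
      · have hk : ∀ k : ℕ, cj (g ^ (k + 1)) E ≤ cj g E := by
          intro k
          induction k with
          | zero => simp
          | succ k ih =>
            rw [pow_succ', cj_mul]
            exact (cj_mono (ih.trans h))
        refine le_antisymm h ?_
        calc E = cj (g ^ (k + 1)) E := hg.symm
          _ ≤ cj g E := hk k
      · have hk : ∀ k : ℕ, cj g E ≤ cj (g ^ (k + 1)) E := by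
          intro k
          induction k with
          | zero => simp
          | succ k ih =>
            rw [pow_succ' g (k + 1), cj_mul]
            exact (cj_mono (h.trans ih))
        refine le_antisymm ?_ h
        calc cj g E ≤ cj (g ^ (k + 1)) E := hk k
          _ = E := hg
    have hScomm : ∀ x y : G, ⁅x, y⁆ ∈ S := fun x y => hNS (hG1 x y)
    have hSn : S.Normal := by
      refine ⟨fun n hn g => ?_⟩
      have e : g * n * g⁻¹ = ⁅g, n⁆ * n := by rw [commutatorElement_def]; group
      rw [e]
      exact S.mul_mem (hScomm _ _) hn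
    have hSN : S = N := by
      rcases hU S hSn (exists_relCone_top S hScomm hSiso) with h | h | h
      · exfalso
        apply hNne
        rw [eq_bot_iff, ← h]
        exact hNS
      · exact h
      · exfalso
        have hEn : E.Normal := by
          refine ⟨fun n hn g => ?_⟩
          have hg : cj g E = E := by
            rw [← hSmem, h]; trivial
          rw [← hg]
          exact conj_mem_cj hn
        rcases h1 E hEn hEc hEleN with h' | h'
        · exact hEne h'
        · exact hEneN h'
    intro g hg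
    rw [← hSN, hSmem]
    exact hg
  -- the main computation
  have hstar : ∀ l : List G, l ≠ [] → ∀ x ∈ N, x ∉ K → lprod l x ∉ K := by
    intro l hl x hx hxK
    have hconjN : ∀ g, g * x * g⁻¹ ∈ N := fun g => hN.conj_mem _ hx g
    have hconjSD : ∀ g, g * x * g⁻¹ ∈ SD B (cj g (hull B x)) := fun g =>
      conj_mem_SD_cj g (mem_SD_hull B x)
    have hconjle : ∀ g C, Cvx C → g * x * g⁻¹ ∈ SD B C → cj g (hull B x) ≤ C := by
      intro g C hC h
      rw [cj_hull]
      exact hull_le hC h
    have hcx : ∀ g, Cvx (cj g (hull B x)) := fun g => (cvx_hull B x).cj g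
    -- claim
    have claim : ∀ l : List G, l ≠ [] → ∃ g : G, ∃ r : ℕ, r ≠ 0 ∧ ∃ k ∈ K, ∃ y ∈ N,
        ∃ D, Cvx D ∧ y ∈ SD B D ∧ g * x * g⁻¹ ∉ SD B D ∧
        lprod l x = k * (g * x * g⁻¹) ^ r * y := by
      intro l
      induction l with
      | nil => intro h; exact absurd rfl h
      | cons h l ih =>
        intro _
        by_cases hl0 : l = []
        · subst hl0
          refine ⟨h, 1, one_ne_zero, 1, K.one_mem, 1, N.one_mem, ⊥, cvx_bot,
            (SD B ⊥).one_mem, ?_, by simp⟩
          intro hmem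
          apply hxK
          have h2 : h * x * h⁻¹ ∈ K := ⟨hconjN h, hmem⟩
          have h3 := hKn.conj_mem _ h2 h⁻¹
          have e : h⁻¹ * (h * x * h⁻¹) * h⁻¹⁻¹ = x := by group
          rwa [e] at h3
        · obtain ⟨g, r, hr, k, hk, y, hy, D, hD, hyD, hXD, hprod⟩ := ih hl0
          set X := g * x * g⁻¹ with hX
          set Z := h * x * h⁻¹ with hZ
          have hXN : X ∈ N := hconjN g
          have hZN : Z ∈ N := hconjN h
          have hDg : D ≤ cj g (hull B x) := by
            rcases hD.chain (hcx g) with h' | h'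
            · exact h'
            · exact absurd (SD_mono h' (hconjSD g)) hXD
          by_cases heq : cj h (hull B x) = cj g (hull B x)
          · -- same coset
            have hn : g⁻¹ * h ∈ N := by
              apply hstab x hx hxK
              rw [cj_mul, heq, ← cj_mul, inv_mul_cancel, cj_one]
            obtain ⟨k', hk', hZX⟩ : ∃ k' ∈ K, Z = k' * X := by
              refine ⟨g * ⁅g⁻¹ * h, x⁆ * g⁻¹, hKn.conj_mem _ (hNK _ hn _ hx) g, ?_⟩
              rw [hZ, hX, commutatorElement_def]; group
            refine ⟨g, r + 1, by omega, k' * (X * k * X⁻¹), K.mul_mem hk' (hKn.conj_mem _ hk X),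
              y, hy, D, hD, hyD, hXD, ?_⟩
            rw [lprod_cons, hprod, ← hZ, ← hX, hZX, pow_succ']
            group
          · rcases (hcx h).chain (hcx g) with hle | hle
            · -- `h` smaller
              have hXh : X ∉ SD B (cj h (hull B x)) := by
                intro h'
                apply heq
                exact le_antisymm hle (hconjle g _ (hcx h) h')
              have hk2 : (Z * k * Z⁻¹) * ⁅Z, X ^ r⁆ ∈ K :=
                K.mul_mem (hKn.conj_mem _ hk Z) (hNK _ hZN _ (N.pow_mem hXN r))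
              have heq2 : lprod (h :: l) x =
                  (Z * k * Z⁻¹) * ⁅Z, X ^ r⁆ * X ^ r * (Z * y) := by
                rw [lprod_cons, hprod, ← hZ, commutatorElement_def]; group
              rcases hD.chain (hcx h) with h' | h'
              · exact ⟨g, r, hr, _, hk2, Z * y, N.mul_mem hZN hy, cj h (hull B x), hcx h,
                  (SD B _).mul_mem (hconjSD h) (SD_mono h' hyD), hXh, heq2⟩
              · exact ⟨g, r, hr, _, hk2, Z * y, N.mul_mem hZN hy, D, hD,
                  (SD B _).mul_mem (SD_mono h' (hconjSD h)) hyD, hXD, heq2⟩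
            · -- `g` smaller
              have hZg : Z ∉ SD B (cj g (hull B x)) := by
                intro h'
                apply heq
                exact le_antisymm (hconjle h _ (hcx g) h') hle
              refine ⟨h, 1, one_ne_zero, Z * k * Z⁻¹, hKn.conj_mem _ hk Z, X ^ r * y,
                N.mul_mem (N.pow_mem hXN r) hy, cj g (hull B x), hcx g,
                (SD B _).mul_mem ((SD B _).pow_mem (hconjSD g) r) (SD_mono hDg hyD), hZg, ?_⟩
              rw [lprod_cons, hprod, ← hZ]; group
    obtain ⟨g, r, hr, k, hk, y, hy, D, hD, hyD, hXD, hprod⟩ := claim l hl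
    intro hmem
    apply hXD
    apply mem_SD_of_pow hD hr
    have e : (g * x * g⁻¹) ^ r = k⁻¹ * lprod l x * y⁻¹ := by rw [hprod]; group
    rw [e]
    exact (SD B D).mul_mem ((SD B D).mul_mem ((SD B D).inv_mem (hKSD D hk)) (hKSD D hmem))
      ((SD B D).inv_mem hyD)
  obtain ⟨P1, hP1⟩ := exists_relCone N K hKN hNK (fun g h x hx => hNK _ (hG1 g h) _ hx) hstar
  exact ⟨_, hP2.trans le_top hKN hP1⟩

end H39.OneConvex
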