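import Pool.Agent.H39.OCCone

open Subgroup
open scoped commutatorElement

namespace H39.OneConvex

variable {G : Type*} [Group G]

/-- conjugate subgroup `g C g⁻¹` -/
def cj (g : G) (C : Subgroup G) : Subgroup G := C.comap (MulAut.conj g⁻¹).toMonoidHom

theorem mem_cj {g : G} {C : Subgroup G} {x : G} : x ∈ cj g C ↔ g⁻¹ * x * g ∈ C := by
  simp [cj, MulAut.conj_apply]

theorem cj_one (C : Subgroup G) : cj 1 C = C := by
  ext x; simp [mem_cj]

theorem cj_mul (g h : G) (C : Subgroup G) : cj (g * h) C = cj g (cj h C) := by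
  ext x
  rw [mem_cj, mem_cj, mem_cj]
  have : (g * h)⁻¹ * x * (g * h) = h⁻¹ * (g⁻¹ * x * g) * h := by group
  rw [this]

theorem cj_mono {g : G} {C D : Subgroup G} (h : C ≤ D) : cj g C ≤ cj g D := by
  intro x hx
  rw [mem_cj] at hx ⊢
  exact h hx

theorem conj_mem_cj {g : G} {C : Subgroup G} {x : G} (hx : x ∈ C) : g * x * g⁻¹ ∈ cj g C := by
  rw [mem_cj]
  have : g⁻¹ * (g * x * g⁻¹) * g = x := by group
  rwa [this]

/-- The set of elements `u` with `[u, b] ∈ D` for all `b` in the normal subgroup `B`. -/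
def SD (B D : Subgroup G) [hB : B.Normal] : Subgroup G where
  carrier := {u | ∀ b ∈ B, ⁅u, b⁆ ∈ D}
  one_mem' := by
    intro b _
    simp [D.one_mem]
  mul_mem' := by
    intro u w hu hw b hb
    have hβ : ⁅w, b⁆ ∈ B := by
      rw [commutatorElement_def]
      exact B.mul_mem (hB.conj_mem b hb w) (B.inv_mem hb)
    have e : ⁅u * w, b⁆ = ⁅u, ⁅w, b⁆⁆ * ⁅w, b⁆ * ⁅u, b⁆ := by
      simp only [commutatorElement_def]; group
    rw [e]
    exact D.mul_mem (D.mul_mem (hu _ hβ) (hw b hb)) (hu b hb)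
  inv_mem' := by
    intro u hu b hb
    have hb' : u⁻¹ * b * u ∈ B := by
      have := hB.conj_mem b hb u⁻¹
      simpa using this
    have e : ⁅u⁻¹, b⁆ = (⁅u, u⁻¹ * b * u⁆)⁻¹ := by
      simp only [commutatorElement_def]; group
    rw [e]
    exact D.inv_mem (hu _ hb')

theorem mem_SD {B D : Subgroup G} [B.Normal] {u : G} : u ∈ SD B D ↔ ∀ b ∈ B, ⁅u, b⁆ ∈ D :=
  Iff.rfl

theorem SD_mono {B C D : Subgroup G} [B.Normal] (h : C ≤ D) : SD B C ≤ SD B D :=
  fun _ hu b hb => h (hu b hb)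

theorem conj_mem_SD_cj {B D : Subgroup G} [hB : B.Normal] {u : G} (g : G) (hu : u ∈ SD B D) :
    g * u * g⁻¹ ∈ SD B (cj g D) := by
  intro b hb
  have hb' : g⁻¹ * b * g ∈ B := by
    have := hB.conj_mem b hb g⁻¹
    simpa using this
  rw [mem_cj]
  have e : g⁻¹ * ⁅g * u * g⁻¹, b⁆ * g = ⁅u, g⁻¹ * b * g⁆ := by
    simp only [commutatorElement_def]; group
  rw [e]
  exact hu _ hb'

section Ordered

variable [LinearOrder G] [MulLeftMono G] [MulRightMono G]

/-- Convexity of a subgroup of an ordered group. -/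
def Cvx (C : Subgroup G) : Prop := ∀ a ∈ C, ∀ g, 1 ≤ g → g ≤ a → g ∈ C

theorem Cvx.of_ge {C : Subgroup G} (hC : Cvx C) {a : G} (ha : a ∈ C) {g : G} (h1 : g ≤ 1)
    (h2 : a ≤ g) : g ∈ C := by
  have : g⁻¹ ∈ C := hC a⁻¹ (C.inv_mem ha) g⁻¹ (one_le_inv'.mpr h1) (inv_le_inv_iff.mpr h2)
  simpa using C.inv_mem this

theorem cvx_bot : Cvx (⊥ : Subgroup G) := by
  intro a ha g h1 h2
  rw [Subgroup.mem_bot] at ha ⊢
  subst ha
  exact le_antisymm h2 h1

theorem cvx_top : Cvx (⊤ : Subgroup G) := fun _ _ _ _ _ => trivial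

theorem Cvx.chain {C D : Subgroup G} (hC : Cvx C) (hD : Cvx D) : C ≤ D ∨ D ≤ C := by
  by_contra hcon
  push Not at hcon
  obtain ⟨h1, h2⟩ := hcon
  obtain ⟨c, hcC, hcD⟩ := SetLike.not_le_iff_exists.mp h1
  obtain ⟨d, hdD, hdC⟩ := SetLike.not_le_iff_exists.mp h2
  -- make them positive
  wlog hc1 : 1 ≤ c generalizing c
  · exact this c⁻¹ (C.inv_mem hcC) (fun h => hcD (by simpa using D.inv_mem h))
      (one_le_inv'.mpr (le_of_lt (not_le.mp hc1)))
  wlog hd1 : 1 ≤ d generalizing d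
  · exact this d⁻¹ (D.inv_mem hdD) (fun h => hdC (by simpa using C.inv_mem h))
      (one_le_inv'.mpr (le_of_lt (not_le.mp hd1)))
  rcases le_total c d with h | h
  · exact hcD (hD d hdD c hc1 h)
  · exact hdC (hC c hcC d hd1 h)

theorem Cvx.cj {C : Subgroup G} (hC : Cvx C) (g : G) : Cvx (cj g C) := by
  intro a ha x h1 h2
  rw [mem_cj] at ha ⊢
  refine hC _ ha _ ?_ ?_
  · have := mul_le_mul_left (mul_le_mul_right h1 g⁻¹) g
    simpa using this
  · exact mul_le_mul_left (mul_le_mul_right h2 g⁻¹) g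

theorem pow_inj' {x y : G} {n : ℕ} (hn : n ≠ 0) (h : x ^ n = y ^ n) : x = y :=
  (pow_left_strictMono hn).injective h

theorem conj_eq_of_pow {x y : G} {n : ℕ} (hn : n ≠ 0) (h : y * x ^ n * y⁻¹ = x ^ n) :
    y * x * y⁻¹ = x := by
  apply pow_inj' hn
  rw [conj_pow]
  exact h

theorem commute_of_pow {x y : G} {n : ℕ} (hn : n ≠ 0) (h : Commute (x ^ n) y) : Commute x y := by
  have h1 : y * x ^ n * y⁻¹ = x ^ n := by
    rw [← h.eq, mul_inv_cancel_right]
  have h2 := conj_eq_of_pow hn h1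
  have : y * x = x * y := by
    rw [mul_inv_eq_iff_eq_mul] at h2; exact h2
  exact this.symm

theorem eq_one_of_pow {x : G} {n : ℕ} (hn : n ≠ 0) (h : x ^ n = 1) : x = 1 := by
  apply pow_inj' hn
  rw [h, one_pow]

/-- Key lemma: elements commuting with `[a,x]` normalise the convex subgroups. -/
theorem Cvx.conj_mem {C : Subgroup G} (hC : Cvx C) {a x : G} (hx : x ∈ C)
    (hax : Commute a ⁅a, x⁆) : a * x * a⁻¹ ∈ C := by
  rcases (hC.cj a).chain hC with h | h
  · exact h (conj_mem_cj hx)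
  · have h1 : a⁻¹ * x * a ∈ C := mem_cj.mp (h hx)
    have h2 : a⁻¹ * x * a = (⁅a, x⁆)⁻¹ * x := by
      have e1 : a * x * a⁻¹ = ⁅a, x⁆ * x := by rw [commutatorElement_def]; group
      have e2 : x = a⁻¹ * (⁅a, x⁆ * x) * a := by rw [← e1]; group
      have e3 : a⁻¹ * (⁅a, x⁆ * x) * a = ⁅a, x⁆ * (a⁻¹ * x * a) := by
        have := hax.inv_left.eq
        calc a⁻¹ * (⁅a, x⁆ * x) * a = (a⁻¹ * ⁅a, x⁆) * (x * a) := by group
          _ = (⁅a, x⁆ * a⁻¹) * (x * a) := by rw [this]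
          _ = ⁅a, x⁆ * (a⁻¹ * x * a) := by group
      rw [eq_inv_mul_iff_mul_eq, ← e3, ← e2]
    rw [h2] at h1
    have h3 : (⁅a, x⁆)⁻¹ ∈ C := by
      have := C.mul_mem h1 (C.inv_mem hx)
      rwa [mul_inv_cancel_right] at this
    have h4 : ⁅a, x⁆ ∈ C := by simpa using C.inv_mem h3
    have e1 : a * x * a⁻¹ = ⁅a, x⁆ * x := by rw [commutatorElement_def]; group
    rw [e1]
    exact C.mul_mem h4 hx

/-- If every `b ∈ B` commutes with `[b, x]` for `x ∈ C`, then `C ≤ S_C`. -/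
theorem Cvx.le_SD {C B : Subgroup G} [hB : B.Normal] (hC : Cvx C)
    (hcomm : ∀ b ∈ B, ∀ x ∈ C, Commute b ⁅b, x⁆) : C ≤ SD B C := by
  intro x hx b hb
  have h1 := hC.conj_mem (C.inv_mem hx) (hcomm b hb x⁻¹ (C.inv_mem hx))
  have e : ⁅x, b⁆ = x * (b * x⁻¹ * b⁻¹) := by rw [commutatorElement_def]; group
  rw [e]
  exact C.mul_mem hx h1

/-- Power lemma. -/
theorem mem_SD_of_pow {B D : Subgroup G} [hB : B.Normal] (hD : Cvx D) {u : G} {m : ℕ}
    (hm : m ≠ 0) (h : u ^ m ∈ SD B D) : u ∈ SD B D := by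
  intro b hb
  have hrec : ∀ k : ℕ, ⁅u ^ (k + 1), b⁆ = (u * ⁅u ^ k, b⁆ * u⁻¹) * ⁅u, b⁆ := by
    intro k
    rw [pow_succ']
    simp only [commutatorElement_def]; group
  obtain ⟨k, rfl⟩ := Nat.exists_eq_succ_of_ne_zero hm
  have hmem : ⁅u ^ (k + 1), b⁆ ∈ D := h b hb
  rcases le_total 1 ⁅u, b⁆ with h1 | h1
  · have hpos : ∀ k : ℕ, 1 ≤ ⁅u ^ k, b⁆ := by
      intro k
      induction k with
      | zero => simp
      | succ k ih =>
        rw [hrec]
        refine one_le_mul ?_ h1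
        have := mul_le_mul_left (mul_le_mul_right ih u) u⁻¹
        simpa using this
    refine hD _ hmem _ h1 ?_
    rw [hrec]
    refine le_mul_of_one_le_left' ?_
    have := mul_le_mul_left (mul_le_mul_right (hpos k) u) u⁻¹
    simpa using this
  · have hneg : ∀ k : ℕ, ⁅u ^ k, b⁆ ≤ 1 := by
      intro k
      induction k with
      | zero => simp
      | succ k ih =>
        rw [hrec]
        refine mul_le_one' ?_ h1
        have := mul_le_mul_left (mul_le_mul_right ih u) u⁻¹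
        simpa using this
    refine hD.of_ge hmem h1 ?_
    rw [hrec]
    refine mul_le_of_le_one_left' ?_
    have := mul_le_mul_left (mul_le_mul_right (hneg k) u) u⁻¹
    simpa using this

end Ordered

end H39.OneConvex
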