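import Pool.Agent.H39.OCHolder

open Subgroup
open scoped commutatorElement

namespace H39.OneConvex

variable {G : Type*} [Group G]

/-- A subgroup containing all commutators and closed under roots is the bottom of a relative
cone of the whole group. -/
theorem exists_relCone_top (S : Subgroup G) (hS : ∀ x y : G, ⁅x, y⁆ ∈ S)
    (hiso : ∀ (x : G) (m : ℕ), m ≠ 0 → x ^ m ∈ S → x ∈ S) :
    ∃ P, RelCone ⊤ S P := by
  have hSn : S.Normal := by
    refine ⟨fun n hn g => ?_⟩
    have e : g * n * g⁻¹ = ⁅g, n⁆ * n := by rw [commutatorElement_def]; group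
    rw [e]
    exact S.mul_mem (hS _ _) hn
  refine exists_relCone ⊤ S le_top (fun x _ y _ => hS x y) (fun g h x _ => hS _ _) ?_
  intro l hl x _ hx hmem
  have h1 : ∀ l : List G, ∃ s ∈ S, lprod l x = s * x ^ l.length := by
    intro l
    induction l with
    | nil => exact ⟨1, S.one_mem, by simp⟩
    | cons g l ih =>
      obtain ⟨s, hs, h⟩ := ih
      refine ⟨⁅g, x⁆ * (x * s * x⁻¹), S.mul_mem (hS _ _) (hSn.conj_mem _ hs x), ?_⟩
      rw [lprod_cons, h, List.length_cons, pow_succ', commutatorElement_def]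
      group
  obtain ⟨s, hs, h⟩ := h1 l
  rw [h] at hmem
  have h2 : x ^ l.length ∈ S := by
    have := S.mul_mem (S.inv_mem hs) hmem
    rwa [inv_mul_cancel_left] at this
  exact hx (hiso x _ (by simpa using hl) h2)

section Ordered

variable [LinearOrder G] [MulLeftMono G] [MulRightMono G]

/-- A convex normal subgroup is the bottom of a relative cone of the whole group. -/
theorem relCone_of_cvx {C : Subgroup G} [hCn : C.Normal] (hC : Cvx C) :
    RelCone ⊤ C {a | 1 < a ∧ a ∉ C} where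
  sub := fun _ _ => trivial
  mul := by
    rintro a ⟨ha, haC⟩ b ⟨hb, hbC⟩
    refine ⟨one_lt_mul'' ha hb, fun h => haC (hC _ h a ha.le ?_)⟩
    exact le_mul_of_one_le_right' hb.le
  conj := by
    rintro a ⟨ha, haC⟩ g
    refine ⟨?_, fun h => haC ?_⟩
    · have := mul_lt_mul_left (mul_lt_mul_right ha g) g⁻¹
      simpa using this
    · have := hCn.conj_mem _ h g⁻¹
      have e : g⁻¹ * (g * a * g⁻¹) * g⁻¹⁻¹ = a := by group
      rwa [e] at this
  disj := fun a ha => ha.2
  tot := by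
    intro a _
    by_cases haC : a ∈ C
    · exact Or.inl haC
    · right
      rcases lt_trichotomy 1 a with h | h | h
      · exact Or.inl ⟨h, haC⟩
      · exact absurd (h ▸ C.one_mem) haC
      · exact Or.inr ⟨one_lt_inv'.mpr h, fun h' => haC (by simpa using C.inv_mem h')⟩
  mulK := by
    rintro a ⟨ha, haC⟩ k hk
    refine ⟨?_, fun h => haC ?_⟩
    · by_contra hcon
      push Not at hcon
      apply haC
      refine hC k⁻¹ (C.inv_mem hk) a ha.le ?_
      exact le_inv_iff_mul_le_one_right.mpr hcon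
    · have := C.mul_mem h (C.inv_mem hk)
      rwa [mul_inv_cancel_right] at this

/-- convex hull of `[x, B]` -/
def hull (B : Subgroup G) [B.Normal] (x : G) : Subgroup G := sInf {C | Cvx C ∧ x ∈ SD B C}

theorem cvx_sInf {s : Set (Subgroup G)} (h : ∀ C ∈ s, Cvx C) : Cvx (sInf s) := by
  intro a ha g h1 h2
  rw [Subgroup.mem_sInf] at ha ⊢
  intro C hC
  exact h C hC a (ha C hC) g h1 h2

theorem cvx_hull (B : Subgroup G) [B.Normal] (x : G) : Cvx (hull B x) :=
  cvx_sInf fun _ h => h.1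

theorem mem_SD_hull (B : Subgroup G) [B.Normal] (x : G) : x ∈ SD B (hull B x) := by
  intro b hb
  rw [hull, Subgroup.mem_sInf]
  intro C hC
  exact hC.2 b hb

theorem hull_le {B : Subgroup G} [B.Normal] {x : G} {C : Subgroup G} (hC : Cvx C)
    (h : x ∈ SD B C) : hull B x ≤ C := sInf_le ⟨hC, h⟩

theorem cj_hull (B : Subgroup G) [B.Normal] (x g : G) :
    cj g (hull B x) = hull B (g * x * g⁻¹) := by
  apply le_antisymm
  · have h1 : hull B x ≤ cj g⁻¹ (hull B (g * x * g⁻¹)) := by
      refine hull_le ((cvx_hull B _).cj _) ?_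
      have := conj_mem_SD_cj g⁻¹ (mem_SD_hull B (g * x * g⁻¹))
      have e : g⁻¹ * (g * x * g⁻¹) * g⁻¹⁻¹ = x := by group
      rwa [e] at this
    have h2 := cj_mono (g := g) h1
    rwa [← cj_mul, mul_inv_cancel, cj_one] at h2
  · exact hull_le ((cvx_hull B _).cj _) (conj_mem_SD_cj g (mem_SD_hull B x))

theorem hull_mul_left {B : Subgroup G} [B.Normal] {k x : G} (hk : ∀ b ∈ B, ⁅k, b⁆ = 1) :
    hull B (k * x) = hull B x := by
  have hkS : ∀ C : Subgroup G, k ∈ SD B C := by
    intro C b hb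
    rw [hk b hb]; exact C.one_mem
  unfold hull
  congr 1
  ext C
  constructor
  · rintro ⟨h1, h2⟩
    refine ⟨h1, ?_⟩
    have := (SD B C).mul_mem ((SD B C).inv_mem (hkS C)) h2
    rwa [inv_mul_cancel_left] at this
  · rintro ⟨h1, h2⟩
    exact ⟨h1, (SD B C).mul_mem (hkS C) h2⟩

/-- Step 2: `N` is a noncommutative normal convex subgroup such that every normal convex subgroup
contained in `N` is `⊥` or `N`.  Then the intersection of the convex subgroups containing a
conjugate of a fixed `y ∈ N` is trivial. -/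
theorem step2 {N : Subgroup G} [hN : N.Normal] (hNc : Cvx N)
    (h1 : ∀ C : Subgroup G, C.Normal → Cvx C → C ≤ N → C = ⊥ ∨ C = N)
    (hnc : ¬ ∀ x ∈ N, ∀ y ∈ N, x * y = y * x) {y : G} (hy : y ∈ N) {z : G}
    (hz : ∀ C : Subgroup G, Cvx C → (∃ h, h * y * h⁻¹ ∈ C) → z ∈ C) : z = 1 := by
  set F : Set (Subgroup G) := {C | Cvx C ∧ ∃ h, h * y * h⁻¹ ∈ C} with hF
  have hIc : Cvx (sInf F) := cvx_sInf fun C hC => hC.1
  have hIN : sInf F ≤ N := sInf_le ⟨hNc, 1, by simpa using hy⟩
  have hIn : (sInf F).Normal := by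
    refine ⟨fun n hn g => ?_⟩
    rw [Subgroup.mem_sInf] at hn ⊢
    rintro C ⟨hC, h, hh⟩
    have h2 : cj g⁻¹ C ∈ F := by
      refine ⟨hC.cj _, g⁻¹ * h, ?_⟩
      rw [mem_cj]
      have e : g⁻¹⁻¹ * (g⁻¹ * h * y * (g⁻¹ * h)⁻¹) * g⁻¹ = h * y * h⁻¹ := by group
      rwa [e]
    have h3 := hn _ h2
    rw [mem_cj] at h3
    simpa using h3
  rcases h1 _ hIn hIc hIN with hI | hI
  · have : z ∈ sInf F := by
      rw [Subgroup.mem_sInf]
      rintro C ⟨hC, hh⟩
      exact hz C hC hh
    rw [hI, Subgroup.mem_bot] at this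
    exact this
  · exfalso
    have hall : ∀ C, Cvx C → (∃ h, h * y * h⁻¹ ∈ C) → N ≤ C := by
      intro C hC hh
      rw [← hI]
      exact sInf_le ⟨hC, hh⟩
    have hNne : N ≠ ⊥ := by
      intro h
      apply hnc
      intro a ha b hb
      rw [h, Subgroup.mem_bot] at ha hb
      rw [ha, hb]
    have hy1 : y ≠ 1 := by
      intro h
      apply hNne
      rw [eq_bot_iff]
      exact hall ⊥ cvx_bot ⟨1, by simp [h]⟩
    -- the union of the convex subgroups not containing `y`
    set F' : Set (Subgroup G) := {C | Cvx C ∧ y ∉ C} with hF'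
    have hne : F'.Nonempty := ⟨⊥, cvx_bot, by simpa using hy1⟩
    have hdir : DirectedOn (· ≤ ·) F' := by
      rintro C ⟨hC, hyC⟩ D ⟨hD, hyD⟩
      rcases hC.chain hD with h | h
      · exact ⟨D, ⟨hD, hyD⟩, h, le_rfl⟩
      · exact ⟨C, ⟨hC, hyC⟩, le_rfl, h⟩
    have hmem : ∀ x, x ∈ sSup F' ↔ ∃ C ∈ F', x ∈ C := fun x =>
      Subgroup.mem_sSup_of_directedOn hne hdir
    have hUc : Cvx (sSup F') := by
      intro a ha g hg1 hg2
      rw [hmem] at ha ⊢
      obtain ⟨C, hC, haC⟩ := ha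
      exact ⟨C, hC, hC.1 a haC g hg1 hg2⟩
    have hyU : y ∉ sSup F' := by
      rw [hmem]
      rintro ⟨C, hC, hyC⟩
      exact hC.2 hyC
    have hUN : sSup F' ≤ N := by
      rcases hUc.chain hNc with h | h
      · exact h
      · exact absurd (h hy) hyU
    have hUn : (sSup F').Normal := by
      refine ⟨fun n hn g => ?_⟩
      rw [hmem] at hn ⊢
      obtain ⟨C, ⟨hC, hyC⟩, hnC⟩ := hn
      refine ⟨cj g C, ⟨hC.cj g, ?_⟩, conj_mem_cj hnC⟩
      intro h
      rw [mem_cj] at h
      apply hyC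
      exact hall C hC ⟨g⁻¹, by simpa using h⟩ hy
    have hU : sSup F' = ⊥ := by
      rcases h1 _ hUn hUc hUN with h | h
      · exact h
      · exact absurd (h ▸ hy) hyU
    have hbig : ∀ C, Cvx C → C ≠ ⊥ → N ≤ C := by
      intro C hC hCne
      apply hall C hC
      refine ⟨1, ?_⟩
      by_contra hcon
      apply hCne
      rw [eq_bot_iff, ← hU]
      exact le_sSup ⟨hC, by simpa using hcon⟩
    apply hnc
    apply holder
    intro g hg hg1 x hx
    -- the convex subgroup generated by `g`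
    let D : Subgroup G :=
      { carrier := {x | ∃ n : ℕ, (g ^ n)⁻¹ ≤ x ∧ x ≤ g ^ n}
        one_mem' := ⟨0, by simp⟩
        mul_mem' := by
          rintro a b ⟨n, hn1, hn2⟩ ⟨m, hm1, hm2⟩
          refine ⟨n + m, ?_, ?_⟩
          · have : (g ^ (n + m))⁻¹ = (g ^ n)⁻¹ * (g ^ m)⁻¹ := by
              rw [add_comm, pow_add, mul_inv_rev]
            rw [this]
            exact mul_le_mul' hn1 hm1
          · rw [pow_add]
            exact mul_le_mul' hn2 hm2
        inv_mem' := by
          rintro a ⟨n, hn1, hn2⟩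
          exact ⟨n, inv_le_inv_iff.mpr hn2, inv_le'.mp hn1⟩ }
    have hDc : Cvx D := by
      rintro a ⟨n, hn1, hn2⟩ x hx1 hx2
      refine ⟨n, ?_, hx2.trans hn2⟩
      refine le_trans ?_ hx1
      exact inv_le_one'.mpr (one_le_pow_of_one_le' hg1.le n)
    have hgD : g ∈ D := by
      refine ⟨1, ?_, by simp⟩
      rw [pow_one]
      exact (inv_lt_one'.mpr hg1).le.trans hg1.le
    have hDne : D ≠ ⊥ := by
      intro h
      rw [h, Subgroup.mem_bot] at hgD
      exact absurd hg1 (by rw [hgD]; exact lt_irrefl _)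
    obtain ⟨n, -, hn⟩ := hbig D hDc hDne hx
    exact ⟨n, hn⟩

end Ordered

end H39.OneConvex
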