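import Pool.Agent.H39.OCMain

open Subgroup
open scoped commutatorElement

namespace H39.OneConvex

/-- The subgroup of all elements having a nontrivial power in `H`, when such elements commute
modulo nothing (that is, pairwise commute). -/
def rootSub {G : Type*} [Group G] (H : Subgroup G)
    (hcomm : ∀ (x y : G) (m n : ℕ), m ≠ 0 → n ≠ 0 → x ^ m ∈ H → y ^ n ∈ H → Commute x y) :
    Subgroup G where
  carrier := {x | ∃ m : ℕ, m ≠ 0 ∧ x ^ m ∈ H}
  one_mem' := ⟨1, one_ne_zero, by simp [H.one_mem]⟩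
  mul_mem' := by
    rintro x y ⟨m, hm, hx⟩ ⟨n, hn, hy⟩
    refine ⟨m * n, Nat.mul_ne_zero hm hn, ?_⟩
    rw [(hcomm x y m n hm hn hx hy).mul_pow, pow_mul, mul_comm m n, pow_mul]
    exact H.mul_mem (H.pow_mem hx n) (H.pow_mem hy m)
  inv_mem' := by
    rintro x ⟨m, hm, hx⟩
    exact ⟨m, hm, by rw [inv_pow]; exact H.inv_mem hx⟩

variable {G : Type*} [Group G] [LinearOrder G] [MulLeftMono G] [MulRightMono G]

theorem main_T
    (h3 : ∀ x ∈ ⁅commutator G, commutator G⁆, ∀ y ∈ ⁅commutator G, commutator G⁆, x * y = y * x)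
    {N : Subgroup G} (hNiff : ∀ x, x ∈ N ↔ ∃ m : ℕ, m ≠ 0 ∧ x ^ m ∈ commutator G)
    (hNc : Cvx N)
    (hU : ∀ K : Subgroup G, K.Normal → (∃ P, RelCone ⊤ K P) → K = ⊥ ∨ K = N ∨ K = ⊤) :
    ∀ x ∈ N, ∀ y ∈ N, x * y = y * x := by
  classical
  by_contra hnc
  set G1 : Subgroup G := commutator G with hG1def
  set G2 : Subgroup G := ⁅G1, G1⁆ with hG2def
  have hG2n : G2.Normal := by rw [hG2def]; infer_instance
  have hG1 : ∀ x y : G, ⁅x, y⁆ ∈ G1 := fun x y =>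
    Subgroup.commutator_mem_commutator (Subgroup.mem_top x) (Subgroup.mem_top y)
  have hG2 : ∀ x ∈ G1, ∀ y ∈ G1, ⁅x, y⁆ ∈ G2 := fun x hx y hy =>
    Subgroup.commutator_mem_commutator hx hy
  have hG1N : ∀ x ∈ G1, x ∈ N := fun x hx => (hNiff x).mpr ⟨1, one_ne_zero, by simpa using hx⟩
  have hcN : ∀ x y : G, ⁅x, y⁆ ∈ N := fun x y => hG1N _ (hG1 x y)
  have hN : N.Normal := by
    refine ⟨fun n hn g => ?_⟩
    have e : g * n * g⁻¹ = ⁅g, n⁆ * n := by rw [commutatorElement_def]; group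
    rw [e]
    exact N.mul_mem (hcN _ _) hn
  have hiso : ∀ (x : G) (m : ℕ), m ≠ 0 → x ^ m ∈ N → x ∈ N := by
    intro x m hm hx
    obtain ⟨k, hk, hxk⟩ := (hNiff _).mp hx
    exact (hNiff x).mpr ⟨m * k, Nat.mul_ne_zero hm hk, by rw [pow_mul]; exact hxk⟩
  have h1 : ∀ C : Subgroup G, C.Normal → Cvx C → C ≤ N → C = ⊥ ∨ C = N := by
    intro C hCn hC hCN
    rcases hU C hCn ⟨_, relCone_of_cvx hC⟩ with h | h | h
    · exact Or.inl h
    · exact Or.inr h
    · right; rw [h] at hCN ⊢; exact (eq_top_iff.mpr hCN).symm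
  -- the subgroup `A`
  have hAcomm : ∀ (x y : G) (m n : ℕ), m ≠ 0 → n ≠ 0 → x ^ m ∈ G2 → y ^ n ∈ G2 →
      Commute x y := by
    intro x y m n hm hn hx hy
    have : Commute (x ^ m) (y ^ n) := h3 _ hx _ hy
    exact (commute_of_pow hn (commute_of_pow hm this).symm).symm
  let A : Subgroup G := rootSub G2 hAcomm
  have hAmem : ∀ x, x ∈ A ↔ ∃ m : ℕ, m ≠ 0 ∧ x ^ m ∈ G2 := fun x => Iff.rfl
  have hAn : A.Normal := by
    refine ⟨fun n hn g => ?_⟩
    obtain ⟨m, hm, h⟩ := hn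
    refine ⟨m, hm, ?_⟩
    rw [conj_pow]
    exact hG2n.conj_mem _ h g
  have hAab : ∀ x ∈ A, ∀ y ∈ A, Commute x y := by
    rintro x ⟨m, hm, hx⟩ y ⟨n, hn, hy⟩
    exact hAcomm x y m n hm hn hx hy
  have hG2A : ∀ x ∈ G2, x ∈ A := fun x hx => ⟨1, one_ne_zero, by simpa using hx⟩
  have hAiso : ∀ (x : G) (m : ℕ), m ≠ 0 → x ^ m ∈ A → x ∈ A := by
    rintro x m hm ⟨k, hk, hxk⟩
    exact ⟨m * k, Nat.mul_ne_zero hm hk, by rw [pow_mul]; exact hxk⟩
  have hG2le : G2 ≤ G1 := by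
    rw [hG2def]; exact Subgroup.commutator_le_left G1 G1
  have hAN : ∀ x ∈ A, x ∈ N := by
    rintro x ⟨m, hm, hx⟩
    exact (hNiff x).mpr ⟨m, hm, hG2le hx⟩
  have hA1 : ¬ ∀ a ∈ A, a = 1 := by
    intro hA
    apply hnc
    intro x hx y hy
    obtain ⟨m, hm, hxm⟩ := (hNiff x).mp hx
    obtain ⟨n, hn, hyn⟩ := (hNiff y).mp hy
    have h4 : ⁅x ^ m, y ^ n⁆ = 1 := hA _ (hG2A _ (hG2 _ hxm _ hyn))
    have h5 : Commute (x ^ m) (y ^ n) := commutatorElement_eq_one_iff_mul_comm.mp h4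
    exact (commute_of_pow hn (commute_of_pow hm h5).symm).symm
  have hcommA : ∀ b ∈ A, ∀ x : G, ⁅b, x⁆ ∈ A := by
    intro b hb x
    have e : ⁅b, x⁆ = b * (x * b⁻¹ * x⁻¹) := by rw [commutatorElement_def]; group
    rw [e]
    exact A.mul_mem hb (hAn.conj_mem _ (A.inv_mem hb) x)
  have hCSD : ∀ C : Subgroup G, Cvx C → C ≤ SD A C := by
    intro C hC
    exact hC.le_SD fun b hb x _ => hAab b hb _ (hcommA b hb x)
  have hASD : ∀ C : Subgroup G, A ≤ SD A C := by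
    intro C a ha b hb
    rw [commutatorElement_eq_one_iff_mul_comm.mpr (hAab a ha b hb).eq]
    exact C.one_mem
  -- Step 3
  have hstep3 : ∀ g ∈ G1, ∀ y ∈ N, ∀ b ∈ A, ⁅⁅g, y⁆, b⁆ = 1 := by
    intro g hg y hy b hb
    refine step2 hNc h1 hnc hy (z := ⁅⁅g, y⁆, b⁆) ?_
    rintro C hC ⟨h, hh⟩
    suffices hmem : ⁅g, y⁆ ∈ SD A C from hmem b hb
    set x := h * y * h⁻¹ with hx
    have hxN : x ∈ N := hN.conj_mem _ hy h
    obtain ⟨m, hm, hxm⟩ := (hNiff x).mp hxN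
    have hz : (g * x * g⁻¹) ^ m ∈ SD A C := by
      have e : (g * x * g⁻¹) ^ m = ⁅g, x ^ m⁆ * x ^ m := by
        rw [conj_pow, commutatorElement_def]; group
      rw [e]
      exact (SD A C).mul_mem (hASD C (hG2A _ (hG2 _ hg _ hxm)))
        ((SD A C).pow_mem (hCSD C hC hh) m)
    have hz' := mem_SD_of_pow hC hm hz
    have hgx : ⁅g, x⁆ ∈ SD A C := by
      have e : ⁅g, x⁆ = g * x * g⁻¹ * x⁻¹ := rfl
      rw [e]
      exact (SD A C).mul_mem hz' ((SD A C).inv_mem (hCSD C hC hh))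
    have e : ⁅g, y⁆ = (⁅⁅h, y⁆, ⁅g, y⁆⁆)⁻¹ * (⁅g, ⁅h, y⁆⁆)⁻¹ * ⁅g, x⁆ := by
      rw [hx]; simp only [commutatorElement_def]; group
    rw [e]
    refine (SD A C).mul_mem ((SD A C).mul_mem ((SD A C).inv_mem (hASD C (hG2A _ ?_)))
      ((SD A C).inv_mem (hASD C (hG2A _ ?_)))) hgx
    · exact hG2 _ (hG1 _ _) _ (hG1 _ _)
    · exact hG2 _ hg _ (hG1 _ _)
  -- Step 4
  have hCen : (SD A ⊥ : Subgroup G).Normal := by
    refine ⟨fun n hn g => ?_⟩
    have := conj_mem_SD_cj g hn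
    have e : cj g (⊥ : Subgroup G) = ⊥ := by
      ext x
      rw [mem_cj, Subgroup.mem_bot, Subgroup.mem_bot]
      constructor
      · intro h
        have : x = g * (g⁻¹ * x * g) * g⁻¹ := by group
        rw [this, h]; group
      · intro h
        rw [h]; group
    rwa [e] at this
  have hstep4 : ∀ x ∈ N, ∀ y ∈ N, ∀ b ∈ A, ⁅⁅x, y⁆, b⁆ = 1 := by
    intro x hx y hy
    obtain ⟨m, hm, hym⟩ := (hNiff y).mp hy
    have hc1 : ⁅⁅x, y⁆, y⁆ ∈ SD A ⊥ := by
      intro b hb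
      rw [Subgroup.mem_bot]
      exact hstep3 _ (hG1 x y) y hy b hb
    have hc2 : ⁅y ^ m, x⁆ ∈ SD A ⊥ := by
      intro b hb
      rw [Subgroup.mem_bot]
      exact hstep3 _ hym x hx b hb
    have hcm : ⁅x, y⁆ ^ m ∈ SD A ⊥ := by
      rw [← QuotientGroup.eq_one_iff] at hc1 hc2 ⊢
      have q1 : Commute (QuotientGroup.mk (s := SD A ⊥) ⁅x, y⁆)
          (QuotientGroup.mk (s := SD A ⊥) y) := by
        have : ⁅(QuotientGroup.mk (s := SD A ⊥) ⁅x, y⁆),
            (QuotientGroup.mk (s := SD A ⊥) y)⁆ = 1 := by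
          rw [← hc1]; rfl
        exact commutatorElement_eq_one_iff_mul_comm.mp this
      have q2 : (QuotientGroup.mk (s := SD A ⊥) ⁅x, y⁆ *
          QuotientGroup.mk (s := SD A ⊥) y) ^ m =
          (QuotientGroup.mk (s := SD A ⊥) y) ^ m := by
        have e1 : (⁅x, y⁆ * y) ^ m = (⁅y ^ m, x⁆)⁻¹ * y ^ m := by
          have : ⁅x, y⁆ * y = x * y * x⁻¹ := by rw [commutatorElement_def]; group
          rw [this, conj_pow, commutatorElement_def]; group
        rw [← QuotientGroup.mk_mul, ← QuotientGroup.mk_pow, e1, QuotientGroup.mk_mul,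
          QuotientGroup.mk_inv, hc2, inv_one, one_mul, QuotientGroup.mk_pow]
      rw [q1.mul_pow] at q2
      rw [QuotientGroup.mk_pow]
      exact mul_eq_right.mp q2
    have := mem_SD_of_pow cvx_bot hm hcm
    intro b hb
    have := this b hb
    rwa [Subgroup.mem_bot] at this
  -- Step 6
  have hcentral : ∀ x ∈ N, ∀ b ∈ A, Commute x b := by
    rcases step5 hNc hcN hiso hU hnc A (fun C hC _ => hCSD C hC) hstep4 with h | h
    · exfalso
      apply hA1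
      intro a ha
      exact h a (hAN a ha) fun b hb =>
        commutatorElement_eq_one_iff_mul_comm.mpr (hAab a ha b hb).eq
    · intro x hx b hb
      exact commutatorElement_eq_one_iff_mul_comm.mp (h x hx b hb)
  -- Step 7
  have hL7 : ∀ x ∈ N, ∀ (u : G) (m : ℕ), m ≠ 0 → ⁅u, x ^ m⁆ ∈ A → ⁅u, x⁆ ∈ A := by
    intro x hx u m hm ha
    set a := ⁅u, x ^ m⁆ with hadef
    set z := u * x * u⁻¹ with hz
    have hzN : z ∈ N := hN.conj_mem _ hx u
    have hzm : z ^ m = a * x ^ m := by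
      rw [hz, conj_pow, hadef, commutatorElement_def]; group
    have h4 : Commute z (x ^ m) := by
      have h5 : Commute z (z ^ m) := Commute.self_pow z m
      have h6 : x ^ m = a⁻¹ * z ^ m := by rw [hzm]; group
      rw [h6]
      exact ((hcentral z hzN a ha).inv_right).mul_right h5
    have h5 : Commute x z := commute_of_pow hm h4.symm
    have h6 : ⁅u, x⁆ = z * x⁻¹ := by rw [commutatorElement_def]
    rw [h6]
    apply hAiso _ m hm
    have h7 : (z * x⁻¹) ^ m = a := by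
      rw [(h5.symm.inv_right).mul_pow, hzm, inv_pow]; group
    rw [h7]
    exact ha
  have hi : ∀ g ∈ G1, ∀ x ∈ N, ⁅g, x⁆ ∈ A := by
    intro g hg x hx
    obtain ⟨m, hm, hxm⟩ := (hNiff x).mp hx
    exact hL7 x hx g m hm (hG2A _ (hG2 _ hg _ hxm))
  have hii : ∀ x ∈ N, ∀ y ∈ N, ⁅x, y⁆ ∈ A := by
    intro x hx y hy
    obtain ⟨m, hm, hym⟩ := (hNiff y).mp hy
    refine hL7 y hy x m hm ?_
    rw [← commutatorElement_inv]
    exact A.inv_mem (hi _ hym x hx)
  -- Step 8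
  rcases step5 hNc hcN hiso hU hnc N
    (fun C hC hCN => hC.le_SD fun b hb x hx => hcentral b hb _ (hii b hb x (hCN hx)))
    (fun x hx y hy b hb => commutatorElement_eq_one_iff_mul_comm.mpr
      (hcentral b hb _ (hii x hx y hy)).symm.eq) with h | h
  · apply hA1
    intro a ha
    exact h a (hAN a ha) fun b hb =>
      commutatorElement_eq_one_iff_mul_comm.mpr (hcentral b hb a ha).symm.eq
  · apply hnc
    intro x hx y hy
    exact commutatorElement_eq_one_iff_mul_comm.mp (h x hx y hy)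

end H39.OneConvex
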