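import Mathlib

namespace H39.OneConvex

/-- Invariant total cones on a commutative group with a commutative family of injective
operators closed under products and compositions. -/
theorem zorn_cone {V : Type*} [CommGroup V] (R : Set (V →* V))
    (hid : MonoidHom.id V ∈ R)
    (hmul : ∀ f ∈ R, ∀ g ∈ R, f * g ∈ R)
    (hcomp : ∀ f ∈ R, ∀ g ∈ R, f.comp g ∈ R)
    (hcomm : ∀ f ∈ R, ∀ g ∈ R, ∀ x, f (g x) = g (f x))
    (hinj : ∀ f ∈ R, ∀ x, f x = 1 → x = 1) :
    ∃ S : Submonoid V, (∀ f ∈ R, ∀ s ∈ S, f s ∈ S) ∧ (∀ x, x ∈ S ∨ x⁻¹ ∈ S) ∧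
      (∀ x, x ∈ S → x⁻¹ ∈ S → x = 1) := by
  classical
  let T : Set (Submonoid V) := {S | (∀ f ∈ R, ∀ s ∈ S, f s ∈ S) ∧
    (∀ x, x ∈ S → x⁻¹ ∈ S → x = 1)}
  have hbot : (⊥ : Submonoid V) ∈ T := by
    refine ⟨?_, ?_⟩
    · intro f _ s hs
      rw [Submonoid.mem_bot] at hs ⊢
      rw [hs, map_one]
    · intro x hx _
      exact Submonoid.mem_bot.mp hx
  have hchain : ∀ c ⊆ T, IsChain (· ≤ ·) c → ∀ y ∈ c, ∃ ub ∈ T, ∀ z ∈ c, z ≤ ub := by
    intro c hcT hc y hy
    have hne : c.Nonempty := ⟨y, hy⟩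
    have hdir : DirectedOn (· ≤ ·) c := hc.directedOn
    refine ⟨sSup c, ⟨?_, ?_⟩, fun z hz => le_sSup hz⟩
    · intro f hf s hs
      rw [Submonoid.mem_sSup_of_directedOn hne hdir] at hs ⊢
      obtain ⟨S, hS, hsS⟩ := hs
      exact ⟨S, hS, (hcT hS).1 f hf s hsS⟩
    · intro x hx hx'
      rw [Submonoid.mem_sSup_of_directedOn hne hdir] at hx hx'
      obtain ⟨S, hS, hxS⟩ := hx
      obtain ⟨S', hS', hxS'⟩ := hx'
      rcases hc.total hS hS' with h | h
      · exact (hcT hS').2 x (h hxS) hxS'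
      · exact (hcT hS).2 x hxS (h hxS')
  obtain ⟨S, -, hmax⟩ := zorn_le_nonempty₀ T hchain ⊥ hbot
  obtain ⟨hSinv, hSsal⟩ := hmax.prop
  refine ⟨S, hSinv, ?_, hSsal⟩
  -- key claim
  have key : ∀ x, x ∉ S → ∃ f ∈ R, (f x)⁻¹ ∈ S := by
    intro x hx
    by_contra hcon
    push Not at hcon
    let S' : Submonoid V :=
      { carrier := {s | s ∈ S ∨ ∃ t ∈ S, ∃ f ∈ R, s = t * f x}
        one_mem' := Or.inl S.one_mem
        mul_mem' := by
          rintro a b (ha | ⟨t, ht, f, hf, rfl⟩) (hb | ⟨t', ht', f', hf', rfl⟩)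
          · exact Or.inl (S.mul_mem ha hb)
          · exact Or.inr ⟨a * t', S.mul_mem ha ht', f', hf', by rw [mul_assoc]⟩
          · exact Or.inr ⟨b * t, S.mul_mem hb ht, f, hf, by
              rw [mul_comm, mul_assoc]⟩
          · refine Or.inr ⟨t * t', S.mul_mem ht ht', f * f', hmul f hf f' hf', ?_⟩
            rw [MonoidHom.mul_apply]
            exact mul_mul_mul_comm _ _ _ _ }
    have hle : S ≤ S' := fun s hs => Or.inl hs
    have hxS' : x ∈ S' := Or.inr ⟨1, S.one_mem, MonoidHom.id V, hid, by simp⟩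
    have hS'T : S' ∈ T := by
      refine ⟨?_, ?_⟩
      · rintro f hf s (hs | ⟨t, ht, g, hg, rfl⟩)
        · exact Or.inl (hSinv f hf s hs)
        · refine Or.inr ⟨f t, hSinv f hf t ht, f.comp g, hcomp f hf g hg, ?_⟩
          rw [map_mul]; rfl
      · rintro u (hu | ⟨t, ht, g, hg, hu⟩) (hv | ⟨t', ht', g', hg', hv⟩)
        · exact hSsal u hu hv
        · exfalso
          apply hcon g' hg'
          have : (g' x)⁻¹ = u * t' := by
            have : u * (t' * g' x) = 1 := by rw [← hv, mul_inv_cancel]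
            rw [← mul_assoc] at this
            exact (eq_inv_of_mul_eq_one_left this).symm
          rw [this]
          exact S.mul_mem hu ht'
        · exfalso
          apply hcon g hg
          have : (g x)⁻¹ = u⁻¹ * t := by
            have : u⁻¹ * (t * g x) = 1 := by rw [← hu, inv_mul_cancel]
            rw [← mul_assoc] at this
            exact (eq_inv_of_mul_eq_one_left this).symm
          rw [this]
          exact S.mul_mem hv ht
        · exfalso
          apply hcon (g * g') (hmul g hg g' hg')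
          have : ((g * g') x)⁻¹ = t * t' := by
            have h1 : (t * g x) * (t' * g' x) = 1 := by rw [← hu, ← hv, mul_inv_cancel]
            rw [mul_mul_mul_comm, ← MonoidHom.mul_apply] at h1
            exact (eq_inv_of_mul_eq_one_left h1).symm
          rw [this]
          exact S.mul_mem ht ht'
    have : S' ≤ S := hmax.le_of_ge hS'T hle
    exact hx (this hxS')
  intro x
  by_contra hcon
  push Not at hcon
  obtain ⟨hx, hx'⟩ := hcon
  obtain ⟨f, hf, hfx⟩ := key x hx
  obtain ⟨g, hg, hgx⟩ := key x⁻¹ hx'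
  rw [map_inv, inv_inv] at hgx
  have h1 : f (g x) ∈ S := hSinv f hf _ hgx
  have h2 : (f (g x))⁻¹ ∈ S := by
    rw [hcomm f hf g hg, ← map_inv]
    exact hSinv g hg _ hfx
  have h3 := hSsal _ h1 h2
  have h4 := hinj g hg _ (hinj f hf _ h3)
  exact hx (h4 ▸ S.one_mem)

end H39.OneConvex
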