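import Pool.Agent.H39.FreeProd

namespace Pool.Agent.H39

open Monoid

namespace FN

variable {X Y : Type}

lemma list_cases {α : Type} (L : List α) :
    L = [] ∨ (∃ c, L = [c]) ∨ ∃ c d L', L = c :: (L' ++ [d]) := by
  rcases L with _ | ⟨c, L⟩
  · exact Or.inl rfl
  · rcases List.eq_nil_or_concat L with rfl | ⟨L', d, rfl⟩
    · exact Or.inr (Or.inl ⟨c, rfl⟩)
    · exact Or.inr (Or.inr ⟨c, d, L', by simp⟩)

lemma Red.tail {c : Ltr X} {L : List (Ltr X)} (h : Red (c :: L)) : Red L :=
  ⟨fun l hl => h.1 l (List.mem_cons_of_mem _ hl), h.2.tail⟩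

lemma Red.left {L L' : List (Ltr X)} (h : Red (L ++ L')) : Red L :=
  ⟨fun l hl => h.1 l (List.mem_append_left _ hl), h.2.left_of_append⟩

lemma Red.change_last {L : List (Ltr X)} {d : Ltr X} (h : Red (L ++ [d])) {m : M3}
    (hm : m ≠ 1) : Red (L ++ [(⟨d.1, m⟩ : Ltr X)]) := by
  refine ⟨?_, ?_⟩
  · intro l hl
    rw [List.mem_append] at hl
    rcases hl with hl | hl
    · exact h.1 l (List.mem_append_left _ hl)
    · rw [List.mem_singleton] at hl
      rw [hl]; exact hm
  · have h2 := h.2
    rw [List.isChain_append] at h2 ⊢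
    refine ⟨h2.1, by simp, ?_⟩
    intro x hx y hy
    have : y = ⟨d.1, m⟩ := by simpa using hy.symm
    rw [this]
    exact h2.2.2 x hx d (by simp)

lemma torsion_aux (k : ℕ) (hk : k ≠ 0) : ∀ (N : ℕ) (L : List (Ltr X)), L.length ≤ N → Red L →
    (wprod L) ^ k = 1 → wprod L = 1 ∨ ∃ m : FN X, ∃ l : Ltr X, l.2 ≠ 1 ∧
      wprod L = m * ofL l * m⁻¹ := by
  intro N
  induction N with
  | zero =>
    intro L hL _ _
    have : L = [] := by simpa using hL
    left; simp [this]
  | succ N ih =>
    intro L hlen hL hpow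
    rcases list_cases L with rfl | ⟨c, rfl⟩ | ⟨c, d, L', rfl⟩
    · left; simp
    · right
      exact ⟨1, c, hL.1 c (by simp), by simp⟩
    · by_cases hcd : d.1 = c.1
      · -- conjugate by c
        have key : (ofL c)⁻¹ * wprod (c :: (L' ++ [d])) * ofL c
            = wprod L' * CoprodI.of (M := fun _ : X => M3) (i := d.1) (d.2 * c.2) := by
          have : ofL c = CoprodI.of (M := fun _ : X => M3) (i := d.1) c.2 := by
            rw [hcd]; rfl
          simp only [wprod_cons, wprod_append, wprod_nil, mul_one, map_mul, this]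
          simp only [ofL]
          group
        have hpow' : ((ofL c)⁻¹ * wprod (c :: (L' ++ [d])) * ofL c) ^ k = 1 := by
          have := conj_pow (i := k) (a := (ofL c)⁻¹) (b := wprod (c :: (L' ++ [d])))
          rw [inv_inv] at this
          rw [this, hpow]; simp
        have hfin : ((ofL c)⁻¹ * wprod (c :: (L' ++ [d])) * ofL c) = 1 ∨
            ∃ m : FN X, ∃ l : Ltr X, l.2 ≠ 1 ∧
              ((ofL c)⁻¹ * wprod (c :: (L' ++ [d])) * ofL c) = m * ofL l * m⁻¹ := by
          by_cases hdc : d.2 * c.2 = 1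
          · rw [hdc, map_one, mul_one] at key
            rw [key]
            rw [key] at hpow'
            refine ih L' ?_ hL.tail.left hpow'
            simp at hlen; omega
          · have key2 : ((ofL c)⁻¹ * wprod (c :: (L' ++ [d])) * ofL c)
                = wprod (L' ++ [(⟨d.1, d.2 * c.2⟩ : Ltr X)]) := by
              rw [key]; simp [ofL]
            rw [key2]
            rw [key2] at hpow'
            refine ih _ ?_ (hL.tail.change_last hdc) hpow'
            simp at hlen ⊢; omega
        rcases hfin with h | ⟨m, l, hl, h⟩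
        · left
          have : wprod (c :: (L' ++ [d])) = ofL c * 1 * (ofL c)⁻¹ := by
            rw [← h]; group
          rw [this]; simp
        · right
          refine ⟨ofL c * m, l, hl, ?_⟩
          have : wprod (c :: (L' ++ [d])) = ofL c * (m * ofL l * m⁻¹) * (ofL c)⁻¹ := by
            rw [← h]; group
          rw [this]; group
      · exact absurd hpow (pow_ne_one_of_red hL hcd hk)

/-- torsion elements of the free product are conjugate to letters -/
lemma torsion (n : FN X) (k : ℕ) (hk : k ≠ 0) (h : n ^ k = 1) :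
    n = 1 ∨ ∃ m : FN X, ∃ l : Ltr X, l.2 ≠ 1 ∧ n = m * ofL l * m⁻¹ := by
  obtain ⟨L, hL, rfl⟩ := exists_red n
  exact torsion_aux k hk L.length L le_rfl hL h

lemma no_torsion (n : FN X) (k : ℕ) (hk : k ≠ 0) (hk3 : ∀ m : M3, m ^ k = 1 → m = 1)
    (h : n ^ k = 1) : n = 1 := by
  rcases torsion n k hk h with h1 | ⟨m, l, hl, rfl⟩
  · exact h1
  · exfalso
    apply hl
    apply hk3
    rw [conj_pow] at h
    have h2 : (ofL l) ^ k = 1 := by
      have : (ofL l) ^ k = m⁻¹ * (m * ofL l ^ k * m⁻¹) * m := by group
      rw [this, h]; simp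
    have h3 : CoprodI.of (M := fun _ : X => M3) (i := l.1) (l.2 ^ k) = 1 := by
      rw [map_pow]; exact h2
    have := CoprodI.of_injective (M := fun _ : X => M3) l.1 (h3.trans (map_one _).symm)
    exact this

lemma no_two_torsion (n : FN X) (h : n ^ 2 = 1) : n = 1 :=
  no_torsion n 2 (by norm_num) (by decide) h

lemma no_five_torsion (n : FN X) (h : n ^ 5 = 1) : n = 1 :=
  no_torsion n 5 (by norm_num) (by decide) h

/-- crossed trivialisation -/
lemma cross_aux (j : X → X) (η : X → ℤˣ) : ∀ (N : ℕ) (L : List (Ltr X)), L.length ≤ N →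
    L.map (mapL j η) = (L.map invL).reverse → ∃ m : FN X, wprod L = m * (mapN j η m)⁻¹ := by
  intro N
  induction N with
  | zero =>
    intro L hL _
    have : L = [] := by simpa using hL
    exact ⟨1, by simp [this]⟩
  | succ N ih =>
    intro L hlen hL
    rcases list_cases L with rfl | ⟨c, rfl⟩ | ⟨c, d, L', rfl⟩
    · exact ⟨1, by simp⟩
    · have h1 : mapL j η c = invL c := by simpa using hL
      refine ⟨(ofL c)⁻¹, ?_⟩
      have h3 : (ofL c) ^ 3 = 1 := by
        have : c.2 ^ 3 = 1 := by
          have : ∀ m : M3, m ^ 3 = 1 := by decide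
          exact this _
        rw [ofL, ← map_pow, this, map_one]
      rw [map_inv, mapN_ofL, h1, ofL_invL, inv_inv]
      simp only [wprod_cons, wprod_nil, mul_one]
      have : ofL c = (ofL c)⁻¹ * (ofL c)⁻¹ * (ofL c) ^ 3 := by group
      rw [h3, mul_one] at this
      exact this
    · have h1 : mapL j η c :: (L'.map (mapL j η) ++ [mapL j η d])
          = invL d :: ((L'.map invL).reverse ++ [invL c]) := by
        simpa using hL
      rw [List.cons.injEq] at h1
      obtain ⟨h1, h2⟩ := h1
      have h3 := List.append_inj' h2 (by simp)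
      obtain ⟨h3, h4⟩ := h3
      obtain ⟨m, hm⟩ := ih L' (by simp at hlen; omega) h3
      refine ⟨ofL c * m, ?_⟩
      simp only [wprod_cons, wprod_append, wprod_nil, mul_one, map_mul, mapN_ofL, h1, ofL_invL, hm]
      group

lemma eq_list_of_inv {j : X → X} (hj : Function.Injective j) {η : X → ℤˣ} {L : List (Ltr X)}
    (hL : Red L) (h : mapN j η (wprod L) = (wprod L)⁻¹) :
    L.map (mapL j η) = (L.map invL).reverse := by
  rw [mapN_wprod, ← wprod_inv] at h
  exact red_unique (hL.map hj η) hL.inv h

lemma cross {j : X → X} (hj : Function.Injective j) {η : X → ℤˣ} {n : FN X}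
    (h : mapN j η n = n⁻¹) : ∃ m : FN X, n = m * (mapN j η m)⁻¹ := by
  obtain ⟨L, hL, rfl⟩ := exists_red n
  exact cross_aux j η L.length L le_rfl (eq_list_of_inv hj hL h)

lemma M3_inv_ne {m : M3} (hm : m ≠ 1) : m⁻¹ ≠ m := by
  revert m; decide

lemma fixed_eq_one {j : X → X} (hj : Function.Injective j) {η : X → ℤˣ}
    (hfix : ∀ x, j x = x → η x = -1) {n : FN X} (h : mapN j η n = n) : n = 1 := by
  obtain ⟨L, hL, rfl⟩ := exists_red n
  rw [mapN_wprod] at h
  have h1 : L.map (mapL j η) = L := red_unique (hL.map hj η) hL h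
  rcases L with _ | ⟨c, L⟩
  · simp
  · exfalso
    have h2 : mapL j η c = c := by
      simp only [List.map_cons, List.cons.injEq] at h1
      exact h1.1
    have h3 : j c.1 = c.1 := congrArg Sigma.fst h2
    have h4 : c.2 ^ (η c.1 : ℤ) = c.2 := by
      have := congrArg (fun l : Ltr X => l.2) h2
      exact this
    rw [hfix _ h3] at h4
    have h5 : c.2⁻¹ = c.2 := by simpa using h4
    exact M3_inv_ne (hL.1 c (by simp)) h5

lemma letter_of_order_three {j : X → X} (hj : Function.Injective j) {η : X → ℤˣ}
    (hfix : ∀ x, j x = x → η x = -1) {n : FN X} (hn : n ≠ 1) (hn3 : n ^ 3 = 1)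
    (h : mapN j η n = n⁻¹) : ∃ l : Ltr X, l.2 ≠ 1 ∧ n = ofL l ∧ j l.1 = l.1 := by
  obtain ⟨L, hL, rfl⟩ := exists_red n
  have h1 := eq_list_of_inv hj hL h
  rcases list_cases L with rfl | ⟨c, rfl⟩ | ⟨c, d, L', rfl⟩
  · exact absurd rfl hn
  · have h2 : mapL j η c = invL c := by simpa using h1
    exact ⟨c, hL.1 c (by simp), by simp, congrArg Sigma.fst h2⟩
  · exfalso
    have h2 : mapL j η c = invL d := by
      have h1' : mapL j η c :: (L'.map (mapL j η) ++ [mapL j η d])
          = invL d :: ((L'.map invL).reverse ++ [invL c]) := by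
        simpa using h1
      rw [List.cons.injEq] at h1'
      exact h1'.1
    by_cases hcd : d.1 = c.1
    · have h3 : j c.1 = c.1 := by
        have := congrArg Sigma.fst h2
        exact this.trans hcd
      have h4 : c.2⁻¹ = d.2⁻¹ := by
        have := congrArg (fun l : Ltr X => l.2) h2
        have h5 : c.2 ^ (η c.1 : ℤ) = d.2⁻¹ := this
        rw [hfix _ h3] at h5
        simpa using h5
      have h5 : c.2 = d.2 := inv_injective h4
      -- L' is nonempty
      rcases L' with _ | ⟨e, L''⟩
      · have := hL.2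
        simp at this
        exact this hcd.symm
      · have hec : e.1 ≠ c.1 := by
          have := hL.2
          simp only [List.cons_append, List.isChain_cons_cons] at this
          exact fun h => this.1 h.symm
        have hdd : d.2 * c.2 ≠ 1 := by
          have hd := hL.1 d (by simp)
          rw [h5]
          have : ∀ m : M3, m ≠ 1 → m * m ≠ 1 := by decide
          exact this _ hd
        have hred : Red (e :: (L'' ++ [(⟨d.1, d.2 * c.2⟩ : Ltr X)])) := by
          have := hL.tail
          exact Red.change_last (L := e :: L'') this hdd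
        have key : (ofL c)⁻¹ * wprod (c :: (e :: L'' ++ [d])) * ofL c
            = wprod (e :: (L'' ++ [(⟨d.1, d.2 * c.2⟩ : Ltr X)])) := by
          have h6 : ofL c = CoprodI.of (M := fun _ : X => M3) (i := d.1) c.2 := by
            rw [hcd]; rfl
          have h7 : ofL (⟨d.1, d.2 * c.2⟩ : Ltr X) = ofL d * ofL c := by
            rw [h6, ofL, ofL, map_mul]
          simp only [List.cons_append, wprod_cons, wprod_append, wprod_nil, mul_one, h7]
          group
        have hpow : (wprod (e :: (L'' ++ [(⟨d.1, d.2 * c.2⟩ : Ltr X)]))) ^ 3 ≠ 1 :=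
          pow_ne_one_of_red hred (by rw [hcd]; exact fun h => hec h.symm) (by norm_num)
        apply hpow
        rw [← key]
        have := conj_pow (i := 3) (a := (ofL c)⁻¹) (b := wprod (c :: (e :: L'' ++ [d])))
        rw [inv_inv] at this
        rw [this, hn3]; simp
    · exact pow_ne_one_of_red hL hcd (by norm_num) hn3

end FN

end Pool.Agent.H39
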